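import Pool.Agent.H998.HK.Spec2

/-!
# Mollification and density of test functions (helper773, toolkit for project HK)
-/

set_option autoImplicit false

noncomputable section

namespace Pool.Agent.H773.HK

open MeasureTheory Filter Topology Set
open scoped ENNReal NNReal Convolution

open Pool.Agent.H998.HK (Test)

/-- `g` is the weak derivative of `u` in the direction `e` (values in a normed space) -/
def WDF {X : Type} [NormedAddCommGroup X] [NormedSpace ℝ X] [MeasureSpace X]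
    {F : Type*} [NormedAddCommGroup F] [NormedSpace ℝ F] (e : X) (u g : X → F) : Prop :=
  ∀ φ : X → ℝ, Test φ → ∫ z, fderiv ℝ φ z e • u z = -∫ z, φ z • g z

/-! ### L² convergence from a.e. convergence and norm bounds -/

lemma enorm_sub_sq_le {F : Type*} [NormedAddCommGroup F] (a b : F) :
    ‖a - b‖ₑ ^ 2 ≤ 2 * ‖a‖ₑ ^ 2 + 2 * ‖b‖ₑ ^ 2 := by
  have h1 : ‖a - b‖ ^ 2 ≤ 2 * ‖a‖ ^ 2 + 2 * ‖b‖ ^ 2 := by
    have := norm_sub_le a b
    have h0 := norm_nonneg (a - b)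
    nlinarith [sq_nonneg (‖a‖ - ‖b‖), norm_nonneg a, norm_nonneg b]
  have h2 := ENNReal.ofReal_le_ofReal h1
  rw [ENNReal.ofReal_add (by positivity) (by positivity), ENNReal.ofReal_mul (by norm_num),
    ENNReal.ofReal_mul (by norm_num), ENNReal.ofReal_pow (norm_nonneg _),
    ENNReal.ofReal_pow (norm_nonneg _), ENNReal.ofReal_pow (norm_nonneg _)] at h2
  simpa [ofReal_norm] using h2

lemma enorm_add_sq_le {F : Type*} [NormedAddCommGroup F] (a b : F) :
    ‖a + b‖ₑ ^ 2 ≤ 2 * ‖a‖ₑ ^ 2 + 2 * ‖b‖ₑ ^ 2 := by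
  have := enorm_sub_sq_le a (-b)
  simpa using this

theorem tendsto_L2_of_ae {α : Type*} [MeasurableSpace α] {μ : Measure α} {F : Type*}
    [NormedAddCommGroup F] {u : α → F} {w : ℕ → α → F} (hu : AEStronglyMeasurable u μ)
    (hw : ∀ k, AEStronglyMeasurable (w k) μ) (hfin : ∫⁻ x, ‖u x‖ₑ ^ 2 ∂μ ≠ ∞)
    (hle : ∀ k, ∫⁻ x, ‖w k x‖ₑ ^ 2 ∂μ ≤ ∫⁻ x, ‖u x‖ₑ ^ 2 ∂μ)
    (hlim : ∀ᵐ x ∂μ, Tendsto (fun k => w k x) atTop (𝓝 (u x))) :
    Tendsto (fun k => ∫⁻ x, ‖w k x - u x‖ₑ ^ 2 ∂μ) atTop (𝓝 0) := by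
  set A := ∫⁻ x, ‖u x‖ₑ ^ 2 ∂μ with hA
  let S : ℕ → α → ℝ≥0∞ := fun k x => 2 * ‖w k x‖ₑ ^ 2 + 2 * ‖u x‖ₑ ^ 2
  let D : ℕ → α → ℝ≥0∞ := fun k x => ‖w k x - u x‖ₑ ^ 2
  have hDS : ∀ k x, D k x ≤ S k x := fun k x => enorm_sub_sq_le _ _
  have hwm : ∀ k, AEMeasurable (fun x => ‖w k x‖ₑ ^ 2) μ := fun k =>
    ((hw k).enorm).pow_const 2
  have hum : AEMeasurable (fun x => ‖u x‖ₑ ^ 2) μ := (hu.enorm).pow_const 2
  have hDm : ∀ k, AEMeasurable (D k) μ := fun k => (((hw k).sub hu).enorm).pow_const 2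
  have hSm : ∀ k, AEMeasurable (S k) μ := fun k => ((hwm k).const_mul 2).add (hum.const_mul 2)
  have hS : ∀ k, ∫⁻ x, S k x ∂μ ≤ 4 * A := by
    intro k
    show ∫⁻ x, (2 * ‖w k x‖ₑ ^ 2 + 2 * ‖u x‖ₑ ^ 2) ∂μ ≤ _
    rw [lintegral_add_left' ((hwm k).const_mul 2), lintegral_const_mul'' _ (hwm k),
      lintegral_const_mul'' _ hum]
    calc 2 * ∫⁻ x, ‖w k x‖ₑ ^ 2 ∂μ + 2 * ∫⁻ x, ‖u x‖ₑ ^ 2 ∂μ ≤ 2 * A + 2 * A := by
          gcongr
          exact hle k
      _ = 4 * A := by ring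
  have h4A : 4 * A ≠ ∞ := ENNReal.mul_ne_top (by norm_num) hfin
  have hDfin : ∀ k, ∫⁻ x, D k x ∂μ ≠ ∞ := fun k =>
    ne_top_of_le_ne_top h4A ((lintegral_mono (hDS k)).trans (hS k))
  let G : ℕ → α → ℝ≥0∞ := fun k x => S k x - D k x
  have hGm : ∀ k, AEMeasurable (G k) μ := fun k => (hSm k).sub (hDm k)
  have hG : ∀ k, ∫⁻ x, D k x ∂μ ≤ 4 * A - ∫⁻ x, G k x ∂μ := by
    intro k
    have h1 : ∫⁻ x, G k x ∂μ = ∫⁻ x, S k x ∂μ - ∫⁻ x, D k x ∂μ :=
      lintegral_sub' (hDm k) (hDfin k) (Eventually.of_forall (hDS k))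
    have h2 : ∫⁻ x, D k x ∂μ ≤ ∫⁻ x, S k x ∂μ := lintegral_mono (hDS k)
    have h3 : ∫⁻ x, G k x ∂μ + ∫⁻ x, D k x ∂μ ≤ 4 * A := by
      rw [h1, tsub_add_cancel_of_le h2]; exact hS k
    have h4 : ∫⁻ x, G k x ∂μ ≠ ∞ := ne_top_of_le_ne_top h4A (le_self_add.trans h3)
    exact ENNReal.le_sub_of_add_le_left h4 h3
  have hfat : 4 * A ≤ liminf (fun k => ∫⁻ x, G k x ∂μ) atTop := by
    calc 4 * A = ∫⁻ x, 4 * ‖u x‖ₑ ^ 2 ∂μ := by rw [lintegral_const_mul'' _ hum]
      _ = ∫⁻ x, liminf (fun k => G k x) atTop ∂μ := by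
          refine lintegral_congr_ae ?_
          filter_upwards [hlim] with x hx
          have h1 : Tendsto (fun k => ‖w k x‖ₑ ^ 2) atTop (𝓝 (‖u x‖ₑ ^ 2)) :=
            (ENNReal.continuous_pow 2).continuousAt.tendsto.comp
              ((continuous_enorm.tendsto _).comp hx)
          have h2 : Tendsto (fun k => D k x) atTop (𝓝 0) := by
            have h3 : Tendsto (fun k => w k x - u x) atTop (𝓝 0) := by
              simpa using hx.sub_const (u x)
            have h4 := (ENNReal.continuous_pow 2).continuousAt.tendsto.comp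
              ((continuous_enorm.tendsto (0 : F)).comp h3)
            have h5 : ‖(0 : F)‖ₑ ^ 2 = 0 := by simp
            rw [h5] at h4
            exact h4
          have h3 : Tendsto (fun k => S k x) atTop (𝓝 (2 * ‖u x‖ₑ ^ 2 + 2 * ‖u x‖ₑ ^ 2)) := by
            refine Tendsto.add ?_ tendsto_const_nhds
            exact ENNReal.Tendsto.const_mul h1 (Or.inr (by norm_num))
          have h5 : Tendsto (fun k => G k x) atTop (𝓝 (2 * ‖u x‖ₑ ^ 2 + 2 * ‖u x‖ₑ ^ 2 - 0)) :=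
            ENNReal.Tendsto.sub h3 h2 (Or.inl (by
              refine ENNReal.add_ne_top.2 ⟨?_, ?_⟩ <;>
                exact ENNReal.mul_ne_top (by norm_num) (ENNReal.pow_ne_top enorm_ne_top)))
          rw [h5.liminf_eq, tsub_zero]
          ring
      _ ≤ _ := lintegral_liminf_le' hGm
  have hlimsup : limsup (fun k => ∫⁻ x, D k x ∂μ) atTop ≤ 0 := by
    calc limsup (fun k => ∫⁻ x, D k x ∂μ) atTop
        ≤ limsup (fun k => 4 * A - ∫⁻ x, G k x ∂μ) atTop :=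
          limsup_le_limsup (Eventually.of_forall hG)
      _ = 4 * A - liminf (fun k => ∫⁻ x, G k x ∂μ) atTop := ENNReal.limsup_const_sub _ _ h4A
      _ ≤ 0 := by rw [tsub_eq_zero_of_le hfat]
  exact tendsto_of_le_liminf_of_limsup_le bot_le hlimsup

/-! ### Mollification -/

section moll

variable {X : Type} [NormedAddCommGroup X] [NormedSpace ℝ X] [FiniteDimensional ℝ X]
  [MeasureSpace X] [BorelSpace X] [(volume : Measure X).IsAddHaarMeasure]
variable {F : Type*} [NormedAddCommGroup F] [NormedSpace ℝ F] [CompleteSpace F]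

/-- Jensen for averaging against a probability density, then Tonelli. -/
lemma lintegral_conv_sq_le (k : X → ℝ≥0∞) (hk : Measurable k) (hk1 : ∫⁻ t, k t = 1)
    (h : X → ℝ≥0∞) (hh : Measurable h) :
    ∫⁻ x, (∫⁻ t, k t * h (x - t)) ^ 2 ≤ ∫⁻ x, h x ^ 2 := by
  haveI : SecondCountableTopology X := inferInstance
  have hjens : ∀ x, (∫⁻ t, k t * h (x - t)) ^ 2 ≤ ∫⁻ t, k t * h (x - t) ^ 2 := by
    intro x
    have hx : Measurable (fun t => h (x - t)) := hh.comp (measurable_const.sub measurable_id)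
    let ν : Measure X := (volume : Measure X).withDensity k
    have hν : ν univ = 1 := by
      simp [ν, hk1]
    have hpq : (2 : ℝ).HolderConjugate 2 := Real.HolderConjugate.two_two
    have h1 := ENNReal.lintegral_mul_le_Lp_mul_Lq ν hpq (f := fun t => h (x - t)) (g := fun _ => 1)
      hx.aemeasurable aemeasurable_const
    simp only [Pi.mul_apply, mul_one, ENNReal.one_rpow, lintegral_const, hν] at h1
    have e1 : ∫⁻ t, h (x - t) ∂ν = ∫⁻ t, k t * h (x - t) := by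
      simpa using lintegral_withDensity_eq_lintegral_mul (volume : Measure X) hk hx
    have e2 : ∫⁻ t, h (x - t) ^ (2:ℝ) ∂ν = ∫⁻ t, k t * h (x - t) ^ (2:ℝ) := by
      simpa using lintegral_withDensity_eq_lintegral_mul (volume : Measure X) hk
        (hx.pow_const (2:ℝ))
    rw [e1, e2] at h1
    have h2 := ENNReal.rpow_le_rpow h1 (by norm_num : (0:ℝ) ≤ 2)
    rw [← ENNReal.rpow_mul, one_div_mul_cancel (by norm_num), ENNReal.rpow_one] at h2
    simpa [ENNReal.rpow_two] using h2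
  calc ∫⁻ x, (∫⁻ t, k t * h (x - t)) ^ 2 ≤ ∫⁻ x, ∫⁻ t, k t * h (x - t) ^ 2 :=
        lintegral_mono hjens
    _ = ∫⁻ t, ∫⁻ x, k t * h (x - t) ^ 2 := by
        rw [lintegral_lintegral_swap]
        refine Measurable.aemeasurable ?_
        exact (hk.comp measurable_snd).mul
          ((hh.comp (measurable_fst.sub measurable_snd)).pow_const 2)
    _ = ∫⁻ t, k t * ∫⁻ x, h x ^ 2 := by
        refine lintegral_congr fun t => ?_
        have hm : Measurable (fun x => h (x - t) ^ 2) :=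
          (hh.comp (measurable_id.sub_const t)).pow_const 2
        rw [lintegral_const_mul _ hm]
        congr 1
        exact lintegral_sub_right_eq_self (fun x => h x ^ 2) t
    _ = ∫⁻ x, h x ^ 2 := by
        rw [lintegral_mul_const _ hk, hk1, one_mul]

/-- the mollifier -/
def bmp (X : Type) [NormedAddCommGroup X] [NormedSpace ℝ X] [FiniteDimensional ℝ X] (n : ℕ) :
    ContDiffBump (0 : X) :=
  ⟨1 / (2 * ((n : ℝ) + 1)), 1 / ((n : ℝ) + 1), by positivity, by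
    apply one_div_lt_one_div_of_lt <;> nlinarith [Nat.cast_nonneg (α := ℝ) n]⟩

/-- the mollifier kernel -/
def ker (n : ℕ) : X → ℝ := (bmp X n).normed volume

/-- mollification -/
def mol (n : ℕ) (u : X → F) : X → F := (ker n) ⋆[ContinuousLinearMap.lsmul ℝ ℝ, volume] u

lemma ker_nonneg (n : ℕ) (x : X) : 0 ≤ ker n x := (bmp X n).nonneg_normed x
lemma ker_contDiff (n : ℕ) : ContDiff ℝ ((⊤ : ℕ∞) : WithTop ℕ∞) (ker n : X → ℝ) := (bmp X n).contDiff_normed
lemma ker_continuous (n : ℕ) : Continuous (ker n : X → ℝ) := (bmp X n).continuous_normed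
lemma ker_hasCompactSupport (n : ℕ) : HasCompactSupport (ker n : X → ℝ) :=
  (bmp X n).hasCompactSupport_normed
lemma ker_integrable (n : ℕ) : Integrable (ker n : X → ℝ) := (bmp X n).integrable_normed
lemma ker_lintegral (n : ℕ) : ∫⁻ t : X, ‖ker n t‖ₑ = 1 := by
  have h1 : ∫ t : X, ker n t = 1 := (bmp X n).integral_normed
  have h2 := ofReal_integral_eq_lintegral_ofReal (ker_integrable (X := X) n)
    (ae_of_all _ (ker_nonneg n))
  rw [h1] at h2
  rw [← ENNReal.ofReal_one, h2]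
  refine lintegral_congr fun t => ?_
  rw [Real.enorm_of_nonneg (ker_nonneg n t)]

lemma mol_contDiff (n : ℕ) {u : X → F} (hu : LocallyIntegrable u) : ContDiff ℝ ((⊤ : ℕ∞) : WithTop ℕ∞) (mol n u) :=
  (ker_hasCompactSupport n).contDiff_convolution_left _ (ker_contDiff n) hu

lemma mol_ae_tendsto {u : X → F} (hu : LocallyIntegrable u) :
    ∀ᵐ x, Tendsto (fun n => mol n u x) atTop (𝓝 (u x)) := by
  refine ContDiffBump.ae_convolution_tendsto_right_of_locallyIntegrable (φ := bmp X) (K := 2)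
      ?_ ?_ hu
  · exact tendsto_one_div_add_atTop_nhds_zero_nat
  · refine Eventually.of_forall fun n => ?_
    show 1 / ((n : ℝ) + 1) ≤ 2 * (1 / (2 * ((n : ℝ) + 1)))
    have : (0:ℝ) < (n:ℝ) + 1 := by positivity
    apply le_of_eq
    field_simp

lemma mol_sq_le (n : ℕ) {u : X → F} (hu : AEStronglyMeasurable u volume) :
    ∫⁻ x, ‖mol n u x‖ₑ ^ 2 ≤ ∫⁻ x, ‖u x‖ₑ ^ 2 := by
  obtain ⟨u', hu'm, huu'⟩ := hu
  have hconv : mol n u = mol n u' :=
    convolution_congr _ (ae_eq_refl _) huu'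
  have h2 : ∫⁻ x, ‖u x‖ₑ ^ 2 = ∫⁻ x, ‖u' x‖ₑ ^ 2 := by
    refine lintegral_congr_ae ?_
    filter_upwards [huu'] with x hx
    rw [hx]
  rw [hconv, h2]
  refine le_trans (lintegral_mono fun x => ?_)
    (lintegral_conv_sq_le (fun t => ‖ker n t‖ₑ) (ker_continuous n).measurable.enorm
      (ker_lintegral n) (fun x => ‖u' x‖ₑ) hu'm.enorm)
  refine pow_le_pow_left' ?_ 2
  show ‖((ker n) ⋆[ContinuousLinearMap.lsmul ℝ ℝ, volume] u') x‖ₑ ≤ _
  rw [convolution_def]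
  refine le_trans (enorm_integral_le_lintegral_enorm _) (lintegral_mono fun t => ?_)
  simp only [ContinuousLinearMap.lsmul_apply, enorm_smul]
  exact le_rfl

lemma sq_eq_eLpNorm {α : Type*} [MeasurableSpace α] {μ : Measure α} {G : Type*}
    [NormedAddCommGroup G] (u : α → G) :
    ∫⁻ x, ‖u x‖ₑ ^ 2 ∂μ = eLpNorm u 2 μ ^ 2 := by
  rw [eLpNorm_eq_lintegral_rpow_enorm_toReal (by norm_num) (by norm_num)]
  simp only [ENNReal.toReal_ofNat, one_div]
  rw [← ENNReal.rpow_natCast, ← ENNReal.rpow_mul]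
  norm_num

lemma memLp_two_iff {α : Type*} [MeasurableSpace α] {μ : Measure α} {G : Type*}
    [NormedAddCommGroup G] {u : α → G} :
    MemLp u 2 μ ↔ AEStronglyMeasurable u μ ∧ ∫⁻ x, ‖u x‖ₑ ^ 2 ∂μ ≠ ∞ := by
  rw [sq_eq_eLpNorm]
  constructor
  · intro h
    exact ⟨h.1, ENNReal.pow_ne_top h.2.ne⟩
  · rintro ⟨h1, h2⟩
    refine ⟨h1, ?_⟩
    rw [lt_top_iff_ne_top]
    intro h
    rw [h] at h2
    simp at h2

lemma mol_L2_tendsto {u : X → F} (hu : MemLp u 2) :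
    Tendsto (fun n => ∫⁻ x, ‖mol n u x - u x‖ₑ ^ 2) atTop (𝓝 0) := by
  have hloc : LocallyIntegrable u := hu.locallyIntegrable (by norm_num)
  refine tendsto_L2_of_ae hu.1 (fun k => ?_) (memLp_two_iff.1 hu).2 (fun k => mol_sq_le k hu.1)
    (mol_ae_tendsto hloc)
  exact (mol_contDiff k hloc).continuous.aestronglyMeasurable

lemma ker_fderiv_sub (n : ℕ) (e x y : X) :
    fderiv ℝ (fun y : X => (ker n (x - y) : ℝ)) y e = - fderiv ℝ (ker n : X → ℝ) (x - y) e := by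
  have h3 : HasFDerivAt (fun y : X => (ker n (x - y) : ℝ))
      ((fderiv ℝ (ker n : X → ℝ) (x - y)).comp (-(ContinuousLinearMap.id ℝ X))) y := by
    have h4 : HasFDerivAt (fun y : X => x - y) (-(ContinuousLinearMap.id ℝ X)) y := by
      simpa using (hasFDerivAt_id y).const_sub x
    exact HasFDerivAt.comp y
      (((ker_contDiff n).differentiable (by simp)) (x - y)).hasFDerivAt h4
  rw [h3.fderiv]
  simp

lemma conv_fderiv_aux {k : X → ℝ} (hk : HasCompactSupport k) (hk1 : ContDiff ℝ 1 k) {u : X → F}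
    (hu : LocallyIntegrable u) (x e : X) :
    fderiv ℝ (k ⋆[ContinuousLinearMap.lsmul ℝ ℝ, volume] u) x e
      = ∫ t, fderiv ℝ k t e • u (x - t) := by
  have hderiv := HasCompactSupport.hasFDerivAt_convolution_left (𝕜 := ℝ) (G := X) (E := ℝ)
    (E' := F) (F := F) (ContinuousLinearMap.lsmul ℝ ℝ : ℝ →L[ℝ] F →L[ℝ] F) (f := k) (g := u)
    (μ := volume) hk hk1 hu x
  have hexists : ConvolutionExistsAt (fderiv ℝ k) u x
      ((ContinuousLinearMap.lsmul ℝ ℝ : ℝ →L[ℝ] F →L[ℝ] F).precompL X) volume :=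
    (hk.fderiv ℝ).convolutionExists_left _ (hk1.continuous_fderiv one_ne_zero) hu x
  rw [hderiv.fderiv, convolution_def, ContinuousLinearMap.integral_apply hexists]
  refine integral_congr_ae (ae_of_all _ fun t => ?_)
  rfl

lemma mol_fderiv (n : ℕ) {u g : X → F} {e : X} (hu : LocallyIntegrable u) (h : WDF e u g)
    (x : X) : fderiv ℝ (mol n u) x e = mol n g x := by
  have e2 : ∫ t, fderiv ℝ (ker n : X → ℝ) t e • u (x - t)
      = ∫ y, fderiv ℝ (ker n : X → ℝ) (x - y) e • u y := by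
    rw [← integral_sub_left_eq_self _ _ x]
    simp
  have e3 : fderiv ℝ (mol n u) x e = ∫ t, fderiv ℝ (ker n : X → ℝ) t e • u (x - t) :=
    conv_fderiv_aux (ker_hasCompactSupport n)
      ((ker_contDiff n).of_le (by exact_mod_cast le_top)) hu x e
  rw [e3, e2]
  have hφd : ContDiff ℝ ((⊤ : ℕ∞) : WithTop ℕ∞) (fun y : X => (ker n (x - y) : ℝ)) :=
    (ker_contDiff n).comp (contDiff_const.sub contDiff_id)
  have hφs : HasCompactSupport (fun y : X => (ker n (x - y) : ℝ)) :=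
    (ker_hasCompactSupport n).comp_homeomorph (Homeomorph.subLeft x)
  have h5 := h (fun y => ker n (x - y)) ⟨hφd, hφs⟩
  simp only [ker_fderiv_sub] at h5
  have h6 : ∫ y, fderiv ℝ (ker n : X → ℝ) (x - y) e • u y = ∫ y, ker n (x - y) • g y := by
    have h7 : ∫ y, -(fderiv ℝ (ker n : X → ℝ) (x - y) e) • u y
        = - ∫ y, fderiv ℝ (ker n : X → ℝ) (x - y) e • u y := by
      rw [← integral_neg]
      simp [neg_smul]
    rw [h7, neg_inj] at h5
    exact h5
  rw [h6]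
  have h8 : mol n g x = ∫ t, ker n t • g (x - t) := rfl
  rw [h8, ← integral_sub_left_eq_self _ _ x]
  simp

/-! ### Cut-off -/

/-- the basic bump -/
def bmp0 (X : Type) [NormedAddCommGroup X] [NormedSpace ℝ X] [FiniteDimensional ℝ X] :
    ContDiffBump (0 : X) := ⟨1, 2, one_pos, one_lt_two⟩

/-- cut-off at scale `m + 1` -/
def cut (m : ℕ) (x : X) : ℝ := bmp0 X (((m : ℝ) + 1)⁻¹ • x)

lemma cut_contDiff (m : ℕ) : ContDiff ℝ ((⊤ : ℕ∞) : WithTop ℕ∞) (cut m : X → ℝ) :=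
  (bmp0 X).contDiff.comp (contDiff_const_smul _)

lemma cut_hasCompactSupport (m : ℕ) : HasCompactSupport (cut m : X → ℝ) := by
  have h : ((m : ℝ) + 1)⁻¹ ≠ 0 := by positivity
  exact (bmp0 X).hasCompactSupport.comp_smul h

lemma cut_nonneg (m : ℕ) (x : X) : 0 ≤ cut m x := (bmp0 X).nonneg' _
lemma cut_le_one (m : ℕ) (x : X) : cut m x ≤ 1 := (bmp0 X).le_one

lemma cut_eventually (x : X) : ∀ᶠ m in atTop, cut m x = 1 := by
  obtain ⟨N, hN⟩ := exists_nat_ge ‖x‖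
  filter_upwards [eventually_ge_atTop N] with m hm
  have hm' : (N : ℝ) ≤ m := by exact_mod_cast hm
  have hpos : (0:ℝ) < (m:ℝ) + 1 := by positivity
  apply (bmp0 X).one_of_mem_closedBall
  show ((m : ℝ) + 1)⁻¹ • x ∈ Metric.closedBall (0 : X) 1
  rw [mem_closedBall_zero_iff, norm_smul, Real.norm_of_nonneg (by positivity), inv_mul_le_iff₀ hpos]
  linarith

lemma cut_fderiv (X : Type) [NormedAddCommGroup X] [NormedSpace ℝ X] [FiniteDimensional ℝ X] :
    ∃ C : ℝ, 0 ≤ C ∧ ∀ (m : ℕ) (x e : X), |fderiv ℝ (cut m) x e| ≤ C * ‖e‖ / ((m : ℝ) + 1) := by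
  have hb : ContDiff ℝ 1 (bmp0 X : X → ℝ) := (bmp0 X).contDiff
  have hbs : HasCompactSupport (bmp0 X : X → ℝ) := (bmp0 X).hasCompactSupport
  obtain ⟨C, hC⟩ := (hbs.fderiv ℝ).exists_bound_of_continuous (hb.continuous_fderiv one_ne_zero)
  refine ⟨C, (norm_nonneg _).trans (hC 0), fun m x e => ?_⟩
  have hpos : (0:ℝ) < (m:ℝ) + 1 := by positivity
  have h1 : HasFDerivAt (cut m : X → ℝ)
      ((fderiv ℝ (bmp0 X : X → ℝ) (((m : ℝ) + 1)⁻¹ • x)).comp
        (((m : ℝ) + 1)⁻¹ • ContinuousLinearMap.id ℝ X)) x := by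
    have h4 : HasFDerivAt (fun y : X => ((m : ℝ) + 1)⁻¹ • y)
        (((m : ℝ) + 1)⁻¹ • ContinuousLinearMap.id ℝ X) x :=
      (hasFDerivAt_id x).const_smul _
    exact HasFDerivAt.comp x ((hb.differentiable one_ne_zero) _).hasFDerivAt h4
  rw [h1.fderiv]
  simp only [ContinuousLinearMap.comp_apply, _root_.smul_apply,
    ContinuousLinearMap.id_apply, map_smul, smul_eq_mul, abs_mul]
  rw [abs_of_nonneg (by positivity : (0:ℝ) ≤ ((m : ℝ) + 1)⁻¹), inv_mul_eq_div]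
  gcongr
  exact ((fderiv ℝ (bmp0 X : X → ℝ) (((m : ℝ) + 1)⁻¹ • x)).le_opNorm e).trans
    (mul_le_mul_of_nonneg_right (hC _) (norm_nonneg _))

/-- approximation by test functions -/
def appr (n : ℕ) (u : X → F) (x : X) : F := cut n x • mol n u x

lemma appr_contDiff (n : ℕ) {u : X → F} (hu : LocallyIntegrable u) :
    ContDiff ℝ ((⊤ : ℕ∞) : WithTop ℕ∞) (appr n u) := (cut_contDiff n).smul (mol_contDiff n hu)

lemma appr_hasCompactSupport (n : ℕ) (u : X → F) : HasCompactSupport (appr n u) :=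
  (cut_hasCompactSupport n).smul_right

lemma appr_ae_tendsto {u : X → F} (hu : LocallyIntegrable u) :
    ∀ᵐ x, Tendsto (fun n => appr n u x) atTop (𝓝 (u x)) := by
  filter_upwards [mol_ae_tendsto hu] with x hx
  refine hx.congr' ?_
  filter_upwards [cut_eventually x] with n hn
  simp [appr, hn]

lemma enorm_smul_le_of_le_one {c : ℝ} (h0 : 0 ≤ c) (h1 : c ≤ 1) (a : F) : ‖c • a‖ₑ ≤ ‖a‖ₑ := by
  rw [enorm_smul]
  have : ‖c‖ₑ ≤ 1 := by
    rw [Real.enorm_of_nonneg h0]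
    exact ENNReal.ofReal_le_one.2 h1
  calc ‖c‖ₑ * ‖a‖ₑ ≤ 1 * ‖a‖ₑ := by gcongr
    _ = ‖a‖ₑ := one_mul _

lemma appr_tendsto {u : X → F} (hu : MemLp u 2) :
    Tendsto (fun n => ∫⁻ x, ‖appr n u x - u x‖ₑ ^ 2) atTop (𝓝 0) := by
  have hloc : LocallyIntegrable u := hu.locallyIntegrable (by norm_num)
  refine tendsto_L2_of_ae hu.1 (fun k => ?_) (memLp_two_iff.1 hu).2 (fun k => ?_)
    (appr_ae_tendsto hloc)
  · exact (appr_contDiff k hloc).continuous.aestronglyMeasurable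
  · refine le_trans (lintegral_mono fun x => ?_) (mol_sq_le k hu.1)
    exact pow_le_pow_left' (enorm_smul_le_of_le_one (cut_nonneg _ _) (cut_le_one _ _) _) 2

lemma appr_fderiv (n : ℕ) {u g : X → F} {e : X} (hu : LocallyIntegrable u) (h : WDF e u g)
    (x : X) : fderiv ℝ (appr n u) x e = appr n g x + fderiv ℝ (cut n) x e • mol n u x := by
  have h1 : HasFDerivAt (cut n : X → ℝ) (fderiv ℝ (cut n) x) x :=
    ((cut_contDiff n).differentiable (by simp) x).hasFDerivAt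
  have h2 : HasFDerivAt (mol n u) (fderiv ℝ (mol n u) x) x :=
    ((mol_contDiff n hu).differentiable (by simp) x).hasFDerivAt
  have h3 := (h1.smul h2).fderiv
  have h4 : fderiv ℝ (appr n u) x = _ := h3
  rw [h4]
  simp [appr, mol_fderiv n hu h]

lemma appr_fderiv_ae_tendsto {u g : X → F} {e : X} (hu : LocallyIntegrable u)
    (hg : LocallyIntegrable g) (h : WDF e u g) :
    ∀ᵐ x, Tendsto (fun n => fderiv ℝ (appr n u) x e) atTop (𝓝 (g x)) := by
  obtain ⟨C, hC0, hC⟩ := cut_fderiv X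
  filter_upwards [appr_ae_tendsto hg, mol_ae_tendsto hu] with x hx hx'
  have h1 : Tendsto (fun n : ℕ => fderiv ℝ (cut n) x e) atTop (𝓝 0) := by
    refine squeeze_zero_norm (fun n => hC n x e) ?_
    exact tendsto_const_div_atTop_nhds_zero_nat (C * ‖e‖) |>.comp (tendsto_add_atTop_nat 1)
      |>.congr (fun n => by simp)
  have h2 := hx.add (h1.smul hx')
  simp only [zero_smul, add_zero] at h2
  refine h2.congr fun n => ?_
  rw [appr_fderiv n hu h]

lemma appr_fderiv_tendsto {u g : X → F} {e : X} (hu : MemLp u 2) (hg : MemLp g 2)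
    (h : WDF e u g) :
    Tendsto (fun n => ∫⁻ x, ‖fderiv ℝ (appr n u) x e - g x‖ₑ ^ 2) atTop (𝓝 0) := by
  obtain ⟨C, hC0, hC⟩ := cut_fderiv X
  have hlu : LocallyIntegrable u := hu.locallyIntegrable (by norm_num)
  have hlg : LocallyIntegrable g := hg.locallyIntegrable (by norm_num)
  set A := ∫⁻ x, ‖u x‖ₑ ^ 2 with hA
  have hAfin : A ≠ ∞ := (memLp_two_iff.1 hu).2
  have hbound : ∀ n : ℕ, ∫⁻ x, ‖fderiv ℝ (appr n u) x e - g x‖ₑ ^ 2 ≤
      2 * (∫⁻ x, ‖appr n g x - g x‖ₑ ^ 2) +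
        2 * (ENNReal.ofReal (C * ‖e‖ / ((n : ℝ) + 1)) ^ 2 * A) := by
    intro n
    have hm1 : AEMeasurable (fun x => ‖appr n g x - g x‖ₑ ^ 2) volume :=
      (((appr_contDiff n hlg).continuous.aestronglyMeasurable.sub hg.1).enorm).pow_const 2
    calc ∫⁻ x, ‖fderiv ℝ (appr n u) x e - g x‖ₑ ^ 2
        ≤ ∫⁻ x, (2 * ‖appr n g x - g x‖ₑ ^ 2 +
            2 * (ENNReal.ofReal (C * ‖e‖ / ((n : ℝ) + 1)) ^ 2 * ‖mol n u x‖ₑ ^ 2)) := by
          refine lintegral_mono fun x => ?_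
          rw [appr_fderiv n hlu h, add_sub_right_comm]
          refine (enorm_add_sq_le _ _).trans ?_
          gcongr
          rw [enorm_smul, mul_pow]
          gcongr
          rw [← ofReal_norm]
          exact ENNReal.ofReal_le_ofReal (hC n x e)
      _ = 2 * (∫⁻ x, ‖appr n g x - g x‖ₑ ^ 2) +
            2 * (ENNReal.ofReal (C * ‖e‖ / ((n : ℝ) + 1)) ^ 2 * ∫⁻ x, ‖mol n u x‖ₑ ^ 2) := by
          rw [lintegral_add_left' (hm1.const_mul 2), lintegral_const_mul'' _ hm1]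
          congr 1
          rw [lintegral_const_mul' _ _ (by norm_num), lintegral_const_mul' _ _ (by simp)]
      _ ≤ _ := by
          gcongr
          exact mol_sq_le n hu.1
  have hz1 : Tendsto (fun n => 2 * ∫⁻ x, ‖appr n g x - g x‖ₑ ^ 2) atTop (𝓝 0) := by
    have := ENNReal.Tendsto.const_mul (appr_tendsto hg) (Or.inr (by norm_num : (2:ℝ≥0∞) ≠ ∞))
    simpa using this
  have hz2 : Tendsto (fun n : ℕ => 2 * (ENNReal.ofReal (C * ‖e‖ / ((n : ℝ) + 1)) ^ 2 * A))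
      atTop (𝓝 0) := by
    have h1 : Tendsto (fun n : ℕ => C * ‖e‖ / ((n : ℝ) + 1)) atTop (𝓝 0) :=
      tendsto_const_div_atTop_nhds_zero_nat (C * ‖e‖) |>.comp (tendsto_add_atTop_nat 1)
        |>.congr (fun n => by simp)
    have h2 := ENNReal.tendsto_ofReal h1
    have h3 := (ENNReal.continuous_pow 2).continuousAt.tendsto.comp h2
    have h4 := ENNReal.Tendsto.mul_const (b := A) h3 (Or.inr hAfin)
    have h5 := ENNReal.Tendsto.const_mul h4 (Or.inr (by norm_num : (2:ℝ≥0∞) ≠ ∞))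
    simpa using h5
  have hz := hz1.add hz2
  rw [add_zero] at hz
  exact tendsto_of_tendsto_of_tendsto_of_le_of_le tendsto_const_nhds hz (fun _ => bot_le) hbound

/-- an `ε`-version: test functions are dense in the Sobolev space -/
theorem exists_test_approx {ι : Type*} [Finite ι] {u : X → F} {g : ι → X → F} {e : ι → X}
    (hu : MemLp u 2) (hg : ∀ i, MemLp (g i) 2) (h : ∀ i, WDF (e i) u (g i)) {ε : ℝ≥0∞}
    (hε : ε ≠ 0) : ∃ w : X → F, ContDiff ℝ ((⊤ : ℕ∞) : WithTop ℕ∞) w ∧ HasCompactSupport w ∧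
      ∫⁻ x, ‖w x - u x‖ₑ ^ 2 ≤ ε ∧ ∀ i, ∫⁻ x, ‖fderiv ℝ w x (e i) - g i x‖ₑ ^ 2 ≤ ε := by
  have h1 : ∀ᶠ n in atTop, ∫⁻ x, ‖appr n u x - u x‖ₑ ^ 2 ≤ ε :=
    (appr_tendsto hu).eventually_le_const (pos_iff_ne_zero.2 hε)
  have h2 : ∀ᶠ n in atTop, ∀ i, ∫⁻ x, ‖fderiv ℝ (appr n u) x (e i) - g i x‖ₑ ^ 2 ≤ ε := by
    rw [eventually_all]
    exact fun i => (appr_fderiv_tendsto hu (hg i) (h i)).eventually_le_const (pos_iff_ne_zero.2 hε)
  obtain ⟨n, hn1, hn2⟩ := (h1.and h2).exists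
  exact ⟨appr n u, appr_contDiff n (hu.locallyIntegrable (by norm_num)),
    appr_hasCompactSupport n u, hn1, hn2⟩

end moll

end Pool.Agent.H773.HK
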