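import Pool.Agent.H773.HK.Ineq

/-!
# Sobolev inequality in a three-dimensional direction (helper773, toolkit for project HK)
-/

set_option autoImplicit false

noncomputable section

namespace Pool.Agent.H773.HK

open MeasureTheory Filter Topology Set
open scoped ENNReal NNReal
open Pool.Agent.H998.HK (Test E3 XStar)


lemma opNorm_sq_le {F : Type*} [NormedAddCommGroup F] [NormedSpace ℝ F] (L : E3 →L[ℝ] F) :
    ‖L‖ₑ ^ 2 ≤ 3 * ∑ i, ‖L (eb i)‖ₑ ^ 2 := by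
  have h1 : ‖L‖ ≤ √(3 * ∑ i, ‖L (eb i)‖ ^ 2) := by
    refine ContinuousLinearMap.opNorm_le_bound _ (Real.sqrt_nonneg _) fun x => ?_
    have hx : x = ∑ i, x i • eb i := by
      ext j
      fin_cases j <;> simp [Fin.sum_univ_three, eb]
    have h2 : ‖L x‖ ≤ ∑ i, ‖x i‖ * ‖L (eb i)‖ := by
      conv_lhs => rw [hx]
      rw [map_sum]
      refine (norm_sum_le _ _).trans (Finset.sum_le_sum fun i _ => ?_)
      rw [map_smul, norm_smul]
    have h3 : ∀ i, ‖x i‖ ≤ ‖x‖ := fun i => PiLp.norm_apply_le x i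
    have h4 : (∑ i, ‖L (eb i)‖) ^ 2 ≤ 3 * ∑ i, ‖L (eb i)‖ ^ 2 := by
      have := sq_sum_le_card_mul_sum_sq (s := (Finset.univ : Finset (Fin 3)))
        (f := fun i => ‖L (eb i)‖)
      simpa using this
    have h5 : ∑ i, ‖L (eb i)‖ ≤ √(3 * ∑ i, ‖L (eb i)‖ ^ 2) :=
      Real.le_sqrt_of_sq_le h4
    calc ‖L x‖ ≤ ∑ i, ‖x i‖ * ‖L (eb i)‖ := h2
      _ ≤ ∑ i, ‖x‖ * ‖L (eb i)‖ := by
          gcongr with i _
          exact h3 i
      _ = (∑ i, ‖L (eb i)‖) * ‖x‖ := by rw [← Finset.mul_sum, mul_comm]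
      _ ≤ _ := by gcongr
  have h2 : ‖L‖ ^ 2 ≤ 3 * ∑ i, ‖L (eb i)‖ ^ 2 := by
    calc ‖L‖ ^ 2 ≤ (√(3 * ∑ i, ‖L (eb i)‖ ^ 2)) ^ 2 := by gcongr
      _ = _ := Real.sq_sqrt (by positivity)
  have h3 := ENNReal.ofReal_le_ofReal h2
  rw [ENNReal.ofReal_mul (by norm_num), ENNReal.ofReal_sum_of_nonneg (fun i _ => by positivity),
    ENNReal.ofReal_pow (norm_nonneg _)] at h3
  simp only [ENNReal.ofReal_pow (norm_nonneg _), ofReal_norm] at h3
  simpa using h3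

/-- the Sobolev constant -/
def sobC : ℝ≥0 := 3 * (eLpNormLESNormFDerivOfEqInnerConst (volume : Measure E3) 2) ^ 2

/-- `(∫ |v|^{3/2})^{2/3}` -/
def N32 (v : E3 → ℝ) : ℝ≥0∞ := (∫⁻ x, ‖v x‖ₑ ^ (3 / 2 : ℝ)) ^ (2 / 3 : ℝ)

section

variable {F : Type*} [NormedAddCommGroup F] [InnerProductSpace ℝ F]

theorem sob_six {w : E3 → F} (hw : ContDiff ℝ 1 w) (hs : HasCompactSupport w) :
    (∫⁻ x, ‖w x‖ₑ ^ (6 : ℝ)) ^ (1 / 3 : ℝ) ≤ sobC * ∑ i, ∫⁻ x, ‖fderiv ℝ w x (eb i)‖ₑ ^ 2 := by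
  have h1 := eLpNorm_le_eLpNorm_fderiv_of_eq_inner (volume : Measure E3) hw hs (p := 2) (p' := 6)
    (by norm_num) (by simp) (by simp; norm_num)
  have h2 : (∫⁻ x, ‖w x‖ₑ ^ (6 : ℝ)) ^ (1 / 3 : ℝ) = eLpNorm w (6 : ℝ≥0) volume ^ 2 := by
    rw [eLpNorm_nnreal_eq_lintegral (by norm_num), ← ENNReal.rpow_natCast, ← ENNReal.rpow_mul]
    norm_num
  have h3 : eLpNorm (fderiv ℝ w) (2 : ℝ≥0) volume ^ 2 = ∫⁻ x, ‖fderiv ℝ w x‖ₑ ^ 2 := by
    rw [sq_eq_eLpNorm]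
    norm_num
  rw [h2]
  calc eLpNorm w (6 : ℝ≥0) volume ^ 2
      ≤ (eLpNormLESNormFDerivOfEqInnerConst (volume : Measure E3) 2 *
          eLpNorm (fderiv ℝ w) (2 : ℝ≥0) volume) ^ 2 := pow_le_pow_left' h1 2
    _ = (eLpNormLESNormFDerivOfEqInnerConst (volume : Measure E3) 2 : ℝ≥0∞) ^ 2 *
          ∫⁻ x, ‖fderiv ℝ w x‖ₑ ^ 2 := by rw [mul_pow, h3]
    _ ≤ (eLpNormLESNormFDerivOfEqInnerConst (volume : Measure E3) 2 : ℝ≥0∞) ^ 2 *
          ∫⁻ x, 3 * ∑ i, ‖fderiv ℝ w x (eb i)‖ₑ ^ 2 := by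
        gcongr with x
        exact opNorm_sq_le _
    _ = _ := by
        rw [lintegral_const_mul' _ _ (by norm_num), lintegral_finsetSum]
        · rw [sobC]
          push_cast
          ring
        · intro i _
          exact ((((hw.continuous_fderiv one_ne_zero).clm_apply
            continuous_const).enorm).measurable.pow_const 2)

theorem sob_weight {v : E3 → ℝ} (hv : Measurable v) {w : E3 → F} (hw : ContDiff ℝ 1 w)
    (hs : HasCompactSupport w) :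
    ∫⁻ x, ‖v x‖ₑ * ‖w x‖ₑ ^ 2 ≤ sobC * N32 v * ∑ i, ∫⁻ x, ‖fderiv ℝ w x (eb i)‖ₑ ^ 2 := by
  have hpq : (3 / 2 : ℝ).HolderConjugate 3 := by
    rw [Real.holderConjugate_iff]
    norm_num
  have h1 := ENNReal.lintegral_mul_le_Lp_mul_Lq (volume : Measure E3) hpq
    (f := fun x => ‖v x‖ₑ) (g := fun x => ‖w x‖ₑ ^ 2) hv.enorm.aemeasurable
    (hw.continuous.enorm.measurable.pow_const 2).aemeasurable
  simp only [Pi.mul_apply] at h1
  have h2 : ∀ x, (‖w x‖ₑ ^ 2) ^ (3 : ℝ) = ‖w x‖ₑ ^ (6 : ℝ) := fun x => by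
    rw [← ENNReal.rpow_natCast, ← ENNReal.rpow_mul]
    norm_num
  simp only [h2] at h1
  have h3 : (1 / (3 / 2 : ℝ)) = 2 / 3 := by norm_num
  rw [h3] at h1
  calc ∫⁻ x, ‖v x‖ₑ * ‖w x‖ₑ ^ 2 ≤ N32 v * (∫⁻ x, ‖w x‖ₑ ^ (6 : ℝ)) ^ (1 / 3 : ℝ) := h1
    _ ≤ N32 v * (sobC * ∑ i, ∫⁻ x, ‖fderiv ℝ w x (eb i)‖ₑ ^ 2) := by
        gcongr
        exact sob_six hw hs
    _ = _ := by ring

end

/-! ### Fibres -/

section gen

variable {X : Type} [NormedAddCommGroup X] [NormedSpace ℝ X] [FiniteDimensional ℝ X]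
  [MeasureSpace X] [BorelSpace X] [(volume : Measure X).IsAddHaarMeasure]
variable {F : Type*} [NormedAddCommGroup F] [InnerProductSpace ℝ F]

lemma lintegral_fibre (P : X →L[ℝ] E3) (ι : E3 →L[ℝ] X) (hP : ∀ a, P (ι a) = a)
    (θ : E3 → ℝ≥0∞) (hθ : Measurable θ) (hθ1 : ∫⁻ a, θ a = 1) (G : X → ℝ≥0∞)
    (hG : Measurable G) : ∫⁻ z, θ (P z) * ∫⁻ a, G (z + ι a) = ∫⁻ z, G z := by
  have hm : Measurable fun p : X × E3 => θ (P p.1) * G (p.1 + ι p.2) :=
    (hθ.comp (P.continuous.measurable.comp measurable_fst)).mul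
      (hG.comp ((continuous_fst.add (ι.continuous.comp continuous_snd)).measurable))
  calc ∫⁻ z, θ (P z) * ∫⁻ a, G (z + ι a) = ∫⁻ z, ∫⁻ a, θ (P z) * G (z + ι a) := by
        refine lintegral_congr fun z => ?_
        have h1 : Measurable fun a => G (z + ι a) :=
          hG.comp ((continuous_const.add ι.continuous).measurable)
        rw [lintegral_const_mul _ h1]
    _ = ∫⁻ a, ∫⁻ z, θ (P z) * G (z + ι a) := lintegral_lintegral_swap hm.aemeasurable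
    _ = ∫⁻ a, ∫⁻ z, θ (P z - a) * G z := by
        refine lintegral_congr fun a => ?_
        rw [← lintegral_sub_right_eq_self (fun z => θ (P z) * G (z + ι a)) (ι a)]
        refine lintegral_congr fun z => ?_
        simp [map_sub, hP]
    _ = ∫⁻ z, ∫⁻ a, θ (P z - a) * G z := by
        refine lintegral_lintegral_swap (Measurable.aemeasurable ?_)
        exact (hθ.comp ((P.continuous.comp continuous_snd).sub continuous_fst).measurable).mul
          (hG.comp measurable_snd)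
    _ = ∫⁻ z, G z := by
        refine lintegral_congr fun z => ?_
        have h0 : Measurable fun a => θ (P z - a) :=
          hθ.comp (continuous_const.sub continuous_id).measurable
        rw [lintegral_mul_const _ h0]
        have h1 : ∫⁻ a, θ (P z - a) = 1 := by
          rw [lintegral_sub_left_eq_self θ (P z), hθ1]
        rw [h1, one_mul]

theorem sob_test (P : X →L[ℝ] E3) (ι : E3 →L[ℝ] X) (hP : ∀ a, P (ι a) = a) {v : E3 → ℝ}
    (hv : Measurable v) {f : X → F} (hf : ContDiff ℝ 1 f) (hs : HasCompactSupport f) :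
    ∫⁻ z, ‖v (P z)‖ₑ * ‖f z‖ₑ ^ 2 ≤
      sobC * N32 v * ∑ i, ∫⁻ z, ‖fderiv ℝ f z (ι (eb i))‖ₑ ^ 2 := by
  set θ : E3 → ℝ≥0∞ := fun a => ‖ker 0 a‖ₑ with hθdef
  have hθ : Measurable θ := (ker_continuous 0).measurable.enorm
  have hθ1 : ∫⁻ a, θ a = 1 := ker_lintegral 0
  have hdc : ∀ i, Continuous fun z => fderiv ℝ f z (ι (eb i)) := fun i =>
    (hf.continuous_fderiv one_ne_zero).clm_apply continuous_const
  have hG : Measurable fun z => ‖v (P z)‖ₑ * ‖f z‖ₑ ^ 2 :=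
    (hv.comp P.continuous.measurable).enorm.mul (hf.continuous.enorm.measurable.pow_const 2)
  have hGi : ∀ i, Measurable fun z => ‖fderiv ℝ f z (ι (eb i))‖ₑ ^ 2 := fun i =>
    (hdc i).enorm.measurable.pow_const 2
  rw [← lintegral_fibre P ι hP θ hθ hθ1 _ hG]
  have h2 : ∀ i, ∫⁻ z, ‖fderiv ℝ f z (ι (eb i))‖ₑ ^ 2 =
      ∫⁻ z, θ (P z) * ∫⁻ a, ‖fderiv ℝ f (z + ι a) (ι (eb i))‖ₑ ^ 2 := fun i =>
    (lintegral_fibre P ι hP θ hθ hθ1 _ (hGi i)).symm
  have hm3 : ∀ i, Measurable fun z => ∫⁻ a, ‖fderiv ℝ f (z + ι a) (ι (eb i))‖ₑ ^ 2 := by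
    intro i
    refine Measurable.lintegral_prod_right' (f := fun p : X × E3 =>
      ‖fderiv ℝ f (p.1 + ι p.2) (ι (eb i))‖ₑ ^ 2) ?_
    exact (hGi i).comp ((continuous_fst.add (ι.continuous.comp continuous_snd)).measurable)
  have hθP : Measurable fun z => θ (P z) := hθ.comp P.continuous.measurable
  have hfib : ∀ z, ∫⁻ a, ‖v (P (z + ι a))‖ₑ * ‖f (z + ι a)‖ₑ ^ 2 ≤
      sobC * N32 v * ∑ i, ∫⁻ a, ‖fderiv ℝ f (z + ι a) (ι (eb i))‖ₑ ^ 2 := by
    intro z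
    have hw : ContDiff ℝ 1 fun a => f (z + ι a) := hf.comp (contDiff_const.add ι.contDiff)
    have hemb : IsClosedEmbedding fun a => z + ι a := by
      have h1 : IsClosedEmbedding ι := by
        refine LinearMap.isClosedEmbedding_of_injective (f := (ι : E3 →ₗ[ℝ] X)) ?_
        rw [LinearMap.ker_eq_bot]
        intro a b hab
        have := congrArg P hab
        simpa [hP] using this
      exact (Homeomorph.addLeft z).isClosedEmbedding.comp h1
    have hws : HasCompactSupport fun a => f (z + ι a) := hs.comp_isClosedEmbedding hemb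
    have hd : ∀ a i, fderiv ℝ (fun a => f (z + ι a)) a (eb i) = fderiv ℝ f (z + ι a) (ι (eb i)) := by
      intro a i
      have h1 : HasFDerivAt (fun a => z + ι a) (ι : E3 →L[ℝ] X) a := ι.hasFDerivAt.const_add z
      have h2 := ((hf.differentiable one_ne_zero (z + ι a)).hasFDerivAt).comp a h1
      rw [show fderiv ℝ (fun a => f (z + ι a)) a = _ from h2.fderiv]
      rfl
    have hv' : Measurable fun a => v (P z + a) := hv.comp (measurable_const_add _)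
    have hN : N32 (fun a => v (P z + a)) = N32 v := by
      simp only [N32]
      congr 1
      exact lintegral_add_left_eq_self (fun x => ‖v x‖ₑ ^ (3 / 2 : ℝ)) (P z)
    have h3 := sob_weight hv' hw hws
    rw [hN] at h3
    simp only [hd] at h3
    simpa [map_add, hP] using h3
  calc ∫⁻ z, θ (P z) * ∫⁻ a, ‖v (P (z + ι a))‖ₑ * ‖f (z + ι a)‖ₑ ^ 2
      ≤ ∫⁻ z, θ (P z) * (sobC * N32 v * ∑ i, ∫⁻ a, ‖fderiv ℝ f (z + ι a) (ι (eb i))‖ₑ ^ 2) := by
        gcongr with z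
        exact hfib z
    _ = ∫⁻ z, sobC * N32 v * ∑ i, θ (P z) * ∫⁻ a, ‖fderiv ℝ f (z + ι a) (ι (eb i))‖ₑ ^ 2 := by
        refine lintegral_congr fun z => ?_
        rw [← Finset.mul_sum]
        ring
    _ = _ := by
        rw [lintegral_const_mul, lintegral_finsetSum]
        · simp only [h2]
        · exact fun i _ => hθP.mul (hm3 i)
        · exact Finset.measurable_sum _ fun i _ => hθP.mul (hm3 i)


/-- the Sobolev inequality with the potential `v' + C` -/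
theorem split_sobolev {F : Type*} [NormedAddCommGroup F] [InnerProductSpace ℝ F] [CompleteSpace F]
    (P : X →L[ℝ] E3) (ι : E3 →L[ℝ] X) (hP : ∀ a, P (ι a) = a) {v v' : E3 → ℝ} (hvm : Measurable v)
    (hv' : Measurable v') {C ε : ℝ≥0∞} (hC : C ≠ ∞) (hε : ε ≠ ∞) (h : ∀ x, ‖v x‖ₑ ≤ ‖v' x‖ₑ + C)
    (hN : N32 v' ≤ ε) {u : X → F} {g : Fin 3 → X → F} (hu : MemLp u 2) (hg : ∀ i, MemLp (g i) 2)
    (hw : ∀ i, WDF (ι (eb i)) u (g i)) :
    ∫⁻ z, ‖v (P z)‖ₑ * ‖u z‖ₑ ^ 2 ≤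
      C * (∫⁻ z, ‖u z‖ₑ ^ 2) + sobC * ε * ∑ i, ∫⁻ z, ‖g i z‖ₑ ^ 2 := by
  refine transfer (X := X) (ρ := fun z => ‖v (P z)‖ₑ) (e := fun i => ι (eb i))
    ((hvm.comp P.continuous.measurable).enorm.aemeasurable) (fun z => enorm_ne_top) hC
    (ENNReal.mul_ne_top ENNReal.coe_ne_top hε) ?_ hu hg hw
  intro w hw hs
  have hm : Measurable fun z => ‖v' (P z)‖ₑ * ‖w z‖ₑ ^ 2 :=
    (hv'.comp P.continuous.measurable).enorm.mul (hw.continuous.enorm.measurable.pow_const 2)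
  calc ∫⁻ z, ‖v (P z)‖ₑ * ‖w z‖ₑ ^ 2
      ≤ ∫⁻ z, (‖v' (P z)‖ₑ * ‖w z‖ₑ ^ 2 + C * ‖w z‖ₑ ^ 2) := by
        refine lintegral_mono fun z => ?_
        rw [← add_mul]
        gcongr
        exact h _
    _ = (∫⁻ z, ‖v' (P z)‖ₑ * ‖w z‖ₑ ^ 2) + C * ∫⁻ z, ‖w z‖ₑ ^ 2 := by
        rw [lintegral_add_left hm, lintegral_const_mul' _ _ hC]
    _ ≤ sobC * N32 v' * (∑ i, ∫⁻ z, ‖fderiv ℝ w z (ι (eb i))‖ₑ ^ 2) + C * ∫⁻ z, ‖w z‖ₑ ^ 2 := by
        gcongr
        exact sob_test P ι hP hv' (hw.of_le (by exact_mod_cast le_top)) hs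
    _ ≤ _ := by
        rw [add_comm]
        gcongr

end gen

/-- a potential in `L^{3/2} + L^∞` is the sum of a small `L^{3/2}` potential and a bounded one -/
theorem xstar_split {v : E3 → ℝ} (hv : XStar v) (hvm : Measurable v) {ε : ℝ} (hε : 0 < ε) :
    ∃ (C : ℝ) (v' : E3 → ℝ), 0 ≤ C ∧ Measurable v' ∧ N32 v' ≤ ENNReal.ofReal ε ∧
      (∀ x, ‖v x‖ₑ ≤ ‖v' x‖ₑ + ENNReal.ofReal C) := by
  obtain ⟨v₁, v₂, hv₁, hv₂, hsum⟩ := hv
  obtain ⟨v₁', hv₁'m, hv₁'⟩ := hv₁.1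
  have hv₁'L : MemLp v₁' (3 / 2 : ℝ≥0∞) := hv₁.ae_eq hv₁'
  obtain ⟨M, hM0, hM⟩ := hv₁'L.eLpNorm_indicator_norm_ge_pos_le hv₁'m (half_pos hε)
  set K : ℝ := (eLpNormEssSup v₂ volume).toReal with hK
  have hK0 : 0 ≤ K := ENNReal.toReal_nonneg
  have hv₂b : ∀ᵐ x, |v₂ x| ≤ K := by
    have h1 := enorm_ae_le_eLpNormEssSup v₂ volume
    have h2 : eLpNormEssSup v₂ volume ≠ ∞ := by
      have := hv₂.2
      rw [eLpNorm_exponent_top] at this
      exact this.ne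
    filter_upwards [h1] with x hx
    have h3 := ENNReal.toReal_mono h2 hx
    simpa using h3
  set L : ℝ := max M K with hL
  refine ⟨L + K, fun x => if L + K < |v x| then v x else 0, by positivity, ?_, ?_, ?_⟩
  · exact Measurable.ite (measurableSet_lt measurable_const hvm.abs) hvm measurable_const
  · have h1 : N32 (fun x => if L + K < |v x| then v x else 0) ≤
        eLpNorm (fun x => (2 : ℝ) • ({x | M ≤ ‖v₁' x‖₊}.indicator v₁' x)) (3 / 2 : ℝ≥0∞)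
          volume := by
      have h2 : (3 / 2 : ℝ≥0∞).toReal = 3 / 2 := by simp
      rw [eLpNorm_eq_lintegral_rpow_enorm_toReal (by norm_num)
        (ENNReal.div_ne_top (by norm_num) (by norm_num)), h2, N32]
      have h3 : (1 / (3 / 2) : ℝ) = 2 / 3 := by norm_num
      rw [h3]
      gcongr 1
      refine lintegral_mono_ae ?_
      filter_upwards [hv₁', hv₂b] with x hx hx2
      gcongr
      rw [← ofReal_norm, ← ofReal_norm]
      refine ENNReal.ofReal_le_ofReal ?_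
      split_ifs with hc
      · have h4 : |v x| ≤ |v₁' x| + K := by
          rw [hsum x, ← hx]
          exact (abs_add_le _ _).trans (by gcongr)
        have h5 : L < |v₁' x| := by linarith
        have h6 : M ≤ ‖v₁' x‖₊ := by
          simp only [coe_nnnorm, Real.norm_eq_abs]
          exact (le_max_left M K).trans h5.le
        rw [Set.indicator_of_mem (show x ∈ {x | M ≤ ‖v₁' x‖₊} from h6), norm_smul,
          Real.norm_eq_abs, Real.norm_eq_abs]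
        have h7 : K ≤ L := le_max_right _ _
        simp only [Real.norm_eq_abs, abs_two]
        linarith
      · simp
    refine h1.trans ?_
    have h2 : (fun x => (2 : ℝ) • ({x | M ≤ ‖v₁' x‖₊}.indicator v₁' x)) =
        (2 : ℝ) • ({x | M ≤ ‖v₁' x‖₊}.indicator v₁') := rfl
    rw [h2, eLpNorm_const_smul]
    calc ‖(2:ℝ)‖ₑ * eLpNorm ({x | M ≤ ‖v₁' x‖₊}.indicator v₁') (3 / 2) volume
        ≤ ‖(2:ℝ)‖ₑ * ENNReal.ofReal (ε / 2) := by gcongr
      _ = ENNReal.ofReal ε := by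
          rw [Real.enorm_of_nonneg (by norm_num), ← ENNReal.ofReal_mul (by norm_num)]
          congr 1
          ring
  · intro x
    beta_reduce
    split_ifs with hc
    · exact le_self_add
    · simp only [enorm_zero, zero_add]
      rw [← ofReal_norm]
      refine ENNReal.ofReal_le_ofReal ?_
      simpa using hc

end Pool.Agent.H773.HK
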