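import Pool.Agent.H773.HK.Slice

/-!
# The abstract resolvent `R = J S⁻¹ J*` (helper773, project HK)
-/

set_option autoImplicit false

noncomputable section

namespace Pool.Agent.H773.HK

open MeasureTheory Filter Topology Set
open scoped ENNReal NNReal ComplexConjugate InnerProductSpace
open Pool.Agent.H998.HK

/-- data of a coercive form -/
structure Frm (H G : Type) [NormedAddCommGroup H] [InnerProductSpace ℂ H] [CompleteSpace H]
    [NormedAddCommGroup G] [InnerProductSpace ℂ G] [CompleteSpace G] where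
  J : G →L[ℂ] H
  S : G →L[ℂ] G
  sa : IsSelfAdjoint S
  c1 : ∀ U, (1 / 2) * ‖U‖ ^ 2 ≤ (inner ℂ (S U) U).re
  c2 : ∀ U, ‖J U‖ ^ 2 ≤ (inner ℂ (S U) U).re
  dense : ∀ k, J.adjoint k = 0 → k = 0

namespace Frm

variable {H G : Type} [NormedAddCommGroup H] [InnerProductSpace ℂ H] [CompleteSpace H]
    [NormedAddCommGroup G] [InnerProductSpace ℂ G] [CompleteSpace G] (Q : Frm H G)

lemma isUnit_S : IsUnit Q.S := by
  refine ContinuousLinearMap.isUnit_of_forall_le_norm_inner_map Q.S (c := 1 / 2) (by norm_num)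
    fun U => ?_
  have h1 := Q.c1 U
  have h2 : (inner ℂ (Q.S U) U).re ≤ ‖inner ℂ (Q.S U) U‖ := Complex.re_le_norm _
  have h3 : ((1 / 2 : ℝ≥0) : ℝ) = 1 / 2 := by push_cast; rfl
  rw [h3]
  linarith

/-- `S⁻¹` -/
def T : G →L[ℂ] G := ((Q.isUnit_S).unit⁻¹ : (G →L[ℂ] G)ˣ)

lemma S_T (U : G) : Q.S (Q.T U) = U := by
  have h1 : Q.S * Q.T = 1 := by
    have := (Q.isUnit_S).unit.mul_inv
    exact this
  have h2 := congrArg (fun A : G →L[ℂ] G => A U) h1
  simpa using h2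

/-- the operator -/
def R : H →L[ℂ] H := Q.J ∘L Q.T ∘L Q.J.adjoint

/-- `S⁻¹ J*` -/
def E (k : H) : G := Q.T (Q.J.adjoint k)

lemma R_apply (k : H) : Q.R k = Q.J (Q.E k) := rfl
lemma S_E (k : H) : Q.S (Q.E k) = Q.J.adjoint k := Q.S_T _

lemma inner_E (k : H) (U : G) : inner ℂ (Q.S (Q.E k)) U = inner ℂ k (Q.J U) := by
  rw [Q.S_E, ContinuousLinearMap.adjoint_inner_left]

lemma S_symm (U V : G) : inner ℂ (Q.S U) V = inner ℂ U (Q.S V) := by
  rw [← ContinuousLinearMap.adjoint_inner_right, Q.sa.adjoint_eq]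

lemma inner_R (k l : H) : inner ℂ (Q.R k) l = inner ℂ (Q.E k) (Q.S (Q.E l)) := by
  rw [R_apply, S_E, ContinuousLinearMap.adjoint_inner_right]

lemma inner_R_re (k : H) : (inner ℂ (Q.R k) k).re = (inner ℂ (Q.S (Q.E k)) (Q.E k)).re := by
  rw [inner_R, ← S_symm]

lemma R_sa : IsSelfAdjoint Q.R := by
  rw [ContinuousLinearMap.isSelfAdjoint_iff_isSymmetric]
  intro k l
  show inner ℂ (Q.R k) l = inner ℂ k (Q.R l)
  rw [inner_R, ← S_symm, ← inner_conj_symm k (Q.R l), inner_R, ← S_symm, inner_conj_symm, S_symm]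

lemma R_sq_le (k : H) : ‖Q.R k‖ ^ 2 ≤ (inner ℂ (Q.R k) k).re := by
  rw [inner_R_re, R_apply]
  exact Q.c2 _

lemma R_norm_le : ‖Q.R‖ ≤ 1 := by
  refine ContinuousLinearMap.opNorm_le_bound _ zero_le_one fun k => ?_
  have h1 := Q.R_sq_le k
  have h2 : (inner ℂ (Q.R k) k).re ≤ ‖Q.R k‖ * ‖k‖ :=
    (Complex.re_le_norm _).trans (norm_inner_le_norm _ _)
  rw [one_mul]
  by_contra hc
  push Not at hc
  nlinarith [norm_nonneg k, norm_nonneg (Q.R k)]

lemma R_pos : Q.R.IsPositive := by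
  rw [ContinuousLinearMap.isPositive_def']
  refine ⟨Q.R_sa, fun k => ?_⟩
  rw [ContinuousLinearMap.reApplyInnerSelf_apply]
  exact (sq_nonneg _).trans (Q.R_sq_le k)

lemma R_good : GoodR Q.R := by
  refine ⟨Q.R_sa, fun r hr => ⟨?_, ?_⟩, ?_⟩
  · have h1 : (0 : H →L[ℂ] H) ≤ Q.R := by
      rw [ContinuousLinearMap.nonneg_iff_isPositive]
      exact Q.R_pos
    exact spectrum_nonneg_of_nonneg h1 hr
  · have h1 : ‖r‖ ≤ ‖Q.R‖ * ‖(1 : H →L[ℂ] H)‖ := spectrum.norm_le_norm_mul_of_mem hr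
    have h2 : ‖(1 : H →L[ℂ] H)‖ ≤ 1 := ContinuousLinearMap.norm_id_le
    have h3 := Q.R_norm_le
    have h4 : r ≤ ‖r‖ := Real.le_norm_self r
    nlinarith [norm_nonneg Q.R, norm_nonneg (1 : H →L[ℂ] H)]
  · rw [injective_iff_map_eq_zero]
    intro k hk
    have h1 : (inner ℂ (Q.S (Q.E k)) (Q.E k)).re = 0 := by
      rw [← inner_R_re, hk, inner_zero_left]
      rfl
    have h2 := Q.c1 (Q.E k)
    have h3 : Q.E k = 0 := by
      rw [← norm_eq_zero]
      nlinarith [norm_nonneg (Q.E k)]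
    apply Q.dense
    rw [← Q.S_E, h3, map_zero]

end Frm

/-! ### Powers of `R` -/

section rpow

variable {H : Type} [NormedAddCommGroup H] [InnerProductSpace ℂ H] [CompleteSpace H]
  {R : H →L[ℂ] H}

lemma rpow_continuous {a : ℝ} (ha : 0 < a) : Continuous fun r : ℝ => r ^ a :=
  Real.continuous_rpow_const ha.le

lemma Rpow_mul (hR : GoodR R) {a b : ℝ} (ha : 0 < a) (hb : 0 < b) :
    Rpow R a * Rpow R b = Rpow R (a + b) := by
  unfold Rpow
  rw [← cfc_mul (fun r : ℝ => r ^ a) (fun r : ℝ => r ^ b) R (rpow_continuous ha).continuousOn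
    (rpow_continuous hb).continuousOn]
  refine cfc_congr fun r hr => ?_
  show r ^ a * r ^ b = r ^ (a + b)
  rw [Real.rpow_add_of_nonneg (hR.spec r hr).1 ha.le hb.le]

lemma Rpow_one (hR : GoodR R) : Rpow R 1 = R := by
  unfold Rpow
  simp only [Real.rpow_one]
  exact cfc_id' ℝ R hR.sa

lemma Rpow_sa (R : H →L[ℂ] H) (a : ℝ) : IsSelfAdjoint (Rpow R a) := cfc_predicate _ _

lemma Rpow_symm (R : H →L[ℂ] H) (a : ℝ) (k l : H) :
    inner ℂ (Rpow R a k) l = inner ℂ k (Rpow R a l) := by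
  rw [← ContinuousLinearMap.adjoint_inner_right, (Rpow_sa R a).adjoint_eq]

lemma Rpow_apply_apply (hR : GoodR R) {a b : ℝ} (ha : 0 < a) (hb : 0 < b) (k : H) :
    Rpow R a (Rpow R b k) = Rpow R (a + b) k := by
  rw [← Rpow_mul hR ha hb]
  rfl

lemma half_half (hR : GoodR R) (k : H) : Rpow R (1 / 2) (Rpow R (1 / 2) k) = R k := by
  rw [Rpow_apply_apply hR (by norm_num) (by norm_num)]
  norm_num [Rpow_one hR]

lemma quarter_quarter (hR : GoodR R) (k : H) :
    Rpow R (1 / 4) (Rpow R (1 / 4) k) = Rpow R (1 / 2) k := by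
  rw [Rpow_apply_apply hR (by norm_num) (by norm_num)]
  norm_num

lemma threeq_quarter (hR : GoodR R) (k : H) :
    Rpow R (3 / 4) (Rpow R (1 / 4) k) = R k := by
  rw [Rpow_apply_apply hR (by norm_num) (by norm_num)]
  norm_num [Rpow_one hR]

lemma half_norm_sq (hR : GoodR R) (k : H) : ‖Rpow R (1 / 2) k‖ ^ 2 = (inner ℂ (R k) k).re := by
  rw [← half_half hR k, Rpow_symm, inner_self_eq_norm_sq_to_K]
  norm_cast

lemma half_injective (hR : GoodR R) : Function.Injective (Rpow R (1 / 2)) := by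
  intro k l hkl
  apply hR.inj
  rw [← half_half hR k, ← half_half hR l, hkl]

lemma half_denseRange (hR : GoodR R) : DenseRange (Rpow R (1 / 2)) := by
  have h1 : ((Rpow R (1 / 2) : H →L[ℂ] H).range).topologicalClosure = ⊤ := by
    rw [Submodule.topologicalClosure_eq_top_iff, Submodule.eq_bot_iff]
    intro x hx
    have h2 : Rpow R (1 / 2) x = 0 := by
      rw [← inner_self_eq_zero (𝕜 := ℂ)]
      rw [Rpow_symm]
      exact (Submodule.mem_orthogonal' _ _).1 hx _ ⟨Rpow R (1 / 2) x, rfl⟩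
    exact half_injective hR (by rw [h2, map_zero])
  rw [denseRange_iff_closure_range]
  have h2 := congrArg (fun K : Submodule ℂ H => (K : Set H)) h1
  rw [Submodule.topologicalClosure_coe] at h2
  exact h2

end rpow

/-- Douglas factorisation -/
lemma douglas {H G : Type} [NormedAddCommGroup H] [InnerProductSpace ℂ H] [CompleteSpace H]
    [NormedAddCommGroup G] [InnerProductSpace ℂ G] [CompleteSpace G] (A : H →L[ℂ] H)
    (hA : Function.Injective A) (hd : DenseRange A) (B : H →L[ℂ] G) (C : ℝ)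
    (hB : ∀ h, ‖B h‖ ≤ C * ‖A h‖) : ∃ K : H →L[ℂ] G, ∀ h, K (A h) = B h := by
  let e : H ≃ₗ[ℂ] (LinearMap.range (A : H →ₗ[ℂ] H)) := LinearEquiv.ofInjective (A : H →ₗ[ℂ] H) hA
  have he : ∀ h, (e h : H) = A h := fun h => rfl
  let f0 : (LinearMap.range (A : H →ₗ[ℂ] H)) →ₗ[ℂ] G := (B : H →ₗ[ℂ] G) ∘ₗ (e.symm : _ →ₗ[ℂ] H)
  have hf0 : ∀ z, ‖f0 z‖ ≤ C * ‖z‖ := by
    intro z
    have h1 : A (e.symm z) = z := by rw [← he, LinearEquiv.apply_symm_apply]
    calc ‖f0 z‖ = ‖B (e.symm z)‖ := rfl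
      _ ≤ C * ‖A (e.symm z)‖ := hB _
      _ = C * ‖z‖ := by rw [h1]; rfl
  let f : (LinearMap.range (A : H →ₗ[ℂ] H)) →L[ℂ] G := f0.mkContinuous C hf0
  have hdr : DenseRange (LinearMap.range (A : H →ₗ[ℂ] H)).subtypeL := by
    rw [DenseRange]
    have : range (LinearMap.range (A : H →ₗ[ℂ] H)).subtypeL = range A := by
      ext z
      simp
    rw [this]
    exact hd
  have hui : IsUniformInducing (LinearMap.range (A : H →ₗ[ℂ] H)).subtypeL :=
    isUniformInducing_val _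
  refine ⟨f.extend (LinearMap.range (A : H →ₗ[ℂ] H)).subtypeL, fun h => ?_⟩
  have h1 := ContinuousLinearMap.extend_eq f hdr hui (e h)
  have h2 : (LinearMap.range (A : H →ₗ[ℂ] H)).subtypeL (e h) = A h := rfl
  rw [h2] at h1
  rw [h1]
  show B (e.symm (e h)) = B h
  rw [LinearEquiv.symm_apply_apply]

namespace Frm

variable {H G : Type} [NormedAddCommGroup H] [InnerProductSpace ℂ H] [CompleteSpace H]
    [NormedAddCommGroup G] [InnerProductSpace ℂ G] [CompleteSpace G] (Q : Frm H G)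

lemma E_norm_sq (k : H) : ‖Q.E k‖ ^ 2 ≤ 2 * ‖Rpow Q.R (1 / 2) k‖ ^ 2 := by
  rw [half_norm_sq Q.R_good, inner_R_re]
  have := Q.c1 (Q.E k)
  linarith

/-- `J = R^{1/2} T'` -/
lemma factor : ∃ T' : G →L[ℂ] H, ∀ U, Q.J U = Rpow Q.R (1 / 2) (T' U) := by
  obtain ⟨K, hK⟩ := douglas (Rpow Q.R (1 / 2)) (half_injective Q.R_good)
    (half_denseRange Q.R_good) Q.J.adjoint (‖Q.S‖ * √2) (fun h => by
      have h1 : ‖Q.E h‖ ≤ √2 * ‖Rpow Q.R (1 / 2) h‖ := by
        have := Q.E_norm_sq h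
        have h2 := Real.sqrt_le_sqrt this
        rwa [Real.sqrt_sq (norm_nonneg _), Real.sqrt_mul (by norm_num),
          Real.sqrt_sq (norm_nonneg _)] at h2
      calc ‖Q.J.adjoint h‖ = ‖Q.S (Q.E h)‖ := by rw [S_E]
        _ ≤ ‖Q.S‖ * ‖Q.E h‖ := Q.S.le_opNorm _
        _ ≤ ‖Q.S‖ * (√2 * ‖Rpow Q.R (1 / 2) h‖) := by gcongr
        _ = _ := by ring)
  refine ⟨K.adjoint, fun U => ?_⟩
  refine ext_inner_left ℂ fun h => ?_
  rw [← Rpow_symm, ContinuousLinearMap.adjoint_inner_right, hK,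
    ContinuousLinearMap.adjoint_inner_left]

/-- the Heinz type bound -/
lemma quarter_bound (M : H →L[ℂ] H) (hM : IsSelfAdjoint M) (C : ℝ) (hC : 0 ≤ C)
    (hbd : ∀ U, ‖M (Q.J U)‖ ≤ C * ‖U‖) (ξ : H) :
    ‖Rpow Q.R (1 / 4) (M (Rpow Q.R (1 / 4) ξ))‖ ≤ √2 * C * ‖ξ‖ := by
  set A : H →L[ℂ] H := Rpow Q.R (1 / 2) with hA
  set B : H →L[ℂ] H := Rpow Q.R (1 / 4) with hB
  have hBsa : IsSelfAdjoint B := Rpow_sa _ _
  have hBB : B * B = A := by
    rw [hB, hA, Rpow_mul Q.R_good (by norm_num) (by norm_num)]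
    norm_num
  -- `‖M A‖ ≤ √2 C`
  have h1 : ∀ h, ‖M (A h)‖ ≤ √2 * C * ‖h‖ := by
    have hcl : IsClosed {h : H | ‖M (A h)‖ ≤ √2 * C * ‖h‖} :=
      isClosed_le ((M.continuous.comp A.continuous).norm) (continuous_const.mul continuous_norm)
    have hsub : range A ⊆ {h : H | ‖M (A h)‖ ≤ √2 * C * ‖h‖} := by
      rintro _ ⟨k, rfl⟩
      show ‖M (A (A k))‖ ≤ √2 * C * ‖A k‖
      have h2 : A (A k) = Q.J (Q.E k) := half_half Q.R_good k
      rw [h2]
      have h3 : ‖Q.E k‖ ≤ √2 * ‖A k‖ := by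
        have := Q.E_norm_sq k
        have h2 := Real.sqrt_le_sqrt this
        rwa [Real.sqrt_sq (norm_nonneg _), Real.sqrt_mul (by norm_num),
          Real.sqrt_sq (norm_nonneg _)] at h2
      calc ‖M (Q.J (Q.E k))‖ ≤ C * ‖Q.E k‖ := hbd _
        _ ≤ C * (√2 * ‖A k‖) := by gcongr
        _ = _ := by ring
    have h4 := (half_denseRange Q.R_good).closure_range
    have h5 : closure (range A) ⊆ {h : H | ‖M (A h)‖ ≤ √2 * C * ‖h‖} :=
      hcl.closure_subset_iff.2 hsub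
    intro h
    have h6 : h ∈ closure (range A) := by rw [hA, h4]; trivial
    exact h5 h6
  have h2 : ‖M * A‖ ≤ √2 * C := ContinuousLinearMap.opNorm_le_bound _ (by positivity) h1
  -- the norm of `B M B` is its spectral radius
  have hsa : IsSelfAdjoint (B * (M * B)) := by
    have := hM.conjugate B
    rw [hBsa.star_eq, mul_assoc] at this
    exact this
  have h3 : ‖B * (M * B)‖ ≤ √2 * C := by
    have h4 := hsa.spectralRadius_eq_nnnorm
    have h5 : spectralRadius ℂ (B * (M * B)) ≤ ENNReal.ofReal (√2 * C) := by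
      refine iSup₂_le fun z hz => ?_
      by_cases hz0 : z = 0
      · simp [hz0]
      · have h6 : z ∈ spectrum ℂ ((M * B) * B) \ {0} := by
          rw [← spectrum.nonzero_mul_comm]
          exact ⟨hz, hz0⟩
        have h7 : ‖z‖ ≤ ‖(M * B) * B‖ * ‖(1 : H →L[ℂ] H)‖ := spectrum.norm_le_norm_mul_of_mem h6.1
        have h8 : ‖(1 : H →L[ℂ] H)‖ ≤ 1 := ContinuousLinearMap.norm_id_le
        rw [mul_assoc, hBB] at h7
        have h9 : ‖z‖ ≤ √2 * C := by
          nlinarith [norm_nonneg (M * A), norm_nonneg (1 : H →L[ℂ] H)]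
        rw [← enorm_eq_nnnorm, ← ofReal_norm]
        exact ENNReal.ofReal_le_ofReal h9
    rw [h4, ← enorm_eq_nnnorm, ← ofReal_norm] at h5
    exact (ENNReal.ofReal_le_ofReal_iff (by positivity)).1 h5
  calc ‖B (M (B ξ))‖ = ‖(B * (M * B)) ξ‖ := rfl
    _ ≤ ‖B * (M * B)‖ * ‖ξ‖ := ContinuousLinearMap.le_opNorm _ _
    _ ≤ √2 * C * ‖ξ‖ := by gcongr

end Frm

end Pool.Agent.H773.HK
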