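import Pool.Agent.H773.HK.Tensor

/-!
# Slices of a Sobolev function of `n + 1` particles (helper773, project HK)
-/

set_option autoImplicit false

noncomputable section

namespace Pool.Agent.H773.HK

open MeasureTheory Filter Topology Set
open scoped ENNReal NNReal ComplexConjugate InnerProductSpace
open Pool.Agent.H998.HK

/-! ### Integrability -/

lemma int_norm_sq {α : Type*} [MeasurableSpace α] {μ : Measure α} {F : Type*}
    [NormedAddCommGroup F] {a : α → F} (ha : MemLp a 2 μ) : Integrable (fun z => ‖a z‖ ^ 2) μ :=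
  (memLp_two_iff_integrable_sq_norm ha.1).1 ha

lemma int_conj_mul {α : Type*} [MeasurableSpace α] {μ : Measure α} {a b : α → ℂ}
    (ha : MemLp a 2 μ) (hb : MemLp b 2 μ) : Integrable (fun z => conj (a z) * b z) μ := by
  refine ((int_norm_sq ha).add (int_norm_sq hb)).mono
    ((Complex.continuous_conj.comp_aestronglyMeasurable ha.1).mul hb.1) (ae_of_all _ fun z => ?_)
  simp only [norm_mul, Pi.add_apply, RCLike.norm_conj]
  rw [Real.norm_of_nonneg (by positivity)]
  nlinarith [sq_nonneg (‖a z‖ - ‖b z‖), norm_nonneg (a z), norm_nonneg (b z)]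

lemma pot_measurable (n : ℕ) {v : E3 → ℝ} (hvm : Measurable v) : Measurable (pot n v) := by
  have h1 : Measurable fun z : Xn n => v z.1 := hvm.comp measurable_fst
  have h2 : Measurable fun z : Xn n => vY n v z.2 := (vY_measurable n hvm).comp measurable_snd
  have h3 : Measurable fun z : Xn n => cY n z.2 := (cY_measurable n).comp measurable_snd
  exact ((h1.add h2).add (wY_measurable n)).add h3

/-- weighted products are integrable -/
lemma int_weight {α : Type*} [MeasurableSpace α] {μ : Measure α} {ρ : α → ℝ}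
    (hρ : AEStronglyMeasurable ρ μ) {a b : α → ℂ} (ha : AEStronglyMeasurable a μ)
    (hb : AEStronglyMeasurable b μ) (hia : Integrable (fun z => |ρ z| * ‖a z‖ ^ 2) μ)
    (hib : Integrable (fun z => |ρ z| * ‖b z‖ ^ 2) μ) :
    Integrable (fun z => (ρ z : ℂ) * (conj (a z) * b z)) μ := by
  refine (hia.add hib).mono ((Complex.continuous_ofReal.comp_aestronglyMeasurable hρ).mul
    ((Complex.continuous_conj.comp_aestronglyMeasurable ha).mul hb)) (ae_of_all _ fun z => ?_)
  simp only [norm_mul, Pi.add_apply, RCLike.norm_conj, Complex.norm_real, Real.norm_eq_abs]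
  rw [abs_of_nonneg (a := |ρ z| * ‖a z‖ ^ 2 + |ρ z| * ‖b z‖ ^ 2) (by positivity), ← mul_add]
  gcongr
  nlinarith [sq_nonneg (‖a z‖ - ‖b z‖), norm_nonneg (a z), norm_nonneg (b z)]

/-! ### The slices in the Sobolev space -/

section

variable {n : ℕ} {f : Xn n → ℂ} {Dx : Fin 3 → Xn n → ℂ} {Dy : Fin n → Fin 3 → Xn n → ℂ}

/-- components of the slice -/
def cmpS (n : ℕ) (f : Xn n → ℂ) (Dy : Fin n → Fin 3 → Xn n → ℂ) (x : E3) (p : Idx n) : Hn n :=
  match p with
  | none => slc volume f x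
  | some p => slc volume (Dy p.1 p.2) x

/-- the slice -/
def Uf (n : ℕ) (f : Xn n → ℂ) (Dy : Fin n → Fin 3 → Xn n → ℂ) (x : E3) : Big n :=
  WithLp.toLp 2 (cmpS n f Dy x)

/-- the slice, projected onto the Sobolev space -/
def Us (n : ℕ) (f : Xn n → ℂ) (Dy : Fin n → Fin 3 → Xn n → ℂ) (x : E3) : Gs n :=
  (sob n).orthogonalProjectionOnto (Uf n f Dy x)

lemma cmpS_memLp (hf : H1 n f Dx Dy) (p : Idx n) : MemLp (fun x => cmpS n f Dy x p) 2 := by
  cases p with
  | none => exact slc_memLp (μ := (volume : Measure E3)) (ν := (volume : Measure (Yn n))) hf.f2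
  | some p =>
    exact slc_memLp (μ := (volume : Measure E3)) (ν := (volume : Measure (Yn n))) (hf.y2 p.1 p.2)

lemma Uf_memLp (hf : H1 n f Dx Dy) : MemLp (Uf n f Dy) 2 := by
  have h1 : Uf n f Dy = fun x => ∑ p : Idx n,
      (WithLp.toLp 2 (Pi.single p (cmpS n f Dy x p)) : Big n) := by
    ext1 x
    have h2 : ∑ p : Idx n, (Pi.single p (cmpS n f Dy x p) : Idx n → Hn n) = cmpS n f Dy x :=
      Finset.univ_sum_single _
    conv_lhs => rw [Uf, ← h2, WithLp.toLp_sum]
  rw [h1]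
  refine memLp_finsetSum _ fun p _ => ?_
  have hc0 : Continuous fun h : Hn n => (Pi.single p h : Idx n → Hn n) :=
    continuous_pi fun q => by
      by_cases hq : q = p
      · subst hq
        simp only [Pi.single_eq_same]
        exact continuous_id
      · simp only [Pi.single_eq_of_ne hq]
        exact continuous_const
  have hc : Continuous fun h : Hn n => (WithLp.toLp 2 (Pi.single p h : Idx n → Hn n) : Big n) :=
    (PiLp.continuous_toLp 2 _).comp hc0
  refine MemLp.of_le (cmpS_memLp hf p) (hc.comp_aestronglyMeasurable (cmpS_memLp hf p).1)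
    (ae_of_all _ fun x => ?_)
  exact le_of_eq (PiLp.norm_toLp_single 2 _ p _)

lemma Us_memLp (hf : H1 n f Dx Dy) : MemLp (Us n f Dy) 2 :=
  (sob n).orthogonalProjectionOnto.comp_memLp' (Uf_memLp hf)

lemma Us_ae (hf : H1 n f Dx Dy) : ∀ᵐ x, (Us n f Dy x : Big n) = Uf n f Dy x := by
  have h1 : ∀ᵐ x : E3, ∀ p : Fin n × Fin 3, WDF (eY n p.1 p.2) (slc volume f x : Yn n → ℂ)
      (slc volume (Dy p.1 p.2) x : Yn n → ℂ) := by
    rw [ae_all_iff]
    exact fun p => wdf_slc hf.f2 (hf.y2 p.1 p.2) (hf.wy p.1 p.2)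
  filter_upwards [h1] with x hx
  have h2 : Uf n f Dy x ∈ sob n := mem_sob.2 hx
  have h3 := (sob n).orthogonalProjectionOnto_mem_subspace_eq_self ⟨Uf n f Dy x, h2⟩
  exact congrArg Subtype.val h3

lemma co_Us_ae (hf : H1 n f Dx Dy) : ∀ᵐ x, co n none (Us n f Dy x) = slc volume f x ∧
    ∀ j i, co n (some (j, i)) (Us n f Dy x) = slc volume (Dy j i) x := by
  filter_upwards [Us_ae hf] with x hx
  have h1 : ∀ p, co n p (Us n f Dy x) = cmpS n f Dy x p := fun p => by
    rw [co_apply, hx]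
    rfl
  exact ⟨h1 none, fun j i => h1 (some (j, i))⟩

/-- the coupled function is in `L²` -/
lemma wf_memLp (hf : H1 n f Dx Dy) : MemLp (fun z : Xn n => wY n z.1 z.2 • f z) 2 := by
  refine memLp_two_iff.2 ⟨(wY_measurable n).aestronglyMeasurable.smul hf.f2.1, ?_⟩
  have h1 : ∀ j, ∫⁻ z : Xn n, ENNReal.ofReal (1 / ‖z.1 - z.2 j‖ ^ 2) * ‖f z‖ₑ ^ 2 ≠ ∞ := fun j => by
    have h2 := hardy (X := Xn n) (PX n - PXY n j) (fun i => ex n i) (fun i => by
      simp [PX, PXY, PY, ex]) 0 hf.f2 hf.x2 (fun i => hf.wx i)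
    simp only [sub_zero] at h2
    refine ne_top_of_le_ne_top ?_ h2
    exact ENNReal.mul_ne_top (by norm_num) (ENNReal.sum_ne_top.2 fun i _ =>
      (memLp_two_iff.1 (hf.x2 i)).2)
  have hsq : ∀ z : Xn n, ‖wY n z.1 z.2‖ₑ ^ 2 ≤
      n * ∑ j, ENNReal.ofReal (1 / ‖z.1 - z.2 j‖ ^ 2) := by
    intro z
    have h2 : wY n z.1 z.2 ^ 2 ≤ n * ∑ j, 1 / ‖z.1 - z.2 j‖ ^ 2 := by
      have h3 := sq_sum_le_card_mul_sum_sq (s := (Finset.univ : Finset (Fin n)))
        (f := fun j => 1 / ‖z.1 - z.2 j‖)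
      have h4 : ∀ j, 1 / ‖z.1 - z.2 j‖ ^ 2 = (1 / ‖z.1 - z.2 j‖) ^ 2 := fun j => by
        rw [div_pow, one_pow]
      simp only [h4]
      simpa [wY] using h3
    have h3 := ENNReal.ofReal_le_ofReal h2
    rw [ENNReal.ofReal_mul (by positivity), ENNReal.ofReal_natCast,
      ENNReal.ofReal_sum_of_nonneg (fun j _ => by positivity),
      ENNReal.ofReal_pow (wY_nonneg n _ _)] at h3
    rwa [Real.enorm_of_nonneg (wY_nonneg n _ _)]
  have hm : ∀ j, AEMeasurable (fun z : Xn n =>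
      ENNReal.ofReal (1 / ‖z.1 - z.2 j‖ ^ 2) * ‖f z‖ₑ ^ 2) volume := fun j => by
    refine AEMeasurable.mul ?_ (hf.f2.1.enorm.pow_const 2)
    have h1 : Measurable fun z : Xn n => z.2 j := (measurable_pi_apply j).comp measurable_snd
    exact (ENNReal.measurable_ofReal.comp (measurable_const.div
      ((measurable_fst.sub h1).norm.pow_const 2))).aemeasurable
  refine ne_top_of_le_ne_top (b := n * ∑ j, ∫⁻ z : Xn n,
    ENNReal.ofReal (1 / ‖z.1 - z.2 j‖ ^ 2) * ‖f z‖ₑ ^ 2) ?_ ?_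
  · exact ENNReal.mul_ne_top (ENNReal.natCast_ne_top n) (ENNReal.sum_ne_top.2 fun j _ => h1 j)
  · rw [← lintegral_finsetSum' _ fun j _ => hm j, ← lintegral_const_mul' _ _ (ENNReal.natCast_ne_top n)]
    refine lintegral_mono fun z => ?_
    rw [enorm_smul, mul_pow, ← Finset.sum_mul, ← mul_assoc]
    gcongr
    exact hsq z

end

end Pool.Agent.H773.HK
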