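import Pool.Agent.H773.HK.Conc1

/-!
# The form on the slices (helper773, project HK)
-/

set_option autoImplicit false

noncomputable section

namespace Pool.Agent.H773.HK

open MeasureTheory Filter Topology Set
open scoped ENNReal NNReal ComplexConjugate InnerProductSpace
open Pool.Agent.H998.HK

lemma inner_eq {n : ℕ} (a b : Hn n) : inner ℂ a b = ∫ y, conj (a y) * b y := by
  rw [L2.inner_def]
  refine integral_congr_ae (ae_of_all _ fun y => ?_)
  simp [RCLike.inner_apply, mul_comm]

lemma int_co {n : ℕ} (a b : Hn n) : Integrable fun y => conj (a y) * b y :=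
  int_conj_mul (Lp.memLp a) (Lp.memLp b)

/-- the form integrand on a slice -/
def sliceInt (n : ℕ) (v : E3 → ℝ) (E : ℝ) (x : E3) (ph : ℝ) (dph : Fin 3 → ℝ) (K : Gs n)
    (Kx : Fin 3 → Hn n) (U : Gs n) (D : Fin 3 → Hn n) (y : Yn n) : ℂ :=
  (1 / 2 : ℂ) * (∑ i, conj (ph • Kx i y + dph i • co n none K y) * D i y +
    ∑ j, ∑ i, conj (ph • co n (some (j, i)) K y) * co n (some (j, i)) U y) +
  ((pot n v (x, y) - E : ℝ) : ℂ) * (conj (ph • co n none K y) * co n none U y)

lemma integral_sliceInt (n : ℕ) (v : E3 → ℝ) (E : ℝ) (x : E3) (ph : ℝ) (dph : Fin 3 → ℝ)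
    (K : Gs n) (Kx : Fin 3 → Hn n) (U : Gs n) (D : Fin 3 → Hn n) (w : Hn n)
    (hw : (w : Yn n → ℂ) =ᵐ[volume] fun y => wY n x y • co n none U y)
    (hp : Integrable fun y => (pY n v y : ℂ) * (conj (co n none K y) * co n none U y)) :
    ∫ y, sliceInt n v E x ph dph K Kx U D y =
      (1 / 2 : ℂ) * ∑ i, (ph * inner ℂ (Kx i) (D i) + dph i * inner ℂ (co n none K) (D i)) +
      (ph / 2 : ℂ) * ∑ p : Fin n × Fin 3, inner ℂ (co n (some p) K) (co n (some p) U) +
      ph * (((v x - E : ℝ) : ℂ) * inner ℂ (co n none K) (co n none U) +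
        (∫ y, (pY n v y : ℂ) * (conj (co n none K y) * co n none U y)) +
        inner ℂ (co n none K) w) := by
  set A : Fin 3 → Yn n → ℂ := fun i y => conj (Kx i y) * D i y with hA
  set B : Fin 3 → Yn n → ℂ := fun i y => conj (co n none K y) * D i y with hB
  set C : Fin n × Fin 3 → Yn n → ℂ := fun p y =>
    conj (co n (some p) K y) * co n (some p) U y with hC
  set G : Yn n → ℂ := fun y => conj (co n none K y) * co n none U y with hG
  set P : Yn n → ℂ := fun y => (pY n v y : ℂ) * (conj (co n none K y) * co n none U y) with hP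
  set W : Yn n → ℂ := fun y => conj (co n none K y) * w y with hW
  have hAi : ∀ i, Integrable (A i) := fun i => int_co _ _
  have hBi : ∀ i, Integrable (B i) := fun i => int_co _ _
  have hCi : ∀ p, Integrable (C p) := fun p => int_co _ _
  have hGi : Integrable G := int_co _ _
  have hWi : Integrable W := int_co _ _
  have hF : sliceInt n v E x ph dph K Kx U D =ᵐ[volume] fun y =>
      (∑ i, ((ph / 2 : ℂ) * A i y + (dph i / 2 : ℂ) * B i y)) +
      (∑ p, (ph / 2 : ℂ) * C p y) + (ph * ((v x - E : ℝ) : ℂ)) * G y + ph * P y + ph * W y := by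
    filter_upwards [hw] with y hy
    simp only [sliceInt, hA, hB, hC, hG, hP, hW, hy, pot_eq, pY, Fintype.sum_prod_type]
    have e1 : ∑ i, conj (ph • Kx i y + dph i • co n none K y) * D i y =
        2 * ∑ i, ((ph / 2 : ℂ) * (conj (Kx i y) * D i y) +
          (dph i / 2 : ℂ) * (conj (co n none K y) * D i y)) := by
      rw [Finset.mul_sum]
      refine Finset.sum_congr rfl fun i _ => ?_
      simp only [map_add, Complex.real_smul, map_mul, Complex.conj_ofReal]
      ring
    have e2 : ∑ j, ∑ i, conj (ph • co n (some (j, i)) K y) * co n (some (j, i)) U y =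
        2 * ∑ j, ∑ i, (ph / 2 : ℂ) * (conj (co n (some (j, i)) K y) *
          co n (some (j, i)) U y) := by
      rw [Finset.mul_sum]
      refine Finset.sum_congr rfl fun j _ => ?_
      rw [Finset.mul_sum]
      refine Finset.sum_congr rfl fun i _ => ?_
      simp only [Complex.real_smul, map_mul, Complex.conj_ofReal]
      ring
    rw [e1, e2]
    simp only [Complex.real_smul, map_mul, Complex.conj_ofReal]
    push_cast
    ring
  rw [integral_congr_ae hF]
  have i1 : ∀ i, Integrable fun y => (ph / 2 : ℂ) * A i y := fun i => (hAi i).const_mul _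
  have i2 : ∀ i, Integrable fun y => (dph i / 2 : ℂ) * B i y := fun i => (hBi i).const_mul _
  have i12 : ∀ i ∈ Finset.univ, Integrable fun y => (ph / 2 : ℂ) * A i y +
    (dph i / 2 : ℂ) * B i y := fun i _ => (i1 i).add (i2 i)
  have i3 : ∀ p ∈ Finset.univ, Integrable fun y => (ph / 2 : ℂ) * C p y := fun p _ =>
    (hCi p).const_mul _
  have j1 : Integrable fun y => ∑ i, ((ph / 2 : ℂ) * A i y + (dph i / 2 : ℂ) * B i y) :=
    integrable_finsetSum _ i12
  have j3 : Integrable fun y => ∑ p, (ph / 2 : ℂ) * C p y := integrable_finsetSum _ i3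
  have j4 : Integrable fun y => (ph * ((v x - E : ℝ) : ℂ)) * G y := hGi.const_mul _
  have j5 : Integrable fun y => (ph : ℂ) * P y := hp.const_mul _
  have j6 : Integrable fun y => (ph : ℂ) * W y := hWi.const_mul _
  have k3 : Integrable fun y => (∑ i, ((ph / 2 : ℂ) * A i y + (dph i / 2 : ℂ) * B i y)) +
      (∑ p, (ph / 2 : ℂ) * C p y) := j1.add j3
  have k4 : Integrable fun y => (∑ i, ((ph / 2 : ℂ) * A i y + (dph i / 2 : ℂ) * B i y)) +
      (∑ p, (ph / 2 : ℂ) * C p y) + (ph * ((v x - E : ℝ) : ℂ)) * G y := k3.add j4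
  have k5 : Integrable fun y => (∑ i, ((ph / 2 : ℂ) * A i y + (dph i / 2 : ℂ) * B i y)) +
      (∑ p, (ph / 2 : ℂ) * C p y) + (ph * ((v x - E : ℝ) : ℂ)) * G y + ph * P y := k4.add j5
  rw [integral_add k5 j6, integral_add k4 j5, integral_add k3 j4, integral_add j1 j3,
    integral_finsetSum _ i12, integral_finsetSum _ i3]
  simp only [integral_const_mul]
  have l1 : ∀ i, ∫ y, ((ph / 2 : ℂ) * A i y + (dph i / 2 : ℂ) * B i y) =
      (ph / 2 : ℂ) * inner ℂ (Kx i) (D i) + (dph i / 2 : ℂ) * inner ℂ (co n none K) (D i) := by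
    intro i
    rw [integral_add (i1 i) (i2 i), integral_const_mul, integral_const_mul, inner_eq, inner_eq]
  simp only [l1]
  have l2 : ∀ p, ∫ y, C p y = inner ℂ (co n (some p) K) (co n (some p) U) := fun p =>
    (inner_eq _ _).symm
  have l3 : ∫ y, G y = inner ℂ (co n none K) (co n none U) := (inner_eq _ _).symm
  have l4 : ∫ y, W y = inner ℂ (co n none K) w := (inner_eq _ _).symm
  simp only [l2]
  have l5 : ∀ i, (ph / 2 : ℂ) * inner ℂ (Kx i) (D i) + (dph i / 2 : ℂ) *
      inner ℂ (co n none K) (D i) =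
      (1 / 2 : ℂ) * (ph * inner ℂ (Kx i) (D i) + dph i * inner ℂ (co n none K) (D i)) :=
    fun i => by ring
  rw [l3, l4]
  simp only [l5, ← Finset.mul_sum]
  ring

end Pool.Agent.H773.HK
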