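import Pool.Agent.H773.HK.Conc2

/-!
# Task CONC, preparations (helper773, project HK)
-/

set_option autoImplicit false

noncomputable section

namespace Pool.Agent.H773.HK

open MeasureTheory Filter Topology Set
open scoped ENNReal NNReal ComplexConjugate InnerProductSpace
open Pool.Agent.H998.HK


/-! ### smallness of the potential on small balls -/

lemma volume_closedBall_tendsto :
    Tendsto (fun r : ℝ => (volume (Metric.closedBall (0 : E3) r)) ^ (2 / 3 : ℝ)) (𝓝[>] 0)
      (𝓝 0) := by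
  have h1 : Tendsto (fun r : ℝ => volume (Metric.closedBall (0 : E3) r)) (𝓝[>] 0) (𝓝 0) := by
    have h2 : (fun r : ℝ => volume (Metric.closedBall (0 : E3) r)) =ᶠ[𝓝[>] 0] fun r =>
        ENNReal.ofReal (r ^ 3) * volume (Metric.closedBall (0 : E3) 1) := by
      filter_upwards [self_mem_nhdsWithin] with r hr
      have := Measure.addHaar_closedBall' (volume : Measure E3) 0 (le_of_lt hr)
      simpa using this
    refine Tendsto.congr' h2.symm ?_
    have h3 : Tendsto (fun r : ℝ => ENNReal.ofReal (r ^ 3)) (𝓝[>] 0) (𝓝 0) := by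
      have h4 : Tendsto (fun r : ℝ => r ^ 3) (𝓝[>] 0) (𝓝 0) := by
        have : Tendsto (fun r : ℝ => r ^ 3) (𝓝 0) (𝓝 (0 ^ 3)) :=
          (continuous_pow 3).tendsto 0
        simpa using this.mono_left nhdsWithin_le_nhds
      simpa using ENNReal.tendsto_ofReal h4
    have h5 := ENNReal.Tendsto.mul_const (b := volume (Metric.closedBall (0 : E3) 1)) h3
      (Or.inr (isCompact_closedBall _ _).measure_ne_top)
    simpa using h5
  have h2 := ((ENNReal.continuous_rpow_const (y := (2 / 3 : ℝ))).tendsto (0 : ℝ≥0∞)).comp h1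
  rw [ENNReal.zero_rpow_of_pos (by norm_num)] at h2
  exact h2

lemma unifSmall {v : E3 → ℝ} (hv : XStar v) (hvm : Measurable v) (a : ℝ) :
    UnifSmall (fun x => a - 2 * v x) := by
  intro ε hε
  obtain ⟨C, v', hC0, hv', hN, hle⟩ := xstar_split hv hvm (show (0:ℝ) < ε / 4 by positivity)
  set L : ℝ := |a| + 2 * C with hL
  have hL0 : 0 ≤ L := by positivity
  have h1 : Tendsto (fun r : ℝ => ENNReal.ofReal L *
      (volume (Metric.closedBall (0 : E3) r)) ^ (2 / 3 : ℝ)) (𝓝[>] 0) (𝓝 0) := by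
    have := ENNReal.Tendsto.const_mul (a := ENNReal.ofReal L) volume_closedBall_tendsto
      (Or.inr ENNReal.ofReal_ne_top)
    simpa using this
  have h2 : ∀ᶠ r : ℝ in 𝓝[>] 0, ENNReal.ofReal L *
      (volume (Metric.closedBall (0 : E3) r)) ^ (2 / 3 : ℝ) ≤ ENNReal.ofReal (ε / 2) :=
    h1.eventually_le_const (ENNReal.ofReal_pos.2 (by positivity))
  obtain ⟨r, hr, hr0⟩ := (h2.and self_mem_nhdsWithin).exists
  refine ⟨r, hr0, fun x => ?_⟩
  set B := Metric.closedBall x r with hB
  have hvol : volume B = volume (Metric.closedBall (0 : E3) r) :=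
    Measure.addHaar_closedBall_center _ _ _
  have e1 : ∀ w : E3 → ℝ, (∫⁻ y in B, ENNReal.ofReal (|w y| ^ (3 / 2 : ℝ))) ^ (2 / 3 : ℝ) =
      eLpNorm w (3 / 2 : ℝ≥0∞) (volume.restrict B) := by
    intro w
    rw [eLpNorm_eq_lintegral_rpow_enorm_toReal (by norm_num)
        (ENNReal.div_ne_top (by norm_num) (by norm_num))]
    have h2 : (3 / 2 : ℝ≥0∞).toReal = 3 / 2 := by simp
    rw [h2]
    have h3 : (1 / (3 / 2) : ℝ) = 2 / 3 := by norm_num
    rw [h3]
    congr 1
    refine lintegral_congr fun y => ?_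
    rw [← ofReal_norm, Real.norm_eq_abs, ENNReal.ofReal_rpow_of_nonneg (abs_nonneg _) (by norm_num)]
  rw [e1]
  have h3 : eLpNorm (fun x => a - 2 * v x) (3 / 2 : ℝ≥0∞) (volume.restrict B) ≤
      eLpNorm (fun x => ((2 : ℝ) • fun x => |v' x|) x + L) (3 / 2 : ℝ≥0∞) (volume.restrict B) := by
    refine eLpNorm_mono fun y => ?_
    have h4 : |v y| ≤ |v' y| + C := by
      have := hle y
      rw [← ofReal_norm, ← ofReal_norm, ← ENNReal.ofReal_add (norm_nonneg _) hC0,
        ENNReal.ofReal_le_ofReal_iff (by positivity)] at this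
      exact this
    simp only [Pi.smul_apply, smul_eq_mul]
    rw [Real.norm_of_nonneg (r := 2 * |v' y| + L) (by positivity)]
    calc ‖a - 2 * v y‖ ≤ |a| + |2 * v y| := by
          rw [Real.norm_eq_abs]
          exact abs_sub _ _
      _ ≤ _ := by
          rw [abs_mul, abs_two]
          linarith
  have h4 : eLpNorm (fun x => ((2 : ℝ) • fun x => |v' x|) x + L) (3 / 2 : ℝ≥0∞)
      (volume.restrict B) ≤
      eLpNorm ((2 : ℝ) • fun x => |v' x|) (3 / 2 : ℝ≥0∞) (volume.restrict B) +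
      eLpNorm (fun _ => L) (3 / 2 : ℝ≥0∞) (volume.restrict B) := by
    refine eLpNorm_add_le ?_ aestronglyMeasurable_const ?_
    · exact (hv'.abs.aestronglyMeasurable).const_smul (2 : ℝ)
    · rw [ENNReal.le_div_iff_mul_le (Or.inl (by norm_num)) (Or.inl (by norm_num))]
      norm_num
  have h5 : eLpNorm ((2 : ℝ) • fun x => |v' x|) (3 / 2 : ℝ≥0∞) (volume.restrict B) ≤
      ENNReal.ofReal (ε / 2) := by
    rw [eLpNorm_const_smul]
    have h6 : eLpNorm (fun x => |v' x|) (3 / 2 : ℝ≥0∞) (volume.restrict B) ≤ N32 v' := by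
      refine (eLpNorm_mono_measure _ Measure.restrict_le_self).trans ?_
      rw [eLpNorm_eq_lintegral_rpow_enorm_toReal (by norm_num)
        (ENNReal.div_ne_top (by norm_num) (by norm_num))]
      have h2 : (3 / 2 : ℝ≥0∞).toReal = 3 / 2 := by simp
      rw [h2]
      have h3 : (1 / (3 / 2) : ℝ) = 2 / 3 := by norm_num
      rw [h3, N32]
      simp only [Real.enorm_abs]
      exact le_rfl
    calc ‖(2:ℝ)‖ₑ * eLpNorm (fun x => |v' x|) (3 / 2 : ℝ≥0∞) (volume.restrict B)
        ≤ ‖(2:ℝ)‖ₑ * ENNReal.ofReal (ε / 4) := by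
          gcongr
          exact h6.trans hN
      _ = ENNReal.ofReal (ε / 2) := by
          rw [Real.enorm_of_nonneg (by norm_num), ← ENNReal.ofReal_mul (by norm_num)]
          congr 1
          ring
  have h6 : eLpNorm (fun _ : E3 => L) (3 / 2 : ℝ≥0∞) (volume.restrict B) ≤
      ENNReal.ofReal (ε / 2) := by
    rw [eLpNorm_const' _ (by norm_num) (ENNReal.div_ne_top (by norm_num) (by norm_num))]
    have h2 : (3 / 2 : ℝ≥0∞).toReal = 3 / 2 := by simp
    rw [h2, Measure.restrict_apply_univ, hvol]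
    have h3 : (1 / (3 / 2) : ℝ) = 2 / 3 := by norm_num
    rw [h3, Real.enorm_of_nonneg hL0]
    exact hr
  calc eLpNorm (fun x => a - 2 * v x) (3 / 2 : ℝ≥0∞) (volume.restrict B)
      ≤ ENNReal.ofReal (ε / 2) + ENNReal.ofReal (ε / 2) := (h3.trans h4).trans (add_le_add h5 h6)
    _ = ENNReal.ofReal ε := by
        rw [← ENNReal.ofReal_add (by positivity) (by positivity)]
        congr 1
        ring

/-! ### local integrability of the potential -/

lemma xstar_locallyIntegrable {v : E3 → ℝ} (hv : XStar v) : LocallyIntegrable v := by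
  obtain ⟨v₁, v₂, hv₁, hv₂, hsum⟩ := hv
  have h1 : LocallyIntegrable v₁ := hv₁.locallyIntegrable (by
    rw [ENNReal.le_div_iff_mul_le (Or.inl (by norm_num)) (Or.inl (by norm_num))]
    norm_num)
  have h2 : LocallyIntegrable v₂ := hv₂.locallyIntegrable (by simp)
  have h3 : v = v₁ + v₂ := funext hsum
  rw [h3]
  exact h1.add h2

/-! ### density -/

lemma eq_zero_of_vec {n : ℕ} (k : Hn n) (h : ∀ (β : Yn n → ℝ) (hβ : Test β),
    inner ℂ (vec β hβ) k = 0) : k = 0 := by
  have h2 : ∀ᵐ y : Yn n, k y = 0 := by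
    refine ae_eq_zero_of_integral_contDiff_smul_eq_zero
      ((Lp.memLp k).locallyIntegrable (by norm_num)) fun φ hφ hφs => ?_
    rw [integral_smul_eq_inner ⟨hφ, hφs⟩]
    exact h φ ⟨hφ, hφs⟩
  exact (Lp.eq_zero_iff_ae_eq_zero).2 h2

lemma inner_rsmul {H : Type} [NormedAddCommGroup H] [InnerProductSpace ℂ H] (k a : H) (r : ℝ) :
    inner ℂ k (r • a) = r * inner ℂ k a := by
  rw [← Complex.coe_smul, inner_smul_right]

/-! ### the weak gradient of the slices -/

lemma int_smul_test {H : Type} [NormedAddCommGroup H] [NormedSpace ℝ H] {φ : E3 → ℝ} (hφ : Test φ)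
    {u : E3 → H} (hu : MemLp u 2) : Integrable fun x => φ x • u x :=
  integrable_smul_of_compact hφ.1.continuous hφ.2 hu

lemma weakGrad_of_inner {H : Type} [NormedAddCommGroup H] [InnerProductSpace ℂ H]
    [CompleteSpace H] {u : E3 → H} {D : Fin 3 → E3 → H} (hu : MemLp u 2)
    (hD : ∀ i, MemLp (D i) 2) (K : Set H) (hK : ∀ k : H, (∀ h ∈ K, inner ℂ h k = 0) → k = 0)
    (hw : ∀ h ∈ K, ∀ i, ∀ φ : E3 → ℝ, Test φ →
      ∫ x, (pd i φ x : ℂ) * inner ℂ h (u x) = -∫ x, (φ x : ℂ) * inner ℂ h (D i x)) :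
    WeakGrad u D := by
  intro i φ hφ
  have hpd : Test (pd i φ) := test_fderiv hφ _
  have hi1 : Integrable fun x => pd i φ x • u x := int_smul_test hpd hu
  have hi2 : Integrable fun x => φ x • D i x := int_smul_test hφ (hD i)
  rw [← sub_eq_zero, sub_neg_eq_add]
  refine hK _ fun h hh => ?_
  rw [inner_add_right]
  have e1 : inner ℂ h (∫ x, pd i φ x • u x) = ∫ x, inner ℂ h (pd i φ x • u x) :=
    (ContinuousLinearMap.integral_comp_comm (innerSL ℂ h) hi1).symm
  have e2 : inner ℂ h (∫ x, φ x • D i x) = ∫ x, inner ℂ h (φ x • D i x) :=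
    (ContinuousLinearMap.integral_comp_comm (innerSL ℂ h) hi2).symm
  rw [e1, e2]
  simp only [inner_rsmul]
  rw [hw h hh i φ hφ]
  simp

theorem weakGrad_slc {n : ℕ} {f : Xn n → ℂ} {Dx : Fin 3 → Xn n → ℂ}
    {Dy : Fin n → Fin 3 → Xn n → ℂ} (hf : H1 n f Dx Dy) {χ : E3 → Hn n}
    (hχ : χ =ᵐ[volume] slc (volume : Measure (Yn n)) f) :
    @WeakGrad (Hn n) _ NormedSpace.complexToReal χ (fun i => slc volume (Dx i)) := by
  have hf2 : MemLp f 2 ((volume : Measure E3).prod (volume : Measure (Yn n))) := hf.f2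
  have hx2 : ∀ i, MemLp (Dx i) 2 ((volume : Measure E3).prod (volume : Measure (Yn n))) := hf.x2
  refine weakGrad_of_inner ((memLp_congr_ae hχ).2 (slc_memLp hf2)) (fun i => slc_memLp (hx2 i))
    {k | ∃ (β : Yn n → ℝ) (hβ : Test β), k = vec β hβ}
    (fun k hk => eq_zero_of_vec k fun β hβ => hk _ ⟨β, hβ, rfl⟩) ?_
  rintro _ ⟨β, hβ, rfl⟩ i φ hφ
  -- the test function on the product
  set Φ : Xn n → ℝ := fun z => φ z.1 * β z.2 with hΦ
  have hΦT : Test Φ := by
    refine ⟨(hφ.1.comp contDiff_fst).mul (hβ.1.comp contDiff_snd), ?_⟩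
    refine HasCompactSupport.intro (hφ.2.prod hβ.2) fun z hz => ?_
    by_contra hne
    apply hz
    rw [hΦ] at hne
    have h3 := mul_ne_zero_iff.1 hne
    exact ⟨subset_tsupport _ h3.1, subset_tsupport _ h3.2⟩
  have hφ1 : ContDiff ℝ 1 φ := hφ.1.of_le (by exact_mod_cast le_top)
  have hβ1 : ContDiff ℝ 1 β := hβ.1.of_le (by exact_mod_cast le_top)
  have hd : ∀ z, fderiv ℝ Φ z (ex n i) = pd i φ z.1 * β z.2 := by
    intro z
    have h1 : HasFDerivAt (fun z : Xn n => φ z.1)
        ((fderiv ℝ φ z.1).comp (ContinuousLinearMap.fst ℝ E3 (Yn n))) z :=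
      ((hφ1.differentiable one_ne_zero z.1).hasFDerivAt).comp z hasFDerivAt_fst
    have h2 : HasFDerivAt (fun z : Xn n => β z.2)
        ((fderiv ℝ β z.2).comp (ContinuousLinearMap.snd ℝ E3 (Yn n))) z :=
      ((hβ1.differentiable one_ne_zero z.2).hasFDerivAt).comp z hasFDerivAt_snd
    rw [show fderiv ℝ Φ z = _ from (h1.mul h2).fderiv]
    simp [ex, pd]
    ring
  have hw := hf.wx i Φ hΦT
  simp only [hd] at hw
  have hI1 : Integrable (fun z : Xn n => (pd i φ z.1 * β z.2) • f z)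
      ((volume : Measure E3).prod (volume : Measure (Yn n))) := by
    have := integrable_smul_of_compact (test_deriv_continuous hΦT (ex n i))
      (test_fderiv hΦT (ex n i)).2 hf.f2
    simp only [hd] at this
    exact this
  have hI2 : Integrable (fun z : Xn n => Φ z • Dx i z)
      ((volume : Measure E3).prod (volume : Measure (Yn n))) :=
    integrable_smul_of_compact hΦT.1.continuous hΦT.2 (hf.x2 i)
  have e3 : ∫ x, (pd i φ x : ℂ) * inner ℂ (vec β hβ) (χ x) =
      ∫ z : Xn n, (pd i φ z.1 * β z.2) • f z := by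
    rw [show ∫ z : Xn n, (pd i φ z.1 * β z.2) • f z =
      ∫ x, ∫ y, (pd i φ x * β y) • f (x, y) from integral_prod _ hI1]
    refine integral_congr_ae ?_
    filter_upwards [slc_ae_ae hf2, hχ] with x hx hx2
    rw [hx2, ← integral_smul_eq_inner hβ, ← integral_const_mul]
    refine integral_congr_ae ?_
    filter_upwards [hx] with y hy
    rw [hy]
    simp only [Complex.real_smul]
    push_cast
    ring
  have e4 : ∫ x, (φ x : ℂ) * inner ℂ (vec β hβ) (slc (volume : Measure (Yn n)) (Dx i) x) =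
      ∫ z : Xn n, Φ z • Dx i z := by
    rw [show ∫ z : Xn n, Φ z • Dx i z =
      ∫ x, ∫ y, Φ (x, y) • Dx i (x, y) from integral_prod _ hI2]
    refine integral_congr_ae ?_
    filter_upwards [slc_ae_ae (hx2 i)] with x hx
    rw [← integral_smul_eq_inner hβ, ← integral_const_mul]
    refine integral_congr_ae ?_
    filter_upwards [hx] with y hy
    rw [hy]
    simp only [Complex.real_smul, hΦ]
    push_cast
    ring
  rw [e3, e4, hw]

end Pool.Agent.H773.HK
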