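import Pool.Agent.H773.HK.Space

/-!
# The bound of the Coulomb coupling (helper773, project HK)
-/

set_option autoImplicit false

noncomputable section

namespace Pool.Agent.H773.HK

open MeasureTheory Filter Topology Set
open scoped ENNReal NNReal ComplexConjugate InnerProductSpace
open Pool.Agent.H998.HK

/-- truncated coupling -/
def wN (n : ℕ) (x : E3) (N : ℕ) (y : Yn n) : ℝ := min (wY n x y) N

lemma wN_nonneg (n : ℕ) (x : E3) (N : ℕ) (y : Yn n) : 0 ≤ wN n x N y :=
  le_min (wY_nonneg n x y) (Nat.cast_nonneg N)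

lemma wN_measurable (n : ℕ) (x : E3) (N : ℕ) : Measurable (wN n x N) :=
  (wY_measurable' n x).min measurable_const

lemma exists_trunc (n : ℕ) (x : E3) (N : ℕ) : ∃ M : Hn n →L[ℂ] Hn n,
    (∀ h, (M h : Yn n → ℂ) =ᵐ[volume] fun y => wN n x N y • h y) ∧ IsSelfAdjoint M := by
  obtain ⟨M, hM, -⟩ := exists_mulOp (ContinuousLinearMap.id ℂ (Hn n)) (wN_measurable n x N)
    (C := N) (Nat.cast_nonneg N) (fun h => by
      rw [Lp_enorm_sq, ENNReal.ofReal_natCast, ← lintegral_const_mul' _ _
        (ENNReal.pow_ne_top (ENNReal.natCast_ne_top N))]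
      refine lintegral_mono fun y => ?_
      beta_reduce
      gcongr
      · rw [Real.enorm_of_nonneg (wN_nonneg n x N y), ← ENNReal.ofReal_natCast]
        exact ENNReal.ofReal_le_ofReal (min_le_right _ _)
      · exact le_rfl)
  refine ⟨M, hM, ?_⟩
  rw [ContinuousLinearMap.isSelfAdjoint_iff_isSymmetric]
  intro h k
  show inner ℂ (M h) k = inner ℂ h (M k)
  rw [L2.inner_def, L2.inner_def]
  refine integral_congr_ae ?_
  filter_upwards [hM h, hM k] with y h1 h2
  rw [h1, h2]
  simp [RCLike.inner_apply]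
  ring

theorem W_bound (n : ℕ) (Q : Frm (Hn n) (Gs n)) (hJ : Q.J = co n none) (x : E3) (U : Gs n)
    (ξ wχ : Hn n) (hχ : co n none U = Rpow Q.R (1 / 4) ξ)
    (hw : (wχ : Yn n → ℂ) =ᵐ[volume] fun y => wY n x y • co n none U y) :
    ‖Rpow Q.R (1 / 4) wχ‖ ≤ √2 * (2 * √n) * ‖ξ‖ := by
  choose M hM hMsa using exists_trunc n x
  have hle : ∀ N y, ‖wN n x N y‖ₑ ≤ ‖wY n x y‖ₑ := fun N y => by
    rw [Real.enorm_of_nonneg (wN_nonneg n x N y), Real.enorm_of_nonneg (wY_nonneg n x y)]
    exact ENNReal.ofReal_le_ofReal (min_le_left _ _)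
  have hbd : ∀ N (V : Gs n), ‖M N (Q.J V)‖ ≤ 2 * √n * ‖V‖ := fun N V => by
    have h1 : ‖M N (Q.J V)‖ₑ ^ 2 ≤ ENNReal.ofReal (2 * √n * ‖V‖) ^ 2 := by
      rw [Lp_enorm_sq_of_ae (hM N (Q.J V)), ENNReal.ofReal_mul (by positivity), mul_pow,
        ofReal_norm]
      refine le_trans (lintegral_mono fun y => ?_) (hardy_le x V)
      rw [enorm_smul, mul_pow, hJ]
      gcongr
      exact hle N y
    have h2 : ‖M N (Q.J V)‖ₑ ≤ ENNReal.ofReal (2 * √n * ‖V‖) := by
      by_contra hc
      push Not at hc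
      exact absurd h1 (not_le.2 (ENNReal.pow_lt_pow_left two_ne_zero hc))
    rw [← ofReal_norm] at h2
    exact (ENNReal.ofReal_le_ofReal_iff (by positivity)).1 h2
  have hqb : ∀ N, ‖Rpow Q.R (1 / 4) (M N (co n none U))‖ ≤ √2 * (2 * √n) * ‖ξ‖ := fun N => by
    rw [hχ]
    exact Q.quarter_bound (M N) (hMsa N) (2 * √n) (by positivity) (hbd N) ξ
  have hlim : Tendsto (fun N => M N (co n none U)) atTop (𝓝 wχ) := by
    have h1 : ∀ N, ‖M N (co n none U) - wχ‖ₑ ^ 2 =
        ∫⁻ y, ‖wN n x N y - wY n x y‖ₑ ^ 2 * ‖co n none U y‖ₑ ^ 2 := fun N => by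
      have h2 : ((M N (co n none U) - wχ : Hn n) : Yn n → ℂ) =ᵐ[volume] fun y =>
          (wN n x N y - wY n x y) • co n none U y := by
        filter_upwards [Lp.coeFn_sub (M N (co n none U)) wχ, hM N (co n none U), hw] with y a b c
        rw [a, Pi.sub_apply, b, c, sub_smul]
      rw [Lp_enorm_sq_of_ae h2]
      refine lintegral_congr fun y => ?_
      rw [enorm_smul, mul_pow]
    have h2 : Tendsto (fun N => ∫⁻ y, ‖wN n x N y - wY n x y‖ₑ ^ 2 * ‖co n none U y‖ₑ ^ 2) atTop
        (𝓝 0) := by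
      have h3 : Tendsto (fun N => ∫⁻ y, ‖wN n x N y - wY n x y‖ₑ ^ 2 * ‖co n none U y‖ₑ ^ 2) atTop
          (𝓝 (∫⁻ _y : Yn n, 0)) := by
        refine tendsto_lintegral_of_dominated_convergence'
          (fun y => ‖wY n x y‖ₑ ^ 2 * ‖co n none U y‖ₑ ^ 2) (fun N => ?_) (fun N => ?_) ?_ ?_
        · exact (((wN_measurable n x N).sub (wY_measurable' n x)).enorm.pow_const 2).aemeasurable.mul
            (co_meas U none)
        · refine ae_of_all _ fun y => ?_
          have h4 : ‖wN n x N y - wY n x y‖ₑ ≤ ‖wY n x y‖ₑ := by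
            rw [← ofReal_norm, ← ofReal_norm]
            refine ENNReal.ofReal_le_ofReal ?_
            rw [Real.norm_eq_abs, Real.norm_eq_abs, abs_of_nonneg (wY_nonneg n x y), abs_le]
            have a1 := wN_nonneg n x N y
            have a2 : wN n x N y ≤ wY n x y := min_le_left _ _
            constructor <;> linarith
          beta_reduce
          gcongr
        · exact ne_top_of_le_ne_top (ENNReal.mul_ne_top
            (ENNReal.pow_ne_top ENNReal.ofReal_ne_top) (ENNReal.pow_ne_top enorm_ne_top))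
            (hardy_le x U)
        · refine ae_of_all _ fun y => ?_
          refine tendsto_const_nhds.congr' ?_
          obtain ⟨N0, hN0⟩ := exists_nat_ge (wY n x y)
          filter_upwards [eventually_ge_atTop N0] with N hN
          have h5 : wN n x N y = wY n x y :=
            min_eq_left (hN0.trans (by exact_mod_cast hN))
          simp [h5]
      simpa using h3
    rw [tendsto_iff_norm_sub_tendsto_zero]
    have h3 : Tendsto (fun N => ‖M N (co n none U) - wχ‖ₑ ^ 2) atTop (𝓝 0) := by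
      simp only [h1]
      exact h2
    have h5 := ((ENNReal.continuous_rpow_const (y := (1 / 2 : ℝ))).tendsto (0 : ℝ≥0∞)).comp h3
    rw [ENNReal.zero_rpow_of_pos (by norm_num)] at h5
    have h6 := (ENNReal.tendsto_toReal (ENNReal.zero_ne_top)).comp h5
    rw [ENNReal.toReal_zero] at h6
    refine h6.congr fun N => ?_
    simp only [Function.comp_apply]
    rw [← ENNReal.rpow_natCast, ← ENNReal.rpow_mul]
    norm_num
  have h1 : Tendsto (fun N => ‖Rpow Q.R (1 / 4) (M N (co n none U))‖) atTop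
      (𝓝 ‖Rpow Q.R (1 / 4) wχ‖) := (((Rpow Q.R (1 / 4)).continuous.tendsto _).comp hlim).norm
  exact le_of_tendsto' h1 hqb

end Pool.Agent.H773.HK
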