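import Pool.Agent.H773.HK.Conc3
import Pool.Agent.H773.HK.WBound

/-!
# Task CONC (helper773, project HK)
-/

set_option autoImplicit false

noncomputable section

namespace Pool.Agent.H773.HK

open MeasureTheory Filter Topology Set
open scoped ENNReal NNReal ComplexConjugate InnerProductSpace
open Pool.Agent.H998.HK

/-! ### The equation in weak form -/

lemma map_rsmul {H : Type} [NormedAddCommGroup H] [InnerProductSpace ℂ H] (R : H →L[ℂ] H)
    (r : ℝ) (a : H) : R (r • a) = r • R a := by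
  rw [← Complex.coe_smul, map_smul, Complex.coe_smul]

lemma heq_of_inner {H : Type} [NormedAddCommGroup H] [InnerProductSpace ℂ H] [CompleteSpace H]
    {R : H →L[ℂ] H} {V : E3 → ℝ} {χ g : E3 → H} {D : Fin 3 → E3 → H} (hχ : MemLp χ 2)
    (hD : ∀ i, MemLp (D i) 2) (hg : MemLp g 2)
    (hV : ∀ φ : E3 → ℝ, Test φ → Integrable fun x => φ x • (V x • χ x))
    (hw : ∀ h : H, ∀ φ : E3 → ℝ, Test φ →
      ∫ x, (∑ i, (pd i φ x : ℂ) * inner ℂ h (R (D i x)) + (φ x : ℂ) * inner ℂ h (χ x)) =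
      ∫ x, (φ x : ℂ) * ((V x : ℂ) * inner ℂ h (R (χ x)) + inner ℂ h (Rpow R (3 / 4) (g x)))) :
    HEq R V χ D g 0 := by
  intro φ hφ
  have i1 : ∀ i, Integrable fun x => pd i φ x • R (D i x) := fun i =>
    int_smul_test (test_fderiv hφ _) (R.comp_memLp' (hD i))
  have i2 : Integrable fun x => φ x • χ x := int_smul_test hφ hχ
  have i3 : Integrable fun x => φ x • R (V x • χ x) := by
    refine (R.integrable_comp (hV φ hφ)).congr (ae_of_all _ fun x => ?_)
    exact map_rsmul _ _ _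
  have i4 : Integrable fun x => φ x • Rpow R (3 / 4) (g x) :=
    int_smul_test hφ ((Rpow R (3 / 4)).comp_memLp' hg)
  have iL : Integrable fun x => ∑ i, pd i φ x • R (D i x) + φ x • χ x :=
    (integrable_finsetSum _ fun i _ => i1 i).add i2
  have iR : Integrable fun x => φ x • (R (V x • χ x) + Rpow R (3 / 4) (g x) +
      R ((0 : E3 → H) x)) := by
    refine (i3.add i4).congr (ae_of_all _ fun x => ?_)
    simp [smul_add]
  refine ext_inner_left ℂ fun h => ?_
  have e1 : inner ℂ h (∫ x, (∑ i, pd i φ x • R (D i x) + φ x • χ x)) =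
      ∫ x, inner ℂ h (∑ i, pd i φ x • R (D i x) + φ x • χ x) :=
    (ContinuousLinearMap.integral_comp_comm (innerSL ℂ h) iL).symm
  have e2 : inner ℂ h (∫ x, φ x • (R (V x • χ x) + Rpow R (3 / 4) (g x) +
      R ((0 : E3 → H) x))) = ∫ x, inner ℂ h (φ x • (R (V x • χ x) + Rpow R (3 / 4) (g x) +
      R ((0 : E3 → H) x))) :=
    (ContinuousLinearMap.integral_comp_comm (innerSL ℂ h) iR).symm
  rw [e1, e2]
  simp only [inner_add_right, inner_sum, inner_rsmul, map_rsmul, Pi.zero_apply, map_zero,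
    add_zero]
  exact hw h φ hφ

lemma int_V_smul {H : Type} [NormedAddCommGroup H] [InnerProductSpace ℂ H] {φ : E3 → ℝ}
    (hφ : Test φ) {V : E3 → ℝ} (hVm : Measurable V) (hVl : LocallyIntegrable V) {χ : E3 → H}
    (hχ2 : MemLp χ 2) (hVχ : Integrable fun x => |V x| * ‖χ x‖ ^ 2) :
    Integrable fun x => φ x • (V x • χ x) := by
  obtain ⟨C, hC0, hC⟩ := test_bounded hφ
  have h1 : Integrable fun x => φ x • V x :=
    hVl.integrable_smul_left_of_hasCompactSupport hφ.1.continuous hφ.2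
  have h2 : Integrable fun x => ‖φ x • V x‖ + C * (|V x| * ‖χ x‖ ^ 2) :=
    h1.norm.add (hVχ.const_mul C)
  refine h2.mono ?_ (ae_of_all _ fun x => ?_)
  · exact hφ.1.continuous.aestronglyMeasurable.smul (hVm.aestronglyMeasurable.smul hχ2.1)
  · rw [Real.norm_of_nonneg (r := ‖φ x • V x‖ + C * (|V x| * ‖χ x‖ ^ 2)) (by positivity)]
    rw [norm_smul, norm_smul, norm_smul, Real.norm_eq_abs, Real.norm_eq_abs]
    have h3 : ‖χ x‖ ≤ 1 + ‖χ x‖ ^ 2 := by
      nlinarith [sq_nonneg (‖χ x‖ - 1), norm_nonneg (χ x)]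
    calc |φ x| * (|V x| * ‖χ x‖) ≤ |φ x| * (|V x| * (1 + ‖χ x‖ ^ 2)) := by gcongr
      _ = |φ x| * |V x| + |φ x| * (|V x| * ‖χ x‖ ^ 2) := by ring
      _ ≤ _ := by
        gcongr
        exact hC x

/-! ### Integrability of the form integrand -/

lemma formInt_integrable {n : ℕ} {v : E3 → ℝ} (hv : XStar v) (hvm : Measurable v) (E : ℝ)
    {f : Xn n → ℂ} {Dx : Fin 3 → Xn n → ℂ} {Dy : Fin n → Fin 3 → Xn n → ℂ} (hf : H1 n f Dx Dy)
    {g : Xn n → ℂ} {Gx : Fin 3 → Xn n → ℂ} {Gy : Fin n → Fin 3 → Xn n → ℂ}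
    (hg : H1 n g Gx Gy) : Integrable (formInt n v E f Dx Dy g Gx Gy) := by
  have h1 : Integrable fun z => (pot n v z : ℂ) * (conj (g z) * f z) :=
    int_weight (pot_measurable n hvm).aestronglyMeasurable hg.f2.1 hf.f2.1
      (FB1 n v hv hvm g Gx Gy hg) (FB1 n v hv hvm f Dx Dy hf)
  have h2 : Integrable fun z => (E : ℂ) * (conj (g z) * f z) := (int_conj_mul hg.f2 hf.f2).const_mul _
  have h3 : Integrable fun z => ∑ i, conj (Gx i z) * Dx i z :=
    integrable_finsetSum _ fun i _ => int_conj_mul (hg.x2 i) (hf.x2 i)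
  have h4 : Integrable fun z => ∑ j, ∑ i, conj (Gy j i z) * Dy j i z :=
    integrable_finsetSum _ fun j _ => integrable_finsetSum _ fun i _ =>
      int_conj_mul (hg.y2 j i) (hf.y2 j i)
  refine (((h3.add h4).const_mul (1 / 2 : ℂ)).add (h1.sub h2)).congr (ae_of_all _ fun z => ?_)
  simp only [Pi.add_apply, Pi.sub_apply, formInt]
  push_cast
  ring

/-! ### The potential on the slices -/

section

variable {n : ℕ} {f : Xn n → ℂ} {Dx : Fin 3 → Xn n → ℂ} {Dy : Fin n → Fin 3 → Xn n → ℂ}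

lemma v_chi {v : E3 → ℝ} (hv : XStar v) (hvm : Measurable v) (hf : H1 n f Dx Dy) {χ : E3 → Hn n}
    (hχ : χ =ᵐ[volume] slc (volume : Measure (Yn n)) f) :
    Integrable fun x => |v x| * ‖χ x‖ ^ 2 := by
  have hf2 : MemLp f 2 ((volume : Measure E3).prod (volume : Measure (Yn n))) := hf.f2
  have hχ2 : MemLp χ 2 := (memLp_congr_ae hχ).2 (slc_memLp hf2)
  have hvx : ∫⁻ z : Xn n, ‖v z.1‖ₑ * ‖f z‖ₑ ^ 2 ≠ ∞ :=
    xstar_finite (PX n) (IX n) (PX_IX n) hv hvm hf.f2 hf.x2 (fun i => hf.wx i)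
  refine ⟨hvm.aestronglyMeasurable.norm.mul (hχ2.1.norm.pow 2), ?_⟩
  rw [hasFiniteIntegral_iff_enorm]
  refine lt_of_le_of_lt (le_of_eq ?_) (lt_top_iff_ne_top.2 hvx)
  have hm : AEMeasurable (fun z : Xn n => ‖v z.1‖ₑ * ‖f z‖ₑ ^ 2)
      ((volume : Measure E3).prod (volume : Measure (Yn n))) :=
    ((hvm.comp measurable_fst).enorm.aemeasurable).mul (hf2.1.enorm.pow_const 2)
  rw [show ∫⁻ z : Xn n, ‖v z.1‖ₑ * ‖f z‖ₑ ^ 2 =
    ∫⁻ x, ∫⁻ y, ‖v x‖ₑ * ‖f (x, y)‖ₑ ^ 2 from lintegral_prod _ hm]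
  refine lintegral_congr_ae ?_
  filter_upwards [hχ, slc_ae_ae hf2] with x hx hx2
  rw [enorm_mul, enorm_pow, enorm_norm, Real.enorm_abs, hx, Lp_enorm_sq_of_ae hx2,
    lintegral_const_mul' _ _ enorm_ne_top]

/-- the functions of the system -/
lemma V_chi {v : E3 → ℝ} (hv : XStar v) (hvm : Measurable v) (hf : H1 n f Dx Dy) {χ : E3 → Hn n}
    (hχ : χ =ᵐ[volume] slc (volume : Measure (Yn n)) f) (a : ℝ) :
    Integrable fun x => |a - 2 * v x| * ‖χ x‖ ^ 2 := by
  have hf2 : MemLp f 2 ((volume : Measure E3).prod (volume : Measure (Yn n))) := hf.f2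
  have hχ2 : MemLp χ 2 := (memLp_congr_ae hχ).2 (slc_memLp hf2)
  have h1 := ((int_norm_sq hχ2).const_mul |a|).add ((v_chi hv hvm hf hχ).const_mul 2)
  refine h1.mono ?_ (ae_of_all _ fun x => ?_)
  · exact ((measurable_const.sub (hvm.const_mul 2)).aestronglyMeasurable.norm).mul
      (hχ2.1.norm.pow 2)
  · simp only [Pi.add_apply]
    rw [Real.norm_of_nonneg (by positivity), Real.norm_of_nonneg (by positivity), ← mul_assoc,
      ← add_mul]
    gcongr
    calc |a - 2 * v x| ≤ |a| + |2 * v x| := abs_sub _ _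
      _ = |a| + 2 * |v x| := by rw [abs_mul, abs_two]

/-! ### Testing the equation -/

lemma weak_slices {v : E3 → ℝ} (hv : XStar v) (hvm : Measurable v) {E : ℝ} (hf : H1 n f Dx Dy)
    (hsol : WeakSol n v E f Dx Dy) {g : Xn n → ℂ} {Gx : Fin 3 → Xn n → ℂ}
    {Gy : Fin n → Fin 3 → Xn n → ℂ} (hg : H1 n g Gx Gy) (ph : E3 → ℝ) (dph : Fin 3 → E3 → ℝ)
    (K : E3 → Gs n) (Kx : Fin 3 → E3 → Hn n)
    (h0 : ∀ᵐ x, ∀ᵐ y, g (x, y) = ph x • co n none (K x) y)
    (h1 : ∀ᵐ x, ∀ᵐ y, ∀ i, Gx i (x, y) = ph x • Kx i x y + dph i x • co n none (K x) y)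
    (h2 : ∀ᵐ x, ∀ᵐ y, ∀ j i, Gy j i (x, y) = ph x • co n (some (j, i)) (K x) y) :
    Integrable (fun x => ∫ y, sliceInt n v E x (ph x) (fun i => dph i x) (K x)
        (fun i => Kx i x) (Us n f Dy x) (fun i => slc volume (Dx i) x) y) ∧
      ∫ x, ∫ y, sliceInt n v E x (ph x) (fun i => dph i x) (K x)
        (fun i => Kx i x) (Us n f Dy x) (fun i => slc volume (Dx i) x) y = 0 := by
  have hI : Integrable (formInt n v E f Dx Dy g Gx Gy)
      ((volume : Measure E3).prod (volume : Measure (Yn n))) :=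
    formInt_integrable hv hvm E hf hg
  have hx2 : ∀ᵐ x : E3, ∀ i, (slc (volume : Measure (Yn n)) (Dx i) x : Yn n → ℂ) =ᵐ[volume]
      fun y => Dx i (x, y) := by
    rw [ae_all_iff]
    exact fun i => slc_ae_ae (hf.x2 i)
  have hy2 : ∀ᵐ x : E3, ∀ p : Fin n × Fin 3, (slc (volume : Measure (Yn n)) (Dy p.1 p.2) x :
      Yn n → ℂ) =ᵐ[volume] fun y => Dy p.1 p.2 (x, y) := by
    rw [ae_all_iff]
    exact fun p => slc_ae_ae (hf.y2 p.1 p.2)
  have hf2 : ∀ᵐ x : E3, (slc (volume : Measure (Yn n)) f x : Yn n → ℂ) =ᵐ[volume]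
      fun y => f (x, y) := slc_ae_ae hf.f2
  have key : (fun x => ∫ y, formInt n v E f Dx Dy g Gx Gy (x, y)) =ᵐ[volume] fun x =>
      ∫ y, sliceInt n v E x (ph x) (fun i => dph i x) (K x)
        (fun i => Kx i x) (Us n f Dy x) (fun i => slc volume (Dx i) x) y := by
    filter_upwards [hx2, hy2, hf2, h0, h1, h2, co_Us_ae hf] with x a1 a2 a3 b0 b1 b2 b3
    refine integral_congr_ae ?_
    have a1' := ae_all_iff.2 a1
    have a2' := ae_all_iff.2 a2
    filter_upwards [a1', a2', a3, b0, b1, b2] with y c1 c2 c3 d0 d1 d2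
    simp only [sliceInt, formInt, d0, d1, d2, b3.1, b3.2, c3, c1]
    have c2' : ∀ j i, (slc (volume : Measure (Yn n)) (Dy j i) x : Yn n → ℂ) y = Dy j i (x, y) :=
      fun j i => c2 (j, i)
    simp only [c2']
  refine ⟨hI.integral_prod_left.congr key, ?_⟩
  rw [← integral_congr_ae key]
  rw [← hsol g Gx Gy hg]
  exact (integral_prod _ hI).symm

lemma weak_form {v : E3 → ℝ} (hv : XStar v) (hvm : Measurable v) {E : ℝ} (hf : H1 n f Dx Dy)
    (hsol : WeakSol n v E f Dx Dy) {c : ℝ} {Q : Frm (Hn n) (Gs n)}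
    (hpi : ∀ U V : Gs n, Integrable fun y =>
        (pY n v y : ℂ) * (conj (co n none U y) * co n none V y))
    (hQ : ∀ U V : Gs n, inner ℂ (Q.S U) V =
        ∑ p : Fin n × Fin 3, inner ℂ (co n (some p) U) (co n (some p) V) +
        2 * (∫ y, (pY n v y : ℂ) * (conj (co n none U y) * co n none V y)) +
        c * inner ℂ (co n none U) (co n none V))
    {g : Xn n → ℂ} {Gx : Fin 3 → Xn n → ℂ}
    {Gy : Fin n → Fin 3 → Xn n → ℂ} (hg : H1 n g Gx Gy) (ph : E3 → ℝ) (dph : Fin 3 → E3 → ℝ)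
    (K : E3 → Gs n) (Kx : Fin 3 → E3 → Hn n)
    (h0 : ∀ᵐ x, ∀ᵐ y, g (x, y) = ph x • co n none (K x) y)
    (h1 : ∀ᵐ x, ∀ᵐ y, ∀ i, Gx i (x, y) = ph x • Kx i x y + dph i x • co n none (K x) y)
    (h2 : ∀ᵐ x, ∀ᵐ y, ∀ j i, Gy j i (x, y) = ph x • co n (some (j, i)) (K x) y) :
    Integrable (fun x => ∑ i, ((ph x : ℂ) * inner ℂ (Kx i x) (slc volume (Dx i) x) +
        (dph i x : ℂ) * inner ℂ (co n none (K x)) (slc volume (Dx i) x)) +
        (ph x : ℂ) * (inner ℂ (Q.S (K x)) (Us n f Dy x) -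
          ((c + 2 * E - 2 * v x : ℝ) : ℂ) * inner ℂ (co n none (K x)) (co n none (Us n f Dy x)) +
          2 * inner ℂ (co n none (K x)) (slc volume (fun z : Xn n => wY n z.1 z.2 • f z) x))) ∧
      ∫ x, (∑ i, ((ph x : ℂ) * inner ℂ (Kx i x) (slc volume (Dx i) x) +
        (dph i x : ℂ) * inner ℂ (co n none (K x)) (slc volume (Dx i) x)) +
        (ph x : ℂ) * (inner ℂ (Q.S (K x)) (Us n f Dy x) -
          ((c + 2 * E - 2 * v x : ℝ) : ℂ) * inner ℂ (co n none (K x)) (co n none (Us n f Dy x)) +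
          2 * inner ℂ (co n none (K x)) (slc volume (fun z : Xn n => wY n z.1 z.2 • f z) x))) =
        0 := by
  obtain ⟨hI, hI0⟩ := weak_slices hv hvm hf hsol hg ph dph K Kx h0 h1 h2
  have hwf : MemLp (fun z : Xn n => wY n z.1 z.2 • f z) 2
      ((volume : Measure E3).prod (volume : Measure (Yn n))) := wf_memLp hf
  have hf2 : ∀ᵐ x : E3, (slc (volume : Measure (Yn n)) f x : Yn n → ℂ) =ᵐ[volume]
      fun y => f (x, y) := slc_ae_ae hf.f2
  have key : (fun x => 2 * ∫ y, sliceInt n v E x (ph x) (fun i => dph i x) (K x)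
        (fun i => Kx i x) (Us n f Dy x) (fun i => slc volume (Dx i) x) y) =ᵐ[volume]
      fun x => ∑ i, ((ph x : ℂ) * inner ℂ (Kx i x) (slc volume (Dx i) x) +
        (dph i x : ℂ) * inner ℂ (co n none (K x)) (slc volume (Dx i) x)) +
        (ph x : ℂ) * (inner ℂ (Q.S (K x)) (Us n f Dy x) -
          ((c + 2 * E - 2 * v x : ℝ) : ℂ) * inner ℂ (co n none (K x)) (co n none (Us n f Dy x)) +
          2 * inner ℂ (co n none (K x)) (slc volume (fun z : Xn n => wY n z.1 z.2 • f z) x)) := by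
    filter_upwards [co_Us_ae hf, slc_ae_ae hwf, hf2] with x a1 a2 a3
    rw [integral_sliceInt n v E x (ph x) (fun i => dph i x) (K x) (fun i => Kx i x)
      (Us n f Dy x) (fun i => slc volume (Dx i) x)
      (slc volume (fun z : Xn n => wY n z.1 z.2 • f z) x) ?_ (hpi _ _), hQ]
    · push_cast
      ring
    · filter_upwards [a2, a3] with y b1 b2
      rw [b1, a1.1, b2]
  refine ⟨(hI.const_mul 2).congr key, ?_⟩
  rw [← integral_congr_ae key, integral_const_mul, hI0, mul_zero]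

/-! ### The equation -/

lemma heq_slc {v : E3 → ℝ} (hv : XStar v) (hvm : Measurable v) {E : ℝ} (hf : H1 n f Dx Dy)
    (hsol : WeakSol n v E f Dx Dy) {c : ℝ} {Q : Frm (Hn n) (Gs n)} (hJ : Q.J = co n none)
    (hpi : ∀ U V : Gs n, Integrable fun y =>
        (pY n v y : ℂ) * (conj (co n none U y) * co n none V y))
    (hQ : ∀ U V : Gs n, inner ℂ (Q.S U) V =
        ∑ p : Fin n × Fin 3, inner ℂ (co n (some p) U) (co n (some p) V) +
        2 * (∫ y, (pY n v y : ℂ) * (conj (co n none U y) * co n none V y)) +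
        c * inner ℂ (co n none U) (co n none V)) {g : E3 → Hn n} (hg : MemLp g 2)
    (hgw : ∀ᵐ x, g x = (-2 : ℂ) • Rpow Q.R (1 / 4)
      (slc volume (fun z : Xn n => wY n z.1 z.2 • f z) x)) :
    HEq Q.R (fun x => c + 2 * E - 2 * v x) (fun x => co n none (Us n f Dy x))
      (fun i => slc volume (Dx i)) g 0 := by
  have hf2 : MemLp f 2 ((volume : Measure E3).prod (volume : Measure (Yn n))) := hf.f2
  have hx2 : ∀ i, MemLp (Dx i) 2 ((volume : Measure E3).prod (volume : Measure (Yn n))) := hf.x2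
  have hχae : (fun x => co n none (Us n f Dy x)) =ᵐ[volume] slc (volume : Measure (Yn n)) f := by
    filter_upwards [co_Us_ae hf] with x hx
    exact hx.1
  have hχ2 : MemLp (fun x => co n none (Us n f Dy x)) 2 := (co n none).comp_memLp' (Us_memLp hf)
  have hVχ := V_chi hv hvm hf hχae (c + 2 * E)
  refine heq_of_inner hχ2 (fun i => slc_memLp (hx2 i)) hg ?_ ?_
  · intro φ hφ
    refine int_V_smul hφ (measurable_const.sub (hvm.const_mul 2)) ?_ hχ2 hVχ
    exact (locallyIntegrable_const (c + 2 * E)).sub ((xstar_locallyIntegrable hv).smul (2 : ℝ))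
  · intro h φ hφ
    obtain ⟨hI, hI0⟩ := weak_form hv hvm hf hsol hpi hQ (H1_tensor hφ (Q.E h)) φ
      (fun i => pd i φ) (fun _ => Q.E h) (fun _ _ => 0) (ae_of_all _ fun x => ae_of_all _ fun y =>
        rfl) (ae_of_all _ fun x => by
          filter_upwards [Lp.coeFn_zero ℂ 2 (volume : Measure (Yn n))] with y hy i
          rw [hy]
          simp) (ae_of_all _ fun x => ae_of_all _ fun y j i => rfl)
    have hco : co n none (Q.E h) = Q.R h := by rw [← hJ, Q.R_apply]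
    have hR : ∀ a, inner ℂ (Q.R h) a = inner ℂ h (Q.R a) := fun a => by
      rw [← ContinuousLinearMap.adjoint_inner_right, Q.R_sa.adjoint_eq]
    have hSE : ∀ U, inner ℂ (Q.S (Q.E h)) U = inner ℂ h (co n none U) := fun U => by
      rw [Q.inner_E, hJ]
    simp only [hco, hR, hSE, inner_zero_left, mul_zero, zero_add] at hI hI0
    have iL : Integrable fun x => (∑ i, (pd i φ x : ℂ) * inner ℂ h (Q.R (slc volume (Dx i) x)) +
        (φ x : ℂ) * inner ℂ h (co n none (Us n f Dy x))) := by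
      refine (integrable_finsetSum _ fun i _ => ?_).add ?_
      · have h1 : MemLp (fun x => inner ℂ h (Q.R (slc volume (Dx i) x))) 2 :=
          ((innerSL ℂ h).comp Q.R).comp_memLp' (slc_memLp (hx2 i))
        have h2 := int_smul_test (test_fderiv hφ (EuclideanSpace.single i (1 : ℝ))) h1
        simp only [Complex.real_smul] at h2
        exact h2
      · have h1 : MemLp (fun x => inner ℂ h (co n none (Us n f Dy x))) 2 :=
          (innerSL ℂ h).comp_memLp' hχ2
        have h2 := int_smul_test hφ h1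
        simpa only [Complex.real_smul] using h2
    have hR2 : ∀ᵐ x, (φ x : ℂ) * (((c + 2 * E - 2 * v x : ℝ) : ℂ) *
        inner ℂ h (Q.R (co n none (Us n f Dy x))) + inner ℂ h (Rpow Q.R (3 / 4) (g x))) =
        (∑ i, (pd i φ x : ℂ) * inner ℂ h (Q.R (slc volume (Dx i) x)) +
        (φ x : ℂ) * inner ℂ h (co n none (Us n f Dy x))) -
        (∑ i, (pd i φ x : ℂ) * inner ℂ h (Q.R (slc volume (Dx i) x)) +
        (φ x : ℂ) * (inner ℂ h (co n none (Us n f Dy x)) -
          ((c + 2 * E - 2 * v x : ℝ) : ℂ) * inner ℂ h (Q.R (co n none (Us n f Dy x))) +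
          2 * inner ℂ h (Q.R (slc volume (fun z : Xn n => wY n z.1 z.2 • f z) x)))) := by
      filter_upwards [hgw] with x hx
      rw [hx, map_smul, threeq_quarter Q.R_good, inner_smul_right]
      ring
    rw [integral_congr_ae hR2, integral_sub iL hI, hI0, sub_zero]

end

/-! ### The energy inequality -/

lemma re_inner_w_nonneg {n : ℕ} (x : E3) (k w : Hn n)
    (hw : (w : Yn n → ℂ) =ᵐ[volume] fun y => wY n x y • k y) : 0 ≤ (inner ℂ k w).re := by
  rw [inner_eq]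
  have h1 : Complex.reCLM (∫ y, conj (k y) * w y) = ∫ y, Complex.reCLM (conj (k y) * w y) :=
    (Complex.reCLM.integral_comp_comm (int_co k w)).symm
  have h2 : 0 ≤ ∫ y, Complex.reCLM (conj (k y) * w y) := by
    refine integral_nonneg_of_ae ?_
    filter_upwards [hw] with y hy
    have h3 : conj (k y) * w y = ((wY n x y * ‖k y‖ ^ 2 : ℝ) : ℂ) := by
      rw [hy, Complex.real_smul, mul_left_comm, Complex.conj_mul']
      push_cast
      ring
    rw [h3]
    show 0 ≤ (((wY n x y * ‖k y‖ ^ 2 : ℝ) : ℂ)).re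
    rw [Complex.ofReal_re]
    exact mul_nonneg (wY_nonneg n x y) (sq_nonneg _)
  rw [← h1] at h2
  exact h2

lemma re_inner_self {H : Type} [NormedAddCommGroup H] [InnerProductSpace ℂ H] (a : H) :
    (inner ℂ a a).re = ‖a‖ ^ 2 := by
  rw [inner_self_eq_norm_sq_to_K]
  norm_cast

lemma energy_pt {H : Type} [NormedAddCommGroup H] [InnerProductSpace ℂ H] (z V : ℝ)
    (d : Fin 3 → ℝ) (χ w : H) (D : Fin 3 → H) (s : ℂ) (hs : 0 ≤ s.re)
    (hw : 0 ≤ (inner ℂ χ w).re) :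
    (1 / 2) * (z ^ 2 * ∑ i, ‖D i‖ ^ 2) -
      2 * ((∑ i, d i ^ 2 + z ^ 2 * (1 + |V|)) * ‖χ‖ ^ 2) ≤
    (∑ i, (((z * z : ℝ) : ℂ) * inner ℂ (D i) (D i) +
        ((2 * z * d i : ℝ) : ℂ) * inner ℂ χ (D i)) +
        ((z * z : ℝ) : ℂ) * (s - (V : ℂ) * inner ℂ χ χ + 2 * inner ℂ χ w)).re := by
  have e1 : (∑ i, (((z * z : ℝ) : ℂ) * inner ℂ (D i) (D i) +
        ((2 * z * d i : ℝ) : ℂ) * inner ℂ χ (D i)) +
        ((z * z : ℝ) : ℂ) * (s - (V : ℂ) * inner ℂ χ χ + 2 * inner ℂ χ w)).re =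
      ∑ i, ((z * z) * ‖D i‖ ^ 2 + (2 * z * d i) * (inner ℂ χ (D i)).re) +
        (z * z) * (s.re - V * ‖χ‖ ^ 2 + 2 * (inner ℂ χ w).re) := by
    rw [Complex.add_re, Complex.re_sum, Complex.re_ofReal_mul]
    congr 1
    · refine Finset.sum_congr rfl fun i _ => ?_
      rw [Complex.add_re, Complex.re_ofReal_mul, Complex.re_ofReal_mul, re_inner_self]
    · rw [Complex.add_re, Complex.sub_re, Complex.re_ofReal_mul, re_inner_self]
      congr 2
      have : (2 : ℂ) = ((2 : ℝ) : ℂ) := by norm_num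
      rw [this, Complex.re_ofReal_mul]
  rw [e1]
  have h1 : ∀ i, (1 / 2) * (z ^ 2 * ‖D i‖ ^ 2) - 2 * (d i ^ 2 * ‖χ‖ ^ 2) ≤
      (z * z) * ‖D i‖ ^ 2 + (2 * z * d i) * (inner ℂ χ (D i)).re := by
    intro i
    have h2 : |(inner ℂ χ (D i)).re| ≤ ‖χ‖ * ‖D i‖ :=
      (Complex.abs_re_le_norm _).trans (norm_inner_le_norm _ _)
    have h3 : -(2 * |z| * |d i| * (‖χ‖ * ‖D i‖)) ≤ (2 * z * d i) * (inner ℂ χ (D i)).re := by
      have h4 : |(2 * z * d i) * (inner ℂ χ (D i)).re| ≤ 2 * |z| * |d i| * (‖χ‖ * ‖D i‖) := by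
        rw [abs_mul, abs_mul, abs_mul, abs_two]
        gcongr
      exact (abs_le.1 h4).1
    have h5 : |z| ^ 2 = z ^ 2 := sq_abs z
    have h6 : |d i| ^ 2 = d i ^ 2 := sq_abs _
    nlinarith [sq_nonneg (|z| * ‖D i‖ - 2 * |d i| * ‖χ‖)]
  have h2 := Finset.sum_le_sum fun i (_ : i ∈ Finset.univ) => h1 i
  rw [Finset.sum_sub_distrib, ← Finset.mul_sum, ← Finset.mul_sum, ← Finset.mul_sum,
    ← Finset.sum_mul] at h2
  have h3 : -(z ^ 2 * |V| * ‖χ‖ ^ 2) ≤ z * z * (s.re - V * ‖χ‖ ^ 2 + 2 * (inner ℂ χ w).re) := by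
    have h4 : V * ‖χ‖ ^ 2 ≤ |V| * ‖χ‖ ^ 2 := by
      gcongr
      exact le_abs_self V
    have h5 : 0 ≤ z * z := mul_self_nonneg z
    nlinarith
  have h4 : 0 ≤ z ^ 2 * |V| * ‖χ‖ ^ 2 := by positivity
  have h5 : 0 ≤ z ^ 2 * ‖χ‖ ^ 2 := by positivity
  nlinarith

lemma energy_slc {n : ℕ} {f : Xn n → ℂ} {Dx : Fin 3 → Xn n → ℂ} {Dy : Fin n → Fin 3 → Xn n → ℂ}
    {v : E3 → ℝ} (hv : XStar v) (hvm : Measurable v) {E : ℝ} (hf : H1 n f Dx Dy)
    (hsol : WeakSol n v E f Dx Dy) {c : ℝ} {Q : Frm (Hn n) (Gs n)}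
    (hpi : ∀ U V : Gs n, Integrable fun y =>
        (pY n v y : ℂ) * (conj (co n none U y) * co n none V y))
    (hQ : ∀ U V : Gs n, inner ℂ (Q.S U) V =
        ∑ p : Fin n × Fin 3, inner ℂ (co n (some p) U) (co n (some p) V) +
        2 * (∫ y, (pY n v y : ℂ) * (conj (co n none U y) * co n none V y)) +
        c * inner ℂ (co n none U) (co n none V)) {ζ : E3 → ℝ} (hζ : Test ζ) :
    ∫⁻ x, ENNReal.ofReal (ζ x ^ 2 * ∑ i, ‖slc volume (Dx i) x‖ ^ 2) ≤
      ENNReal.ofReal 4 * ∫⁻ x, ENNReal.ofReal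
        ((∑ i, pd i ζ x ^ 2 + ζ x ^ 2 * (1 + |c + 2 * E - 2 * v x|)) *
          ‖co n none (Us n f Dy x)‖ ^ 2) := by
  have hf2 : MemLp f 2 ((volume : Measure E3).prod (volume : Measure (Yn n))) := hf.f2
  have hx2 : ∀ i, MemLp (Dx i) 2 ((volume : Measure E3).prod (volume : Measure (Yn n))) := hf.x2
  have hwf : MemLp (fun z : Xn n => wY n z.1 z.2 • f z) 2
      ((volume : Measure E3).prod (volume : Measure (Yn n))) := wf_memLp hf
  have hχae : (fun x => co n none (Us n f Dy x)) =ᵐ[volume] slc (volume : Measure (Yn n)) f := by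
    filter_upwards [co_Us_ae hf] with x hx
    exact hx.1
  have hχ2 : MemLp (fun x => co n none (Us n f Dy x)) 2 := (co n none).comp_memLp' (Us_memLp hf)
  have hVχ := V_chi hv hvm hf hχae (c + 2 * E)
  have hζ1 : ContDiff ℝ 1 ζ := hζ.1.of_le (by exact_mod_cast le_top)
  have hφ : Test fun x => ζ x * ζ x := ⟨hζ.1.mul hζ.1, hζ.2.mul_right⟩
  have hpd : ∀ i x, pd i (fun x => ζ x * ζ x) x = 2 * ζ x * pd i ζ x := by
    intro i x
    have h1 := (hζ1.differentiable one_ne_zero x).hasFDerivAt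
    rw [pd, show fderiv ℝ (fun x => ζ x * ζ x) x = _ from (h1.mul h1).fderiv]
    simp [pd]
    ring
  obtain ⟨hI, hI0⟩ := weak_form hv hvm hf hsol hpi hQ (H1_mul hf hφ) (fun x => ζ x * ζ x)
    (fun i => pd i (fun x => ζ x * ζ x)) (Us n f Dy) (fun i => slc volume (Dx i))
    (by
      filter_upwards [co_Us_ae hf, slc_ae_ae hf2] with x a1 a2
      filter_upwards [a2] with y b1
      rw [a1.1, b1])
    (by
      have hx2' : ∀ᵐ x : E3, ∀ i, (slc (volume : Measure (Yn n)) (Dx i) x : Yn n → ℂ)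
          =ᵐ[volume] fun y => Dx i (x, y) := by
        rw [ae_all_iff]
        exact fun i => slc_ae_ae (hf.x2 i)
      filter_upwards [co_Us_ae hf, slc_ae_ae hf2, hx2'] with x a1 a2 a3
      filter_upwards [a2, ae_all_iff.2 a3] with y b1 b2 i
      rw [a1.1, b1, b2 i])
    (by
      have hy2' : ∀ᵐ x : E3, ∀ p : Fin n × Fin 3, (slc (volume : Measure (Yn n))
          (Dy p.1 p.2) x : Yn n → ℂ) =ᵐ[volume] fun y => Dy p.1 p.2 (x, y) := by
        rw [ae_all_iff]
        exact fun p => slc_ae_ae (hf.y2 p.1 p.2)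
      filter_upwards [co_Us_ae hf, hy2'] with x a1 a2
      filter_upwards [ae_all_iff.2 a2] with y b1 j i
      rw [a1.2 j i, b1 (j, i)])
  set G : E3 → ℂ := fun x => ∑ i, (((ζ x * ζ x : ℝ) : ℂ) *
        inner ℂ (slc volume (Dx i) x) (slc volume (Dx i) x) +
        (pd i (fun x => ζ x * ζ x) x : ℂ) * inner ℂ (co n none (Us n f Dy x))
          (slc volume (Dx i) x)) +
        ((ζ x * ζ x : ℝ) : ℂ) * (inner ℂ (Q.S (Us n f Dy x)) (Us n f Dy x) -
          ((c + 2 * E - 2 * v x : ℝ) : ℂ) * inner ℂ (co n none (Us n f Dy x))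
            (co n none (Us n f Dy x)) +
          2 * inner ℂ (co n none (Us n f Dy x))
            (slc volume (fun z : Xn n => wY n z.1 z.2 • f z) x)) with hG
  set L : E3 → ℝ := fun x => ζ x ^ 2 * ∑ i, ‖slc volume (Dx i) x‖ ^ 2 with hL
  set B : E3 → ℝ := fun x => (∑ i, pd i ζ x ^ 2 + ζ x ^ 2 * (1 + |c + 2 * E - 2 * v x|)) *
          ‖co n none (Us n f Dy x)‖ ^ 2 with hB
  have hL0 : ∀ x, 0 ≤ L x := fun x => by positivity
  have hB0 : ∀ x, 0 ≤ B x := fun x => by positivity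
  obtain ⟨C, hC0, hC⟩ := test_bounded hζ
  have hC' : ∀ i, ∃ C : ℝ, 0 ≤ C ∧ ∀ x, |pd i ζ x| ≤ C := fun i =>
    test_bounded (test_fderiv hζ (EuclideanSpace.single i (1 : ℝ)))
  choose C' hC'0 hC' using hC'
  have hD2 : ∀ i, MemLp (slc (volume : Measure (Yn n)) (Dx i)) 2 := fun i => slc_memLp (hx2 i)
  have hLi : Integrable L := by
    have h1 : Integrable fun x => C ^ 2 * ∑ i, ‖slc volume (Dx i) x‖ ^ 2 :=
      (integrable_finsetSum _ fun i _ => int_norm_sq (hD2 i)).const_mul _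
    refine h1.mono ?_ (ae_of_all _ fun x => ?_)
    · refine ((hζ.1.continuous.pow 2).aestronglyMeasurable).mul ?_
      refine Finset.aestronglyMeasurable_fun_sum _ fun i _ => ?_
      exact ((hD2 i).1.norm.pow 2)
    · rw [Real.norm_of_nonneg (hL0 x), Real.norm_of_nonneg (by positivity)]
      simp only [hL]
      gcongr ?_ * _
      rw [← sq_abs]
      gcongr
      exact hC x
  have hBi : Integrable B := by
    have h1 : Integrable fun x => (∑ i, C' i ^ 2 + C ^ 2) * ‖co n none (Us n f Dy x)‖ ^ 2 +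
        C ^ 2 * (|c + 2 * E - 2 * v x| * ‖co n none (Us n f Dy x)‖ ^ 2) :=
      ((int_norm_sq hχ2).const_mul _).add (hVχ.const_mul _)
    refine h1.mono ?_ (ae_of_all _ fun x => ?_)
    · refine AEStronglyMeasurable.mul ?_ (hχ2.1.norm.pow 2)
      refine AEStronglyMeasurable.add ?_ ?_
      · refine Finset.aestronglyMeasurable_fun_sum _ fun i _ => ?_
        exact ((test_deriv_continuous hζ _).pow 2).aestronglyMeasurable
      · refine ((hζ.1.continuous.pow 2).aestronglyMeasurable).mul ?_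
        exact (measurable_const.add (measurable_const.sub (hvm.const_mul 2)).norm).aestronglyMeasurable
    · rw [Real.norm_of_nonneg (hB0 x), Real.norm_of_nonneg (by positivity)]
      have e1 : B x = (∑ i, pd i ζ x ^ 2 + ζ x ^ 2) * ‖co n none (Us n f Dy x)‖ ^ 2 +
        ζ x ^ 2 * (|c + 2 * E - 2 * v x| * ‖co n none (Us n f Dy x)‖ ^ 2) := by
        simp only [hB]
        ring
      rw [e1]
      have h2 : ζ x ^ 2 ≤ C ^ 2 := by
        rw [← sq_abs]
        gcongr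
        exact hC x
      have h3 : ∀ i, pd i ζ x ^ 2 ≤ C' i ^ 2 := fun i => by
        rw [← sq_abs]
        gcongr
        exact hC' i x
      have h4 := Finset.sum_le_sum fun i (_ : i ∈ Finset.univ) => h3 i
      gcongr
  have hpt : ∀ᵐ x, (1 / 2) * L x - 2 * B x ≤ (G x).re := by
    filter_upwards [co_Us_ae hf, slc_ae_ae hwf, slc_ae_ae hf2] with x a1 a2 a3
    have h1 := energy_pt (ζ x) (c + 2 * E - 2 * v x) (fun i => pd i ζ x)
      (co n none (Us n f Dy x)) (slc volume (fun z : Xn n => wY n z.1 z.2 • f z) x)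
      (fun i => slc volume (Dx i) x) (inner ℂ (Q.S (Us n f Dy x)) (Us n f Dy x))
      ((sq_nonneg _).trans (Q.c2 _)) (re_inner_w_nonneg x _ _ (by
        filter_upwards [a2, a3] with y b1 b2
        rw [b1, a1.1, b2]))
    simp only [hG, hL, hB, hpd]
    exact h1
  have h1 : ∫ x, ((1 / 2) * L x - 2 * B x) ≤ ∫ x, (G x).re :=
    integral_mono_ae ((hLi.const_mul _).sub (hBi.const_mul _)) hI.re hpt
  have h2 : ∫ x, (G x).re = 0 := by
    have h3 : Complex.reCLM (∫ x, G x) = ∫ x, Complex.reCLM (G x) :=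
      (Complex.reCLM.integral_comp_comm hI).symm
    rw [show ∫ x, G x = 0 from hI0, map_zero] at h3
    exact h3.symm
  rw [h2, integral_sub (hLi.const_mul _) (hBi.const_mul _), integral_const_mul,
    integral_const_mul] at h1
  have h3 : ∫ x, L x ≤ 4 * ∫ x, B x := by linarith
  rw [← ofReal_integral_eq_lintegral_ofReal hLi (ae_of_all _ hL0),
    ← ofReal_integral_eq_lintegral_ofReal hBi (ae_of_all _ hB0),
    ← ENNReal.ofReal_mul (by norm_num)]
  exact ENNReal.ofReal_le_ofReal h3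

theorem CONC : S_CONC := by
  intro n v E hv hvm
  obtain ⟨c, Q, hJ, hc, hpi, hQ⟩ := exists_form n hv hvm
  obtain ⟨T', hT'⟩ := Q.factor
  refine ⟨Q.R, fun x => c + 2 * E - 2 * v x, 4 + 4 * (√2 * √n), Q.R_good,
    measurable_const.sub (hvm.const_mul 2), unifSmall hv hvm _, by positivity, ?_⟩
  intro f Dx Dy hf hsol
  have hf2 : MemLp f 2 ((volume : Measure E3).prod (volume : Measure (Yn n))) := hf.f2
  have hx2 : ∀ i, MemLp (Dx i) 2 ((volume : Measure E3).prod (volume : Measure (Yn n))) := hf.x2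
  have hwf : MemLp (fun z : Xn n => wY n z.1 z.2 • f z) 2
      ((volume : Measure E3).prod (volume : Measure (Yn n))) := wf_memLp hf
  have hχae : (fun x => co n none (Us n f Dy x)) =ᵐ[volume] slc (volume : Measure (Yn n)) f := by
    filter_upwards [co_Us_ae hf] with x hx
    exact hx.1
  have hχ2 : MemLp (fun x => co n none (Us n f Dy x)) 2 := (co n none).comp_memLp' (Us_memLp hf)
  set A : ℝ := 4 + 4 * (√2 * √n) with hA
  have hA0 : 0 < A := by positivity
  set w : E3 → Hn n := slc volume (fun z : Xn n => wY n z.1 z.2 • f z) with hw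
  have hw2 : MemLp w 2 := slc_memLp hwf
  set ξ : E3 → Hn n := fun x => Rpow Q.R (1 / 4) (T' (Us n f Dy x)) with hξ
  set g0 : E3 → Hn n := fun x => (-2 : ℂ) • Rpow Q.R (1 / 4) (w x) with hg0
  set g : E3 → Hn n := fun x => if ‖g0 x‖ ≤ A * ‖ξ x‖ then g0 x else 0 with hg
  have hχ : ∀ x, co n none (Us n f Dy x) = Rpow Q.R (1 / 4) (ξ x) := fun x => by
    rw [hξ, quarter_quarter Q.R_good, ← hT', hJ]
  have hgae : ∀ᵐ x, g x = g0 x := by
    filter_upwards [co_Us_ae hf, slc_ae_ae hwf, slc_ae_ae hf2] with x a1 a2 a3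
    have h1 := W_bound n Q hJ x (Us n f Dy x) (ξ x) (w x) (hχ x) (by
      filter_upwards [a2, a3] with y b1 b2
      rw [b1, a1.1, b2])
    have h2 : ‖g0 x‖ ≤ A * ‖ξ x‖ := by
      rw [hg0]
      simp only [norm_smul]
      have h3 : ‖(-2 : ℂ)‖ = 2 := by simp
      rw [h3, hA]
      nlinarith [norm_nonneg (ξ x)]
    simp only [hg, if_pos h2]
  have hg02 : MemLp g0 2 := ((-2 : ℂ) • Rpow Q.R (1 / 4)).comp_memLp' hw2
  have hg2 : MemLp g 2 := (memLp_congr_ae hgae).2 hg02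
  refine ⟨fun x => co n none (Us n f Dy x), ξ, g, fun i => slc volume (Dx i), ?_, ?_⟩
  · refine ⟨hχ2, ((Rpow Q.R (1 / 4)).comp T').comp_memLp' (Us_memLp hf), hg2,
      fun i => slc_memLp (hx2 i), hχ, weakGrad_slc hf hχae, fun x => ?_,
      (V_chi hv hvm hf hχae (c + 2 * E)).lintegral_lt_top,
      heq_slc hv hvm hf hsol hJ hpi hQ hg2 hgae, fun ζ hζ => ?_⟩
    · simp only [hg]
      split_ifs with h
      · exact h
      · rw [norm_zero]
        positivity
    · refine (energy_slc hv hvm hf hsol hpi hQ hζ).trans ?_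
      gcongr
      rw [hA]
      exact le_add_of_nonneg_right (by positivity)
  · filter_upwards [hχae, slc_ae_ae hf2] with x h1 h2
    rw [h1]
    exact h2

end Pool.Agent.H773.HK
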