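import Pool.Agent.H773.HK.Sob

/-!
# Task FB: form bounds (helper773, project HK)
-/

set_option autoImplicit false

noncomputable section

namespace Pool.Agent.H773.HK

open MeasureTheory Filter Topology Set
open scoped ENNReal NNReal ComplexConjugate
open Pool.Agent.H998.HK

/-! ### The particle coordinates -/

/-- the first particle in `Xn n` -/
def PX (n : ℕ) : Xn n →L[ℝ] E3 := ContinuousLinearMap.fst ℝ E3 (Yn n)
def IX (n : ℕ) : E3 →L[ℝ] Xn n := ContinuousLinearMap.inl ℝ E3 (Yn n)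
/-- the particle `j` in `Yn n` -/
def PY (n : ℕ) (j : Fin n) : Yn n →L[ℝ] E3 := ContinuousLinearMap.proj j
def IY (n : ℕ) (j : Fin n) : E3 →L[ℝ] Yn n := ContinuousLinearMap.single ℝ (fun _ => E3) j
/-- the particle `j` in `Xn n` -/
def PXY (n : ℕ) (j : Fin n) : Xn n →L[ℝ] E3 :=
  (PY n j).comp (ContinuousLinearMap.snd ℝ E3 (Yn n))
def IXY (n : ℕ) (j : Fin n) : E3 →L[ℝ] Xn n :=
  (ContinuousLinearMap.inr ℝ E3 (Yn n)).comp (IY n j)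

lemma PX_IX (n : ℕ) (a : E3) : PX n (IX n a) = a := rfl
lemma PX_apply (n : ℕ) (z : Xn n) : PX n z = z.1 := rfl
lemma IX_eb (n : ℕ) (i : Fin 3) : IX n (eb i) = ex n i := rfl
lemma PY_IY (n : ℕ) (j : Fin n) (a : E3) : PY n j (IY n j a) = a := by
  simp [PY, IY]
lemma PY_apply (n : ℕ) (j : Fin n) (y : Yn n) : PY n j y = y j := rfl
lemma PXY_apply (n : ℕ) (j : Fin n) (z : Xn n) : PXY n j z = z.2 j := rfl
lemma PXY_IXY (n : ℕ) (j : Fin n) (a : E3) : PXY n j (IXY n j a) = a := by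
  simp [PXY, IXY, PY_IY]
lemma IXY_eb (n : ℕ) (j : Fin n) (i : Fin 3) : IXY n j (eb i) = ey n j i := rfl

/-- unit vectors in `Yn n` -/
def eY (n : ℕ) (j : Fin n) (i : Fin 3) : Yn n := Pi.single j (eb i)
lemma IY_eb (n : ℕ) (j : Fin n) (i : Fin 3) : IY n j (eb i) = eY n j i := rfl

/-! ### Integrability of the potential -/

lemma integrable_of_lintegral {α : Type*} [MeasurableSpace α] {μ : Measure α} {f : α → ℂ}
    {ρ : α → ℝ} (hρ : AEStronglyMeasurable ρ μ) (hf : AEStronglyMeasurable f μ)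
    (h : ∫⁻ z, ‖ρ z‖ₑ * ‖f z‖ₑ ^ 2 ∂μ ≠ ∞) : Integrable (fun z => |ρ z| * ‖f z‖ ^ 2) μ := by
  refine ⟨(hρ.norm.mul (hf.norm.pow 2)).congr Filter.EventuallyEq.rfl, ?_⟩
  rw [hasFiniteIntegral_iff_enorm]
  refine lt_of_le_of_lt (lintegral_mono fun z => ?_) (lt_top_iff_ne_top.2 h)
  rw [enorm_mul, enorm_pow, enorm_norm, Real.enorm_abs]

lemma xstar_finite {X : Type} [NormedAddCommGroup X] [NormedSpace ℝ X] [FiniteDimensional ℝ X]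
    [MeasureSpace X] [BorelSpace X] [(volume : Measure X).IsAddHaarMeasure]
    (P : X →L[ℝ] E3) (ι : E3 →L[ℝ] X) (hP : ∀ a, P (ι a) = a) {v : E3 → ℝ} (hv : XStar v)
    (hvm : Measurable v) {u : X → ℂ} {g : Fin 3 → X → ℂ} (hu : MemLp u 2)
    (hg : ∀ i, MemLp (g i) 2) (hw : ∀ i, WDF (ι (eb i)) u (g i)) :
    ∫⁻ z, ‖v (P z)‖ₑ * ‖u z‖ₑ ^ 2 ≠ ∞ := by
  obtain ⟨C, v', hC0, hv', hN, hle⟩ := xstar_split hv hvm one_pos
  refine ne_top_of_le_ne_top ?_ (split_sobolev P ι hP hvm hv' ENNReal.ofReal_ne_top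
    ENNReal.ofReal_ne_top hle hN hu hg hw)
  refine ENNReal.add_ne_top.2 ⟨ENNReal.mul_ne_top ENNReal.ofReal_ne_top (memLp_two_iff.1 hu).2,
    ENNReal.mul_ne_top (ENNReal.mul_ne_top ENNReal.coe_ne_top ENNReal.ofReal_ne_top) ?_⟩
  exact ENNReal.sum_ne_top.2 fun i _ => (memLp_two_iff.1 (hg i)).2

lemma inv_le_one_add_sq (r : ℝ) (hr : 0 ≤ r) : 1 / r ≤ 1 + 1 / r ^ 2 := by
  rcases eq_or_lt_of_le hr with h | h
  · rw [← h]; norm_num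
  · have h1 : 1 / r ^ 2 = (1 / r) ^ 2 := by rw [div_pow, one_pow]
    rw [h1]
    nlinarith [sq_nonneg (1 / r - 1), sq_nonneg (1 / r)]

lemma coulomb_finite {X : Type} [NormedAddCommGroup X] [NormedSpace ℝ X] [FiniteDimensional ℝ X]
    [MeasureSpace X] [BorelSpace X] [(volume : Measure X).IsAddHaarMeasure]
    (P : X →L[ℝ] E3) (e : Fin 3 → X) (hP : ∀ i, P (e i) = eb i) (c : E3) {u : X → ℂ}
    {g : Fin 3 → X → ℂ} (hu : MemLp u 2)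
    (hg : ∀ i, MemLp (g i) 2) (hw : ∀ i, WDF (e i) u (g i)) :
    ∫⁻ z, ‖1 / ‖P z - c‖‖ₑ * ‖u z‖ₑ ^ 2 ≤
      (∫⁻ z, ‖u z‖ₑ ^ 2) + 4 * ∑ i, ∫⁻ z, ‖g i z‖ₑ ^ 2 := by
  calc ∫⁻ z, ‖1 / ‖P z - c‖‖ₑ * ‖u z‖ₑ ^ 2
      ≤ ∫⁻ z, (‖u z‖ₑ ^ 2 + ENNReal.ofReal (1 / ‖P z - c‖ ^ 2) * ‖u z‖ₑ ^ 2) := by
        refine lintegral_mono fun z => ?_
        have h1 : ‖1 / ‖P z - c‖‖ₑ ≤ 1 + ENNReal.ofReal (1 / ‖P z - c‖ ^ 2) := by
          rw [Real.enorm_of_nonneg (by positivity), ← ENNReal.ofReal_one,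
            ← ENNReal.ofReal_add (by norm_num) (by positivity)]
          exact ENNReal.ofReal_le_ofReal (inv_le_one_add_sq _ (norm_nonneg _))
        calc ‖1 / ‖P z - c‖‖ₑ * ‖u z‖ₑ ^ 2 ≤ (1 + ENNReal.ofReal (1 / ‖P z - c‖ ^ 2)) * ‖u z‖ₑ ^ 2 := by
              gcongr
          _ = _ := by ring
    _ = (∫⁻ z, ‖u z‖ₑ ^ 2) + ∫⁻ z, ENNReal.ofReal (1 / ‖P z - c‖ ^ 2) * ‖u z‖ₑ ^ 2 := by
        rw [lintegral_add_left' (hu.1.enorm.pow_const 2)]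
    _ ≤ _ := by
        gcongr
        exact hardy P e hP c hu hg hw

lemma wdf_of_wd {X : Type} [NormedAddCommGroup X] [NormedSpace ℝ X] [MeasureSpace X] {e : X}
    {u g : X → ℂ} (h : WD e u g) : WDF e u g := h

instance (n : ℕ) : (volume : Measure (Xn n)).IsAddHaarMeasure :=
  Measure.prod.instIsAddHaarMeasure _ _

theorem FB1 : S_FB1 := by
  intro n v hv hvm f Dx Dy hf
  have hvx : ∫⁻ z : Xn n, ‖v z.1‖ₑ * ‖f z‖ₑ ^ 2 ≠ ∞ :=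
    xstar_finite (PX n) (IX n) (PX_IX n) hv hvm hf.f2 hf.x2 (fun i => hf.wx i)
  have hvy : ∀ j, ∫⁻ z : Xn n, ‖v (z.2 j)‖ₑ * ‖f z‖ₑ ^ 2 ≠ ∞ := fun j =>
    xstar_finite (PXY n j) (IXY n j) (PXY_IXY n j) hv hvm hf.f2 (hf.y2 j) (fun i => hf.wy j i)
  have hfin : ∀ {g : Fin 3 → Xn n → ℂ}, (∀ i, MemLp (g i) 2) →
      (∫⁻ z, ‖f z‖ₑ ^ 2) + 4 * ∑ i, ∫⁻ z, ‖g i z‖ₑ ^ 2 ≠ ∞ := fun {g} hg =>
    ENNReal.add_ne_top.2 ⟨(memLp_two_iff.1 hf.f2).2, ENNReal.mul_ne_top (by norm_num)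
      (ENNReal.sum_ne_top.2 fun i _ => (memLp_two_iff.1 (hg i)).2)⟩
  have hcx : ∀ j, ∫⁻ z : Xn n, ‖1 / ‖z.1 - z.2 j‖‖ₑ * ‖f z‖ₑ ^ 2 ≠ ∞ := fun j => by
    have h1 := coulomb_finite (X := Xn n) (PX n - PXY n j) (fun i => ex n i) (fun i => by
      simp [PX, PXY, PY, ex]) 0 hf.f2 hf.x2 (fun i => hf.wx i)
    simp only [sub_zero] at h1
    exact ne_top_of_le_ne_top (hfin hf.x2) h1
  have hcy : ∀ j k, j < k → ∫⁻ z : Xn n, ‖1 / ‖z.2 j - z.2 k‖‖ₑ * ‖f z‖ₑ ^ 2 ≠ ∞ := fun j k hjk => by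
    have h1 := coulomb_finite (X := Xn n) (PXY n j - PXY n k) (fun i => ey n j i) (fun i => by
      simp [PXY, PY, ey, Pi.single_eq_of_ne hjk.ne']) 0 hf.f2 (hf.y2 j) (fun i => hf.wy j i)
    simp only [sub_zero] at h1
    exact ne_top_of_le_ne_top (hfin (hf.y2 j)) h1
  have hm1 : ∀ j, Measurable fun z : Xn n => z.2 j := fun j =>
    (measurable_pi_apply j).comp measurable_snd
  have hfm : AEMeasurable (fun z => ‖f z‖ₑ ^ 2) volume := hf.f2.1.enorm.pow_const 2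
  have hmx : Measurable fun z : Xn n => v z.1 := hvm.comp measurable_fst
  have hmy : ∀ j, Measurable fun z : Xn n => v (z.2 j) := fun j => hvm.comp (hm1 j)
  have hmcx : ∀ j, Measurable fun z : Xn n => 1 / ‖z.1 - z.2 j‖ := fun j =>
    measurable_const.div (measurable_fst.sub (hm1 j)).norm
  have hmcy : ∀ j k, Measurable fun z : Xn n => 1 / ‖z.2 j - z.2 k‖ := fun j k =>
    measurable_const.div ((hm1 j).sub (hm1 k)).norm
  have hmcy' : ∀ j k : Fin n, Measurable fun z : Xn n =>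
      if j < k then 1 / ‖z.2 j - z.2 k‖ else (0 : ℝ) := fun j k => by
    split_ifs
    · exact hmcy j k
    · exact measurable_const
  have hpm : Measurable (pot n v) := by
    unfold pot
    exact ((hmx.add (Finset.measurable_sum _ fun j _ => hmy j)).add
      (Finset.measurable_sum _ fun j _ => hmcx j)).add
      (Finset.measurable_sum _ fun j _ => Finset.measurable_sum _ fun k _ => hmcy' j k)
  refine integrable_of_lintegral hpm.aestronglyMeasurable hf.f2.1 ?_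
  have hbd : ∀ z, ‖pot n v z‖ₑ * ‖f z‖ₑ ^ 2 ≤ ‖v z.1‖ₑ * ‖f z‖ₑ ^ 2 +
      ∑ j, ‖v (z.2 j)‖ₑ * ‖f z‖ₑ ^ 2 + ∑ j, ‖1 / ‖z.1 - z.2 j‖‖ₑ * ‖f z‖ₑ ^ 2 +
      ∑ j : Fin n, ∑ k : Fin n, ‖if j < k then 1 / ‖z.2 j - z.2 k‖ else 0‖ₑ * ‖f z‖ₑ ^ 2 := by
    intro z
    simp only [← Finset.sum_mul, ← add_mul]
    gcongr
    unfold pot
    refine (enorm_add_le _ _).trans ?_
    gcongr
    · refine (enorm_add_le _ _).trans ?_
      gcongr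
      · refine (enorm_add_le _ _).trans ?_
        gcongr
        exact enorm_sum_le _ _
      · exact enorm_sum_le _ _
    · refine (enorm_sum_le _ _).trans (Finset.sum_le_sum fun j _ => enorm_sum_le _ _)
  refine ne_top_of_le_ne_top ?_ (lintegral_mono hbd)
  have hA1 : AEMeasurable (fun z : Xn n => ‖v z.1‖ₑ * ‖f z‖ₑ ^ 2) volume :=
    hmx.enorm.aemeasurable.mul hfm
  have hA2 : ∀ j, AEMeasurable (fun z : Xn n => ‖v (z.2 j)‖ₑ * ‖f z‖ₑ ^ 2) volume := fun j =>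
    (hmy j).enorm.aemeasurable.mul hfm
  have hA3 : ∀ j, AEMeasurable (fun z : Xn n => ‖1 / ‖z.1 - z.2 j‖‖ₑ * ‖f z‖ₑ ^ 2) volume :=
    fun j => (hmcx j).enorm.aemeasurable.mul hfm
  have hA4 : ∀ j k : Fin n, AEMeasurable (fun z : Xn n =>
      ‖if j < k then 1 / ‖z.2 j - z.2 k‖ else 0‖ₑ * ‖f z‖ₑ ^ 2) volume :=
    fun j k => (hmcy' j k).enorm.aemeasurable.mul hfm
  have hA4' : ∀ j : Fin n, AEMeasurable (fun z : Xn n =>
      ∑ k : Fin n, ‖if j < k then 1 / ‖z.2 j - z.2 k‖ else 0‖ₑ * ‖f z‖ₑ ^ 2) volume :=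
    fun j => Finset.aemeasurable_fun_sum _ fun k _ => hA4 j k
  have hB2 : AEMeasurable (fun z : Xn n => ∑ j, ‖v (z.2 j)‖ₑ * ‖f z‖ₑ ^ 2) volume :=
    Finset.aemeasurable_fun_sum _ fun j _ => hA2 j
  have hB3 : AEMeasurable (fun z : Xn n => ∑ j, ‖1 / ‖z.1 - z.2 j‖‖ₑ * ‖f z‖ₑ ^ 2) volume :=
    Finset.aemeasurable_fun_sum _ fun j _ => hA3 j
  have hC2 : AEMeasurable (fun z : Xn n => ‖v z.1‖ₑ * ‖f z‖ₑ ^ 2 +
      ∑ j, ‖v (z.2 j)‖ₑ * ‖f z‖ₑ ^ 2) volume := hA1.add hB2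
  have hC3 : AEMeasurable (fun z : Xn n => ‖v z.1‖ₑ * ‖f z‖ₑ ^ 2 +
      ∑ j, ‖v (z.2 j)‖ₑ * ‖f z‖ₑ ^ 2 + ∑ j, ‖1 / ‖z.1 - z.2 j‖‖ₑ * ‖f z‖ₑ ^ 2) volume :=
    hC2.add hB3
  rw [lintegral_add_left' hC3, lintegral_add_left' hC2, lintegral_add_left' hA1,
    lintegral_finsetSum' _ fun j _ => hA2 j, lintegral_finsetSum' _ fun j _ => hA3 j,
    lintegral_finsetSum' _ fun j _ => hA4' j]
  refine ENNReal.add_ne_top.2 ⟨ENNReal.add_ne_top.2 ⟨ENNReal.add_ne_top.2 ⟨hvx,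
    ENNReal.sum_ne_top.2 fun j _ => hvy j⟩, ENNReal.sum_ne_top.2 fun j _ => hcx j⟩,
    ENNReal.sum_ne_top.2 fun j _ => ?_⟩
  rw [lintegral_finsetSum' _ fun k _ => hA4 j k]
  refine ENNReal.sum_ne_top.2 fun k _ => ?_
  by_cases hjk : j < k
  · simp only [hjk, if_true]
    exact hcy j k hjk
  · simp [hjk]

end Pool.Agent.H773.HK
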