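import Pool.Agent.H773.HK.Moll

/-!
# Hardy and Sobolev inequalities in a three-dimensional direction of a finite-dimensional space
(helper773, toolkit for project HK)
-/

set_option autoImplicit false

noncomputable section

namespace Pool.Agent.H773.HK

open MeasureTheory Filter Topology Set
open scoped ENNReal NNReal
open Pool.Agent.H998.HK (Test E3 XStar)


/-- unit vectors of `E3` -/
abbrev eb (i : Fin 3) : E3 := EuclideanSpace.single i (1 : ℝ)

section gen

variable {X : Type} [NormedAddCommGroup X] [NormedSpace ℝ X] [FiniteDimensional ℝ X]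
  [MeasureSpace X] [BorelSpace X] [(volume : Measure X).IsAddHaarMeasure]

section hardy

variable {F : Type*} [NormedAddCommGroup F] [InnerProductSpace ℝ F]

/-- `(P z - c)ᵢ / (‖P z - c‖² + δ²)` has the derivative ... in the direction `e i` -/
lemma hardy_field (P : X →L[ℝ] E3) (e : X) (i : Fin 3) (hP : P e = eb i) (c : E3) (δ : ℝ)
    (hδ : 0 < δ) (z : X) :
    fderiv ℝ (fun z => (P z - c) i / (‖P z - c‖ ^ 2 + δ ^ 2)) z e =
      1 / (‖P z - c‖ ^ 2 + δ ^ 2) - 2 * ((P z - c) i) ^ 2 / (‖P z - c‖ ^ 2 + δ ^ 2) ^ 2 := by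
  have hq : ‖P z - c‖ ^ 2 + δ ^ 2 ≠ 0 := by positivity
  have h0 : HasFDerivAt (fun z => P z - c) P z := P.hasFDerivAt.sub_const c
  have h1 : HasFDerivAt (fun z => (P z - c) i) ((EuclideanSpace.proj i : E3 →L[ℝ] ℝ).comp P) z :=
    ((EuclideanSpace.proj i : E3 →L[ℝ] ℝ).hasFDerivAt).comp z h0
  have h2 : HasFDerivAt (fun z => ‖P z - c‖ ^ 2 + δ ^ 2)
      (2 • (innerSL ℝ (P z - c)).comp P) z := h0.norm_sq.add_const _
  have h3 := h1.mul ((hasDerivAt_inv hq).comp_hasFDerivAt z h2)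
  have h4 : HasFDerivAt (fun z => (P z - c) i / (‖P z - c‖ ^ 2 + δ ^ 2)) _ z := h3
  rw [h4.fderiv]
  have h5 : inner ℝ (P z - c) (eb i) = (P z - c) i := by
    simp [eb, EuclideanSpace.inner_single_right]
  have h6 : (EuclideanSpace.proj i : E3 →L[ℝ] ℝ) (eb i) = 1 := by simp [eb]
  simp only [_root_.add_apply, _root_.smul_apply,
    ContinuousLinearMap.comp_apply, hP, smul_eq_mul, innerSL_apply_apply, h5, h6]
  simp only [nsmul_eq_mul, Nat.cast_ofNat, Function.comp_apply]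
  field_simp
  ring

lemma hardy_field_contDiff (P : X →L[ℝ] E3) (i : Fin 3) (c : E3) (δ : ℝ) (hδ : 0 < δ) :
    ContDiff ℝ 1 (fun z => (P z - c) i / (‖P z - c‖ ^ 2 + δ ^ 2)) := by
  have h0 : ContDiff ℝ 1 (fun z => P z - c) := P.contDiff.sub contDiff_const
  refine ContDiff.div ?_ ((h0.norm_sq ℝ).add contDiff_const) (fun z => by positivity)
  exact (EuclideanSpace.proj i : E3 →L[ℝ] ℝ).contDiff.comp h0

theorem hardy_delta (P : X →L[ℝ] E3) (e : Fin 3 → X) (hP : ∀ i, P (e i) = eb i) (c : E3)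
    {δ : ℝ} (hδ : 0 < δ) {f : X → F} (hf : ContDiff ℝ 1 f) (hs : HasCompactSupport f) :
    ∫ z, ‖f z‖ ^ 2 / (‖P z - c‖ ^ 2 + δ ^ 2) ≤ 4 * ∑ i, ∫ z, ‖fderiv ℝ f z (e i)‖ ^ 2 := by
  set q : X → ℝ := fun z => ‖P z - c‖ ^ 2 + δ ^ 2 with hq
  have hqpos : ∀ z, 0 < q z := fun z => by positivity
  set h : Fin 3 → X → ℝ := fun i z => (P z - c) i / q z with hh
  set G : X → ℝ := fun z => ‖f z‖ ^ 2 with hG
  have hGc : ContDiff ℝ 1 G := hf.norm_sq ℝ
  have hGs : HasCompactSupport G := by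
    refine hs.mono fun z hz => ?_
    simp only [hG, Function.mem_support, ne_eq] at hz ⊢
    intro h0
    apply hz
    simp [h0]
  have hhc : ∀ i, ContDiff ℝ 1 (h i) := fun i => hardy_field_contDiff P i c δ hδ
  have hqc : Continuous q := by
    have : Continuous fun z => P z - c := P.continuous.sub continuous_const
    exact (this.norm.pow 2).add continuous_const
  have hdf : ∀ i, Continuous fun z => fderiv ℝ f z (e i) := fun i =>
    (hf.continuous_fderiv one_ne_zero).clm_apply continuous_const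
  have hdfs : ∀ i, HasCompactSupport fun z => fderiv ℝ f z (e i) := fun i =>
    hs.fderiv_apply ℝ (e i)
  have hdG : ∀ i z, fderiv ℝ G z (e i) = 2 * inner ℝ (f z) (fderiv ℝ f z (e i)) := by
    intro i z
    have := ((hf.differentiable one_ne_zero) z).hasFDerivAt.norm_sq
    rw [show fderiv ℝ G z = _ from this.fderiv]
    simp
  have hdGc : ∀ i, Continuous fun z => fderiv ℝ G z (e i) := fun i =>
    (hGc.continuous_fderiv one_ne_zero).clm_apply continuous_const
  have hdhc : ∀ i, Continuous fun z => fderiv ℝ (h i) z (e i) := fun i =>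
    ((hhc i).continuous_fderiv one_ne_zero).clm_apply continuous_const
  have hI1 : ∀ i, Integrable fun z => fderiv ℝ (h i) z (e i) * G z := fun i =>
    ((hdhc i).mul hGc.continuous).integrable_of_hasCompactSupport hGs.mul_left
  have hI2 : ∀ i, Integrable fun z => h i z * fderiv ℝ G z (e i) := fun i =>
    ((hhc i).continuous.mul (hdGc i)).integrable_of_hasCompactSupport
      (hGs.fderiv_apply ℝ (e i)).mul_left
  have hI3 : ∀ i, Integrable fun z => h i z * G z := fun i =>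
    ((hhc i).continuous.mul hGc.continuous).integrable_of_hasCompactSupport hGs.mul_left
  have hI4 : Integrable fun z => G z / q z := by
    have : Continuous fun z => G z / q z := hGc.continuous.div hqc fun z => (hqpos z).ne'
    refine this.integrable_of_hasCompactSupport (hGs.mono fun z hz => ?_)
    simp only [Function.mem_support, ne_eq] at hz ⊢
    intro h0
    apply hz
    simp [h0]
  have hI5 : ∀ i, Integrable fun z => ‖fderiv ℝ f z (e i)‖ ^ 2 := fun i => by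
    have h1 : Continuous fun z => ‖fderiv ℝ f z (e i)‖ ^ 2 := (hdf i).norm.pow 2
    refine h1.integrable_of_hasCompactSupport ((hdfs i).mono fun z hz => ?_)
    simp only [Function.mem_support, ne_eq] at hz ⊢
    intro h0
    apply hz
    simp [h0]
  have hparts : ∀ i, ∫ z, h i z * fderiv ℝ G z (e i) = -∫ z, fderiv ℝ (h i) z (e i) * G z :=
    fun i => integral_mul_fderiv_eq_neg_fderiv_mul_of_integrable (hI1 i) (hI2 i) (hI3 i)
      (fun z _ => (hhc i).differentiable one_ne_zero z)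
      (fun z _ => hGc.differentiable one_ne_zero z)
  have hsum : ∀ z, ∑ i, ((P z - c) i) ^ 2 = ‖P z - c‖ ^ 2 := fun z => by
    rw [EuclideanSpace.norm_sq_eq]
    simp
  have h1 : ∫ z, G z / q z ≤ ∑ i, ∫ z, fderiv ℝ (h i) z (e i) * G z := by
    rw [← integral_finsetSum _ fun i _ => hI1 i]
    refine integral_mono hI4 (integrable_finsetSum _ fun i _ => hI1 i) fun z => ?_
    show G z / q z ≤ ∑ i, fderiv ℝ (h i) z (e i) * G z
    have h2 : ∑ i, fderiv ℝ (h i) z (e i) = 3 / q z - 2 * ‖P z - c‖ ^ 2 / q z ^ 2 := by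
      have h3 : ∀ i, fderiv ℝ (h i) z (e i) = 1 / q z - 2 * ((P z - c) i) ^ 2 / q z ^ 2 :=
        fun i => hardy_field P (e i) i (hP i) c δ hδ z
      simp only [h3, Finset.sum_sub_distrib, ← Finset.sum_div, ← Finset.mul_sum, hsum]
      simp
    rw [← Finset.sum_mul, h2]
    have h4 : 1 / q z ≤ 3 / q z - 2 * ‖P z - c‖ ^ 2 / q z ^ 2 := by
      have h5 : 2 * ‖P z - c‖ ^ 2 / q z ^ 2 ≤ 2 / q z := by
        rw [div_le_div_iff₀ (by have := hqpos z; positivity) (hqpos z)]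
        have h6 : ‖P z - c‖ ^ 2 ≤ q z := by
          simp only [hq]
          nlinarith [sq_nonneg δ]
        have := hqpos z
        nlinarith [mul_le_mul_of_nonneg_right h6 this.le]
      have h6 : 3 / q z = 1 / q z + 2 / q z := by ring
      linarith
    calc G z / q z = 1 / q z * G z := by ring
      _ ≤ _ := mul_le_mul_of_nonneg_right h4 (by simp only [hG]; positivity)
  have h2 : ∑ i, ∫ z, fderiv ℝ (h i) z (e i) * G z ≤
      (1 / 2) * (∫ z, G z / q z) + 2 * ∑ i, ∫ z, ‖fderiv ℝ f z (e i)‖ ^ 2 := by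
    have h3 : ∑ i, ∫ z, fderiv ℝ (h i) z (e i) * G z
        = ∫ z, ∑ i, -(h i z * fderiv ℝ G z (e i)) := by
      have h3' : ∀ i ∈ Finset.univ, Integrable fun z => -(h i z * fderiv ℝ G z (e i)) :=
        fun i _ => (hI2 i).neg
      rw [integral_finsetSum _ h3']
      refine Finset.sum_congr rfl fun i _ => ?_
      rw [integral_neg, hparts i, neg_neg]
    have h4 : (1 / 2) * (∫ z, G z / q z) + 2 * ∑ i, ∫ z, ‖fderiv ℝ f z (e i)‖ ^ 2 =
        ∫ z, ((1 / 2) * (G z / q z) + ∑ i, 2 * ‖fderiv ℝ f z (e i)‖ ^ 2) := by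
      rw [integral_add (hI4.const_mul _) (integrable_finsetSum _ fun i _ => (hI5 i).const_mul 2),
        integral_const_mul, integral_finsetSum _ fun i _ => (hI5 i).const_mul 2, Finset.mul_sum]
      congr 1
      exact Finset.sum_congr rfl fun i _ => (integral_const_mul _ _).symm
    rw [h3, h4]
    refine integral_mono (integrable_finsetSum _ fun i _ => (hI2 i).neg)
      ((hI4.const_mul _).add (integrable_finsetSum _ fun i _ => (hI5 i).const_mul 2))
      fun z => ?_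
    show ∑ i, -(h i z * fderiv ℝ G z (e i)) ≤
      (1 / 2) * (G z / q z) + ∑ i, 2 * ‖fderiv ℝ f z (e i)‖ ^ 2
    have h5 : ∀ i, -(h i z * fderiv ℝ G z (e i)) ≤
        (1 / 2) * (h i z ^ 2 * G z) + 2 * ‖fderiv ℝ f z (e i)‖ ^ 2 := by
      intro i
      rw [hdG]
      have h6 : |inner ℝ (f z) (fderiv ℝ f z (e i))| ≤ ‖f z‖ * ‖fderiv ℝ f z (e i)‖ :=
        abs_real_inner_le_norm _ _
      have h7 : -(h i z * (2 * inner ℝ (f z) (fderiv ℝ f z (e i)))) ≤
          2 * (|h i z| * (‖f z‖ * ‖fderiv ℝ f z (e i)‖)) := by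
        calc -(h i z * (2 * inner ℝ (f z) (fderiv ℝ f z (e i))))
            ≤ |h i z * (2 * inner ℝ (f z) (fderiv ℝ f z (e i)))| := neg_le_abs _
          _ = 2 * (|h i z| * |inner ℝ (f z) (fderiv ℝ f z (e i))|) := by
              rw [abs_mul, abs_mul, abs_two]; ring
          _ ≤ _ := by gcongr
      have h8 : (0:ℝ) ≤ (|h i z| * ‖f z‖ - 2 * ‖fderiv ℝ f z (e i)‖) ^ 2 := sq_nonneg _
      have h9 : |h i z| ^ 2 = h i z ^ 2 := sq_abs _
      simp only [hG]
      nlinarith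
    refine (Finset.sum_le_sum fun i _ => h5 i).trans ?_
    rw [Finset.sum_add_distrib, ← Finset.mul_sum, ← Finset.sum_mul]
    gcongr
    have h6 : ∑ i, h i z ^ 2 = ‖P z - c‖ ^ 2 / q z ^ 2 := by
      simp only [hh, div_pow, ← Finset.sum_div, hsum]
    rw [h6]
    have h7 : ‖P z - c‖ ^ 2 / q z ^ 2 ≤ 1 / q z := by
      rw [div_le_div_iff₀ (by have := hqpos z; positivity) (hqpos z)]
      have h6 : ‖P z - c‖ ^ 2 ≤ q z := by
        simp only [hq]
        nlinarith [sq_nonneg δ]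
      have := hqpos z
      nlinarith [mul_le_mul_of_nonneg_right h6 this.le]
    calc ‖P z - c‖ ^ 2 / q z ^ 2 * G z ≤ 1 / q z * G z :=
          mul_le_mul_of_nonneg_right h7 (by simp only [hG]; positivity)
      _ = G z / q z := by ring
  linarith

theorem hardy_test (P : X →L[ℝ] E3) (e : Fin 3 → X) (hP : ∀ i, P (e i) = eb i) (c : E3)
    {f : X → F} (hf : ContDiff ℝ 1 f) (hs : HasCompactSupport f) :
    ∫⁻ z, ENNReal.ofReal (1 / ‖P z - c‖ ^ 2) * ‖f z‖ₑ ^ 2 ≤
      4 * ∑ i, ∫⁻ z, ‖fderiv ℝ f z (e i)‖ₑ ^ 2 := by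
  have hdf : ∀ i, Continuous fun z => fderiv ℝ f z (e i) := fun i =>
    (hf.continuous_fderiv one_ne_zero).clm_apply continuous_const
  have hI5 : ∀ i, Integrable fun z => ‖fderiv ℝ f z (e i)‖ ^ 2 := fun i => by
    have h1 : Continuous fun z => ‖fderiv ℝ f z (e i)‖ ^ 2 := (hdf i).norm.pow 2
    refine h1.integrable_of_hasCompactSupport ((hs.fderiv_apply ℝ (e i)).mono fun z hz => ?_)
    simp only [Function.mem_support, ne_eq] at hz ⊢
    intro h0
    apply hz
    simp [h0]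
  have hconv : ∀ {G : Type _} [NormedAddCommGroup G] (a : G), ‖a‖ₑ ^ 2 = ENNReal.ofReal (‖a‖ ^ 2) :=
    fun a => by rw [ENNReal.ofReal_pow (norm_nonneg _), ofReal_norm]
  have hR : ENNReal.ofReal (4 * ∑ i, ∫ z, ‖fderiv ℝ f z (e i)‖ ^ 2) =
      4 * ∑ i, ∫⁻ z, ‖fderiv ℝ f z (e i)‖ₑ ^ 2 := by
    rw [ENNReal.ofReal_mul (by norm_num), ENNReal.ofReal_sum_of_nonneg
      (fun i _ => integral_nonneg fun z => by positivity)]
    congr 1
    · norm_num
    · refine Finset.sum_congr rfl fun i _ => ?_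
      rw [ofReal_integral_eq_lintegral_ofReal (hI5 i) (ae_of_all _ fun z => by positivity)]
      exact lintegral_congr fun z => (hconv _).symm
  let δ : ℕ → ℝ := fun n => 1 / ((n : ℝ) + 1)
  have hδ : ∀ n, 0 < δ n := fun n => by positivity
  have hδ0 : Tendsto δ atTop (𝓝 0) := tendsto_one_div_add_atTop_nhds_zero_nat
  have hPc : Continuous fun z => P z - c := P.continuous.sub continuous_const
  have hbound : ∀ n, ∫⁻ z, ENNReal.ofReal (‖f z‖ ^ 2 / (‖P z - c‖ ^ 2 + δ n ^ 2)) ≤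
      4 * ∑ i, ∫⁻ z, ‖fderiv ℝ f z (e i)‖ₑ ^ 2 := by
    intro n
    have hq : Continuous fun z => ‖P z - c‖ ^ 2 + δ n ^ 2 := (hPc.norm.pow 2).add continuous_const
    have hc : Continuous fun z => ‖f z‖ ^ 2 / (‖P z - c‖ ^ 2 + δ n ^ 2) :=
      (hf.continuous.norm.pow 2).div hq fun z => by
        have := hδ n
        positivity
    have hi : Integrable fun z => ‖f z‖ ^ 2 / (‖P z - c‖ ^ 2 + δ n ^ 2) := by
      refine hc.integrable_of_hasCompactSupport (hs.mono fun z hz => ?_)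
      simp only [Function.mem_support, ne_eq] at hz ⊢
      intro h0
      apply hz
      simp [h0]
    rw [← ofReal_integral_eq_lintegral_ofReal hi (ae_of_all _ fun z => by positivity), ← hR]
    exact ENNReal.ofReal_le_ofReal (hardy_delta P e hP c (hδ n) hf hs)
  calc ∫⁻ z, ENNReal.ofReal (1 / ‖P z - c‖ ^ 2) * ‖f z‖ₑ ^ 2
      ≤ ∫⁻ z, liminf (fun n => ENNReal.ofReal (‖f z‖ ^ 2 / (‖P z - c‖ ^ 2 + δ n ^ 2))) atTop := by
        refine lintegral_mono fun z => ?_
        by_cases hz : P z - c = 0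
        · simp [hz]
        · have h1 : Tendsto (fun n => ENNReal.ofReal (‖f z‖ ^ 2 / (‖P z - c‖ ^ 2 + δ n ^ 2))) atTop
              (𝓝 (ENNReal.ofReal (‖f z‖ ^ 2 / (‖P z - c‖ ^ 2 + 0 ^ 2)))) := by
            refine ENNReal.tendsto_ofReal (Tendsto.div tendsto_const_nhds
              (tendsto_const_nhds.add (hδ0.pow 2)) ?_)
            have : ‖P z - c‖ ≠ 0 := by simpa using hz
            positivity
          rw [h1.liminf_eq, hconv, ← ENNReal.ofReal_mul (by positivity)]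
          refine ENNReal.ofReal_le_ofReal (le_of_eq ?_)
          simp
          ring
    _ ≤ liminf (fun n => ∫⁻ z, ENNReal.ofReal (‖f z‖ ^ 2 / (‖P z - c‖ ^ 2 + δ n ^ 2))) atTop := by
        refine lintegral_liminf_le fun n => ?_
        refine ENNReal.measurable_ofReal.comp ?_
        exact ((hf.continuous.norm.pow 2).measurable).div
          ((hPc.norm.pow 2).add continuous_const).measurable
    _ ≤ _ := liminf_le_of_frequently_le' (Frequently.of_forall hbound)

end hardy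

/-! ### Transfer of weighted `L²` inequalities from test functions to Sobolev functions -/

lemma sq_le_tendsto {α : Type*} [MeasurableSpace α] {μ : Measure α} {G : Type*}
    [NormedAddCommGroup G] {a : ℕ → α → G} {b : α → G} (ha : ∀ n, AEStronglyMeasurable (a n) μ)
    (hb : AEStronglyMeasurable b μ)
    (hlim : Tendsto (fun n => ∫⁻ x, ‖a n x - b x‖ₑ ^ 2 ∂μ) atTop (𝓝 0)) :
    ∃ R : ℕ → ℝ≥0∞, (∀ n, ∫⁻ x, ‖a n x‖ₑ ^ 2 ∂μ ≤ R n) ∧
      Tendsto R atTop (𝓝 (∫⁻ x, ‖b x‖ₑ ^ 2 ∂μ)) := by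
  have h0 : Tendsto (fun n => eLpNorm (a n - b) 2 μ) atTop (𝓝 0) := by
    have h1 : ∀ n, eLpNorm (a n - b) 2 μ = (∫⁻ x, ‖a n x - b x‖ₑ ^ 2 ∂μ) ^ (1 / 2 : ℝ) := by
      intro n
      have := sq_eq_eLpNorm (μ := μ) (a n - b)
      simp only [Pi.sub_apply] at this
      rw [this, ← ENNReal.rpow_natCast, ← ENNReal.rpow_mul]
      norm_num
    simp only [h1]
    have h2 := (ENNReal.continuous_rpow_const (y := (1 / 2 : ℝ))).tendsto (0 : ℝ≥0∞)
    have h3 := h2.comp hlim
    rw [ENNReal.zero_rpow_of_pos (by norm_num)] at h3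
    exact h3
  refine ⟨fun n => (eLpNorm b 2 μ + eLpNorm (a n - b) 2 μ) ^ 2, fun n => ?_, ?_⟩
  · rw [sq_eq_eLpNorm]
    refine pow_le_pow_left' ?_ 2
    have : a n = b + (a n - b) := by simp
    calc eLpNorm (a n) 2 μ = eLpNorm (b + (a n - b)) 2 μ := by rw [← this]
      _ ≤ _ := eLpNorm_add_le hb ((ha n).sub hb) (by norm_num)
  · rw [sq_eq_eLpNorm]
    have h1 : Tendsto (fun n => eLpNorm b 2 μ + eLpNorm (a n - b) 2 μ) atTop
        (𝓝 (eLpNorm b 2 μ + 0)) := tendsto_const_nhds.add h0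
    rw [add_zero] at h1
    exact (ENNReal.continuous_pow 2).continuousAt.tendsto.comp h1

theorem transfer {F : Type*} [NormedAddCommGroup F] [NormedSpace ℝ F] [CompleteSpace F]
    {ι : Type*} [Fintype ι] {e : ι → X} {ρ : X → ℝ≥0∞}
    (hρ : AEMeasurable ρ) (hρfin : ∀ z, ρ z ≠ ∞) {C₀ C₁ : ℝ≥0∞} (hC0 : C₀ ≠ ∞) (hC1 : C₁ ≠ ∞)
    (H : ∀ w : X → F, ContDiff ℝ ((⊤ : ℕ∞) : WithTop ℕ∞) w → HasCompactSupport w →
      ∫⁻ z, ρ z * ‖w z‖ₑ ^ 2 ≤ C₀ * (∫⁻ z, ‖w z‖ₑ ^ 2) +
        C₁ * ∑ i, ∫⁻ z, ‖fderiv ℝ w z (e i)‖ₑ ^ 2)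
    {u : X → F} {g : ι → X → F} (hu : MemLp u 2) (hg : ∀ i, MemLp (g i) 2)
    (h : ∀ i, WDF (e i) u (g i)) :
    ∫⁻ z, ρ z * ‖u z‖ₑ ^ 2 ≤ C₀ * (∫⁻ z, ‖u z‖ₑ ^ 2) + C₁ * ∑ i, ∫⁻ z, ‖g i z‖ₑ ^ 2 := by
  have hlu : LocallyIntegrable u := hu.locallyIntegrable (by norm_num)
  have hwm : ∀ n, AEStronglyMeasurable (appr n u) volume := fun n =>
    (appr_contDiff n hlu).continuous.aestronglyMeasurable
  have hdm : ∀ i n, AEStronglyMeasurable (fun z => fderiv ℝ (appr n u) z (e i)) volume :=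
    fun i n => ((((appr_contDiff n hlu).continuous_fderiv (by simp)).clm_apply
      continuous_const).aestronglyMeasurable)
  obtain ⟨R, hR1, hR2⟩ := sq_le_tendsto hwm hu.1 (appr_tendsto hu)
  have h2 := fun i => sq_le_tendsto (hdm i) (hg i).1 (appr_fderiv_tendsto hu (hg i) (h i))
  choose S hS1 hS2 using h2
  have hlim : Tendsto (fun n => C₀ * R n + C₁ * ∑ i, S i n) atTop
      (𝓝 (C₀ * (∫⁻ z, ‖u z‖ₑ ^ 2) + C₁ * ∑ i, ∫⁻ z, ‖g i z‖ₑ ^ 2)) := by
    refine (ENNReal.Tendsto.const_mul hR2 (Or.inr hC0)).add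
      (ENNReal.Tendsto.const_mul ?_ (Or.inr hC1))
    exact tendsto_finsetSum _ fun i _ => hS2 i
  calc ∫⁻ z, ρ z * ‖u z‖ₑ ^ 2 = ∫⁻ z, liminf (fun n => ρ z * ‖appr n u z‖ₑ ^ 2) atTop := by
        refine lintegral_congr_ae ?_
        filter_upwards [appr_ae_tendsto hlu] with z hz
        have h1 : Tendsto (fun n => ρ z * ‖appr n u z‖ₑ ^ 2) atTop (𝓝 (ρ z * ‖u z‖ₑ ^ 2)) :=
          ENNReal.Tendsto.const_mul ((ENNReal.continuous_pow 2).continuousAt.tendsto.comp
            ((continuous_enorm.tendsto _).comp hz)) (Or.inr (hρfin z))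
        exact h1.liminf_eq.symm
    _ ≤ liminf (fun n => ∫⁻ z, ρ z * ‖appr n u z‖ₑ ^ 2) atTop :=
        lintegral_liminf_le' fun n => hρ.mul ((hwm n).enorm.pow_const 2)
    _ ≤ liminf (fun n => C₀ * R n + C₁ * ∑ i, S i n) atTop := by
        refine liminf_le_liminf (Eventually.of_forall fun n => ?_)
        refine (H _ (appr_contDiff n hlu) (appr_hasCompactSupport n u)).trans ?_
        gcongr with i _
        · exact hR1 n
        · exact hS1 i n
    _ = _ := hlim.liminf_eq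

/-- Hardy's inequality for Sobolev functions -/
theorem hardy {F : Type*} [NormedAddCommGroup F] [InnerProductSpace ℝ F] [CompleteSpace F]
    (P : X →L[ℝ] E3) (e : Fin 3 → X) (hP : ∀ i, P (e i) = eb i) (c : E3)
    {u : X → F} {g : Fin 3 → X → F} (hu : MemLp u 2) (hg : ∀ i, MemLp (g i) 2)
    (h : ∀ i, WDF (e i) u (g i)) :
    ∫⁻ z, ENNReal.ofReal (1 / ‖P z - c‖ ^ 2) * ‖u z‖ₑ ^ 2 ≤ 4 * ∑ i, ∫⁻ z, ‖g i z‖ₑ ^ 2 := by
  have h1 := transfer (X := X) (ρ := fun z => ENNReal.ofReal (1 / ‖P z - c‖ ^ 2)) (C₀ := 0)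
    (C₁ := 4) (e := e) ?_ (fun z => ENNReal.ofReal_ne_top) (by norm_num) (by norm_num) ?_ hu hg h
  · simpa using h1
  · have hPc : Continuous fun z => P z - c := P.continuous.sub continuous_const
    exact (ENNReal.measurable_ofReal.comp
      (measurable_const.div (hPc.norm.pow 2).measurable)).aemeasurable
  · intro w hw hws
    rw [zero_mul, zero_add]
    exact hardy_test P e hP c (hw.of_le (by exact_mod_cast le_top)) hws

end gen

end Pool.Agent.H773.HK
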