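import Pool.Agent.H773.HK.FB

/-!
# Slices of `L²` functions on product spaces (helper773, project HK)
-/

set_option autoImplicit false

noncomputable section

namespace Pool.Agent.H773.HK

open MeasureTheory Filter Topology Set
open scoped ENNReal NNReal ComplexConjugate
open Pool.Agent.H998.HK


instance factTwoNeTop : Fact ((2 : ℝ≥0∞) ≠ ∞) := ⟨by norm_num⟩

lemma measurable_of_dist {α M : Type*} [MeasurableSpace α] [PseudoMetricSpace M]
    [SecondCountableTopology M] [MeasurableSpace M] [BorelSpace M] {U : α → M}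
    (h : ∀ c, Measurable fun x => dist (U x) c) : Measurable U := by
  rcases isEmpty_or_nonempty α with hα | ⟨⟨a⟩⟩
  · exact measurable_of_empty _
  haveI : Nonempty M := ⟨U a⟩
  refine measurable_of_isOpen fun O hO => ?_
  have h1 : U ⁻¹' O = ⋃ (k : ℕ) (r : ℚ) (_ : Metric.ball (TopologicalSpace.denseSeq M k) r ⊆ O),
      {x | dist (U x) (TopologicalSpace.denseSeq M k) < r} := by
    ext x
    simp only [mem_preimage, mem_iUnion, mem_ofPred_eq, exists_prop]
    constructor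
    · intro hx
      obtain ⟨ε, hε, hball⟩ := Metric.isOpen_iff.1 hO (U x) hx
      obtain ⟨k, hk⟩ := (TopologicalSpace.denseRange_denseSeq M).exists_dist_lt (U x)
        (half_pos hε)
      obtain ⟨r, hr1, hr2⟩ := exists_rat_btwn hk
      refine ⟨k, r, fun z hz => hball ?_, hr1⟩
      rw [Metric.mem_ball] at hz ⊢
      calc dist z (U x) ≤ dist z (TopologicalSpace.denseSeq M k) +
            dist (TopologicalSpace.denseSeq M k) (U x) := dist_triangle _ _ _
        _ < ε / 2 + ε / 2 := by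
            rw [dist_comm (TopologicalSpace.denseSeq M k)]
            exact add_lt_add (hz.trans hr2) hk
        _ = ε := by ring
    · rintro ⟨k, r, hsub, hr⟩
      exact hsub hr
  rw [h1]
  refine MeasurableSet.iUnion fun k => MeasurableSet.iUnion fun r => MeasurableSet.iUnion fun _ => ?_
  exact measurableSet_lt (h _) measurable_const

section slice

variable {α β : Type} [MeasurableSpace α] [MeasurableSpace β] {μ : Measure α} {ν : Measure β}
  [SFinite μ] [SFinite ν] [IsSeparable ν]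

open Classical in
/-- the slice `f(x, ·)` -/
def slc (ν : Measure β) (f : α × β → ℂ) (x : α) : Lp ℂ 2 ν :=
  if h : MemLp (fun y => f (x, y)) 2 ν then h.toLp else 0

omit [SFinite ν] [IsSeparable ν] in
lemma slc_ae {f : α × β → ℂ} {x : α} (h : MemLp (fun y => f (x, y)) 2 ν) :
    (slc ν f x : β → ℂ) =ᵐ[ν] fun y => f (x, y) := by
  rw [slc, dif_pos h]
  exact h.coeFn_toLp

omit [IsSeparable ν] in
lemma memLp_slice {f : α × β → ℂ} (hf : MemLp f 2 (μ.prod ν)) :
    ∀ᵐ x ∂μ, MemLp (fun y => f (x, y)) 2 ν := by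
  obtain ⟨h1, h2⟩ := memLp_two_iff.1 hf
  have h3 : ∀ᵐ x ∂μ, AEStronglyMeasurable (fun y => f (x, y)) ν := h1.prodMk_left
  have h4 : ∫⁻ x, ∫⁻ y, ‖f (x, y)‖ₑ ^ 2 ∂ν ∂μ ≠ ∞ := by
    rw [← lintegral_prod _ (h1.enorm.pow_const 2)]
    exact h2
  have h5 : ∀ᵐ x ∂μ, ∫⁻ y, ‖f (x, y)‖ₑ ^ 2 ∂ν < ∞ :=
    ae_lt_top' ((h1.enorm.pow_const 2).lintegral_prod_right') h4
  filter_upwards [h3, h5] with x hx3 hx5
  exact memLp_two_iff.2 ⟨hx3, hx5.ne⟩

omit [IsSeparable ν] in
lemma slc_ae_ae {f : α × β → ℂ} (hf : MemLp f 2 (μ.prod ν)) :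
    ∀ᵐ x ∂μ, (slc ν f x : β → ℂ) =ᵐ[ν] fun y => f (x, y) := by
  filter_upwards [memLp_slice hf] with x hx
  exact slc_ae hx

omit [SFinite ν] [IsSeparable ν] in
lemma Lp_enorm_sq (h : Lp ℂ 2 ν) : ‖h‖ₑ ^ 2 = ∫⁻ y, ‖h y‖ₑ ^ 2 ∂ν := by
  rw [sq_eq_eLpNorm, Lp.enorm_def]

omit [SFinite ν] [IsSeparable ν] in
lemma Lp_enorm_sq_of_ae {h : Lp ℂ 2 ν} {f : β → ℂ} (hf : (h : β → ℂ) =ᵐ[ν] f) :
    ‖h‖ₑ ^ 2 = ∫⁻ y, ‖f y‖ₑ ^ 2 ∂ν := by
  rw [Lp_enorm_sq]
  refine lintegral_congr_ae ?_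
  filter_upwards [hf] with y hy
  rw [hy]

lemma slc_measurable {f : α × β → ℂ} (hf : StronglyMeasurable f) :
    StronglyMeasurable (slc ν f) := by
  letI : MeasurableSpace (Lp ℂ 2 ν) := borel _
  haveI : BorelSpace (Lp ℂ 2 ν) := ⟨rfl⟩
  suffices h : Measurable (slc ν f) from h.stronglyMeasurable
  refine measurable_of_dist fun c => ?_
  have hN : Measurable fun x => ∫⁻ y, ‖f (x, y)‖ₑ ^ 2 ∂ν :=
    Measurable.lintegral_prod_right' (f := fun z : α × β => ‖f z‖ₑ ^ 2) (hf.enorm.pow_const 2)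
  have hc : StronglyMeasurable fun z : α × β => (c : β → ℂ) z.2 :=
    (Lp.stronglyMeasurable c).comp_measurable measurable_snd
  have hD : Measurable fun x => ∫⁻ y, ‖f (x, y) - c y‖ₑ ^ 2 ∂ν :=
    Measurable.lintegral_prod_right' (f := fun z : α × β => ‖f z - c z.2‖ₑ ^ 2)
      ((hf.sub hc).enorm.pow_const 2)
  have hS : MeasurableSet {x | ∫⁻ y, ‖f (x, y)‖ₑ ^ 2 ∂ν < ∞} := measurableSet_lt hN measurable_const
  have h1 : (fun x => dist (slc ν f x) c) = fun x =>
      if x ∈ {x | ∫⁻ y, ‖f (x, y)‖ₑ ^ 2 ∂ν < ∞} then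
        √(∫⁻ y, ‖f (x, y) - c y‖ₑ ^ 2 ∂ν).toReal else ‖c‖ := by
    ext x
    have hx : StronglyMeasurable fun y => f (x, y) := hf.comp_measurable measurable_prodMk_left
    split_ifs with hmem
    · have hL : MemLp (fun y => f (x, y)) 2 ν :=
        memLp_two_iff.2 ⟨hx.aestronglyMeasurable, (show _ < _ from hmem).ne⟩
      have h2 : ‖slc ν f x - c‖ₑ ^ 2 = ∫⁻ y, ‖f (x, y) - c y‖ₑ ^ 2 ∂ν := by
        refine Lp_enorm_sq_of_ae ?_
        filter_upwards [Lp.coeFn_sub (slc ν f x) c, slc_ae hL] with y hy1 hy2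
        rw [hy1, Pi.sub_apply, hy2]
      rw [← h2, dist_eq_norm, ENNReal.toReal_pow, toReal_enorm, Real.sqrt_sq (norm_nonneg _)]
    · have hL : ¬ MemLp (fun y => f (x, y)) 2 ν := by
        intro hL
        exact hmem (lt_top_iff_ne_top.2 (memLp_two_iff.1 hL).2)
      rw [slc, dif_neg hL, dist_eq_norm, zero_sub, norm_neg]
  rw [h1]
  exact Measurable.ite hS (hD.ennreal_toReal.sqrt) measurable_const

lemma slc_aestronglyMeasurable {f : α × β → ℂ} (hf : MemLp f 2 (μ.prod ν)) :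
    AEStronglyMeasurable (slc ν f) μ := by
  obtain ⟨f', hf'm, hff'⟩ := hf.1
  refine ⟨slc ν f', slc_measurable hf'm, ?_⟩
  have hf' : MemLp f' 2 (μ.prod ν) := hf.ae_eq hff'
  filter_upwards [slc_ae_ae hf, slc_ae_ae hf', Measure.ae_ae_of_ae_prod hff'] with x h1 h2 h3
  refine Lp.ext ?_
  filter_upwards [h1, h2, h3] with y hy1 hy2 hy3
  rw [hy1, hy2, hy3]

lemma slc_lintegral {f : α × β → ℂ} (hf : MemLp f 2 (μ.prod ν)) :
    ∫⁻ x, ‖slc ν f x‖ₑ ^ 2 ∂μ = ∫⁻ z, ‖f z‖ₑ ^ 2 ∂(μ.prod ν) := by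
  rw [lintegral_prod _ (hf.1.enorm.pow_const 2)]
  refine lintegral_congr_ae ?_
  filter_upwards [slc_ae_ae hf] with x hx
  exact Lp_enorm_sq_of_ae hx

lemma slc_memLp {f : α × β → ℂ} (hf : MemLp f 2 (μ.prod ν)) : MemLp (slc ν f) 2 μ :=
  memLp_two_iff.2 ⟨slc_aestronglyMeasurable hf, by
    rw [slc_lintegral hf]; exact (memLp_two_iff.1 hf).2⟩

lemma slc_sub_lintegral {f g : α × β → ℂ} (hf : MemLp f 2 (μ.prod ν))
    (hg : MemLp g 2 (μ.prod ν)) :
    ∫⁻ x, ‖slc ν f x - slc ν g x‖ₑ ^ 2 ∂μ = ∫⁻ z, ‖f z - g z‖ₑ ^ 2 ∂(μ.prod ν) := by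
  rw [lintegral_prod (fun z => ‖f z - g z‖ₑ ^ 2) ((hf.1.sub hg.1).enorm.pow_const 2)]
  refine lintegral_congr_ae ?_
  filter_upwards [slc_ae_ae hf, slc_ae_ae hg] with x hx hx'
  refine Lp_enorm_sq_of_ae ?_
  filter_upwards [Lp.coeFn_sub (slc ν f x) (slc ν g x), hx, hx'] with y h1 h2 h3
  rw [h1, Pi.sub_apply, h2, h3]

end slice

lemma ae_tendsto_of_le_pow {α E : Type*} [MeasurableSpace α] {μ : Measure α}
    [NormedAddCommGroup E] {a : ℕ → α → E} {b : α → E} (ha : ∀ k, AEStronglyMeasurable (a k) μ)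
    (hb : AEStronglyMeasurable b μ)
    (h : ∀ k, ∫⁻ x, ‖a k x - b x‖ₑ ^ 2 ∂μ ≤ (2⁻¹ : ℝ≥0∞) ^ k) :
    ∀ᵐ x ∂μ, Tendsto (fun k => a k x) atTop (𝓝 (b x)) := by
  have hm : ∀ k, AEMeasurable (fun x => ‖a k x - b x‖ₑ ^ 2) μ := fun k =>
    ((ha k).sub hb).enorm.pow_const 2
  have h1 : ∫⁻ x, ∑' k, ‖a k x - b x‖ₑ ^ 2 ∂μ ≠ ∞ := by
    rw [lintegral_tsum hm]
    refine ne_top_of_le_ne_top ?_ (ENNReal.tsum_le_tsum h)
    rw [ENNReal.tsum_geometric]
    norm_num
  have h2 : ∀ᵐ x ∂μ, ∑' k, ‖a k x - b x‖ₑ ^ 2 < ∞ :=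
    ae_lt_top' (AEMeasurable.ennreal_tsum hm) h1
  filter_upwards [h2] with x hx
  have h3 := ENNReal.tendsto_atTop_zero_of_tsum_ne_top hx.ne
  have h4 : Tendsto (fun k => ‖a k x - b x‖ₑ) atTop (𝓝 0) := by
    have h5 := (ENNReal.continuous_rpow_const (y := (1 / 2 : ℝ))).tendsto (0 : ℝ≥0∞)
    have h6 := h5.comp h3
    rw [ENNReal.zero_rpow_of_pos (by norm_num)] at h6
    refine h6.congr fun k => ?_
    simp only [Function.comp_apply]
    rw [← ENNReal.rpow_natCast, ← ENNReal.rpow_mul]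
    norm_num
  rw [tendsto_iff_norm_sub_tendsto_zero]
  have h5 := (ENNReal.tendsto_toReal (ENNReal.zero_ne_top)).comp h4
  rw [ENNReal.toReal_zero] at h5
  refine h5.congr fun k => ?_
  simp only [Function.comp_apply, toReal_enorm]

section weak

variable {Y : Type} [NormedAddCommGroup Y] [NormedSpace ℝ Y] [FiniteDimensional ℝ Y]
  [MeasureSpace Y] [BorelSpace Y] [(volume : Measure Y).IsAddHaarMeasure]

lemma test_memLp {φ : Y → ℝ} (hφ : Test φ) : MemLp (fun y => (φ y : ℂ)) 2 := by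
  have h1 : Continuous fun y => (φ y : ℂ) := Complex.continuous_ofReal.comp hφ.1.continuous
  exact h1.memLp_of_hasCompactSupport (hφ.2.comp_left (g := ((↑) : ℝ → ℂ)) (by simp))

lemma test_fderiv {φ : Y → ℝ} (hφ : Test φ) (e : Y) : Test fun y => fderiv ℝ φ y e := by
  refine ⟨?_, hφ.2.fderiv_apply ℝ e⟩
  exact (hφ.1.fderiv_right (m := ((⊤ : ℕ∞) : WithTop ℕ∞)) (by simp)).clm_apply contDiff_const

/-- a test function as a vector of `L²` -/
def vec (φ : Y → ℝ) (hφ : Test φ) : Lp ℂ 2 (volume : Measure Y) := (test_memLp hφ).toLp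

lemma integral_smul_eq_inner {φ : Y → ℝ} (hφ : Test φ) (h : Lp ℂ 2 (volume : Measure Y)) :
    ∫ y, φ y • h y = inner ℂ (vec φ hφ) h := by
  rw [L2.inner_def]
  refine integral_congr_ae ?_
  filter_upwards [(test_memLp hφ).coeFn_toLp] with y hy
  rw [vec, hy]
  simp [RCLike.inner_apply, mul_comm]

lemma wdf_congr {e : Y} {u u' g g' : Y → ℂ} (h : WDF e u g) (hu : u =ᵐ[volume] u')
    (hg : g =ᵐ[volume] g') : WDF e u' g' := by
  intro φ hφ
  have h1 : ∫ y, fderiv ℝ φ y e • u' y = ∫ y, fderiv ℝ φ y e • u y := by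
    refine integral_congr_ae ?_
    filter_upwards [hu] with y hy
    rw [hy]
  have h2 : ∫ y, φ y • g' y = ∫ y, φ y • g y := by
    refine integral_congr_ae ?_
    filter_upwards [hg] with y hy
    rw [hy]
  rw [h1, h2]
  exact h φ hφ

lemma wdf_iff {e : Y} {u g : Lp ℂ 2 (volume : Measure Y)} :
    WDF e (u : Y → ℂ) (g : Y → ℂ) ↔ ∀ φ : Y → ℝ, ∀ hφ : Test φ,
      inner ℂ (vec _ (test_fderiv hφ e)) u + inner ℂ (vec φ hφ) g = 0 := by
  constructor
  · intro h φ hφ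
    rw [← integral_smul_eq_inner, ← integral_smul_eq_inner, h φ hφ]
    simp
  · intro h φ hφ
    have h1 := h φ hφ
    rw [← integral_smul_eq_inner, ← integral_smul_eq_inner] at h1
    exact eq_neg_of_add_eq_zero_left h1

lemma wdf_of_tendsto {e : Y} {u g : Lp ℂ 2 (volume : Measure Y)}
    {uk gk : ℕ → Lp ℂ 2 (volume : Measure Y)} (hu : Tendsto uk atTop (𝓝 u))
    (hg : Tendsto gk atTop (𝓝 g)) (h : ∀ k, WDF e (uk k : Y → ℂ) (gk k : Y → ℂ)) :
    WDF e (u : Y → ℂ) (g : Y → ℂ) := by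
  rw [wdf_iff]
  intro φ hφ
  have h1 : Tendsto (fun k => inner ℂ (vec _ (test_fderiv hφ e)) (uk k) +
      inner ℂ (vec φ hφ) (gk k)) atTop
      (𝓝 (inner ℂ (vec _ (test_fderiv hφ e)) u + inner ℂ (vec φ hφ) g)) :=
    (tendsto_const_nhds.inner hu).add (tendsto_const_nhds.inner hg)
  have h2 : (fun k => inner ℂ (vec _ (test_fderiv hφ e)) (uk k) +
      inner ℂ (vec φ hφ) (gk k)) = fun _ => (0 : ℂ) := funext fun k => wdf_iff.1 (h k) φ hφ
  rw [h2] at h1
  exact tendsto_nhds_unique h1 tendsto_const_nhds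

/-- integration by parts for test functions -/
lemma wdf_of_contDiff {F : Type*} [NormedAddCommGroup F] [NormedSpace ℝ F] (e : Y) {w : Y → F}
    (hw : ContDiff ℝ 1 w) : WDF e w (fun y => fderiv ℝ w y e) := by
  intro φ hφ
  have hφ1 : ContDiff ℝ 1 φ := hφ.1.of_le (by exact_mod_cast le_top)
  have hdφ : Continuous fun y => fderiv ℝ φ y e :=
    (hφ1.continuous_fderiv one_ne_zero).clm_apply continuous_const
  have hdw : Continuous fun y => fderiv ℝ w y e :=
    (hw.continuous_fderiv one_ne_zero).clm_apply continuous_const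
  have h1 := integral_smul_fderiv_eq_neg_fderiv_smul_of_integrable (μ := (volume : Measure Y))
    (f := φ) (g := w) (v := e)
    ((hdφ.smul hw.continuous).integrable_of_hasCompactSupport (hφ.2.fderiv_apply ℝ e).smul_right)
    ((hφ.1.continuous.smul hdw).integrable_of_hasCompactSupport hφ.2.smul_right)
    ((hφ.1.continuous.smul hw.continuous).integrable_of_hasCompactSupport hφ.2.smul_right)
    (fun x _ => hφ1.differentiable one_ne_zero x) (fun x _ => hw.differentiable one_ne_zero x)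
  rw [h1, neg_neg]

variable {X : Type} [NormedAddCommGroup X] [NormedSpace ℝ X] [FiniteDimensional ℝ X]
  [MeasureSpace X] [BorelSpace X] [(volume : Measure X).IsAddHaarMeasure]

lemma fderiv_slice {w : X × Y → ℂ} (hw : ContDiff ℝ 1 w) (x : X) (y e : Y) :
    fderiv ℝ (fun y => w (x, y)) y e = fderiv ℝ w (x, y) (0, e) := by
  have h1 : HasFDerivAt (fun y : Y => (x, y)) (ContinuousLinearMap.inr ℝ X Y) y :=
    hasFDerivAt_prodMk_right x y
  have h2 := ((hw.differentiable one_ne_zero (x, y)).hasFDerivAt).comp y h1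
  rw [show fderiv ℝ (fun y => w (x, y)) y = _ from h2.fderiv]
  rfl

lemma fderiv_slice' {w : X × Y → ℂ} (hw : ContDiff ℝ 1 w) (x e : X) (y : Y) :
    fderiv ℝ (fun x => w (x, y)) x e = fderiv ℝ w (x, y) (e, 0) := by
  have h1 : HasFDerivAt (fun x : X => (x, y)) (ContinuousLinearMap.inl ℝ X Y) x :=
    hasFDerivAt_prodMk_left x y
  have h2 := ((hw.differentiable one_ne_zero (x, y)).hasFDerivAt).comp x h1
  rw [show fderiv ℝ (fun x => w (x, y)) x = _ from h2.fderiv]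
  rfl

lemma hasCompactSupport_slice {F : Type*} [Zero F] {w : X × Y → F}
    (hw : HasCompactSupport w) (x : X) : HasCompactSupport fun y => w (x, y) := by
  refine hw.comp_isClosedEmbedding (g := fun y : Y => (x, y)) ?_
  refine ⟨isEmbedding_prodMkRight x, ?_⟩
  have h1 : range (fun y : Y => (x, y)) = Prod.fst ⁻¹' {x} := by
    ext z
    simp only [mem_range, mem_preimage, mem_singleton_iff]
    constructor
    · rintro ⟨y, rfl⟩
      rfl
    · intro h
      exact ⟨z.2, by rw [← h]⟩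
  rw [h1]
  exact isClosed_singleton.preimage continuous_fst

instance : (volume : Measure (X × Y)).IsAddHaarMeasure :=
  Measure.prod.instIsAddHaarMeasure _ _

/-- almost every slice of a Sobolev function has the sliced weak derivative -/
theorem wdf_slc {e : Y} {f g : X × Y → ℂ} (hf : MemLp f 2) (hg : MemLp g 2)
    (h : WDF ((0 : X), e) f g) :
    ∀ᵐ x : X, WDF e (slc volume f x : Y → ℂ) (slc volume g x : Y → ℂ) := by
  have hex : ∀ k : ℕ, ∃ w : X × Y → ℂ, ContDiff ℝ ((⊤ : ℕ∞) : WithTop ℕ∞) w ∧ HasCompactSupport w ∧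
      ∫⁻ z, ‖w z - f z‖ₑ ^ 2 ≤ (2⁻¹ : ℝ≥0∞) ^ k ∧
      ∫⁻ z, ‖fderiv ℝ w z ((0 : X), e) - g z‖ₑ ^ 2 ≤ (2⁻¹ : ℝ≥0∞) ^ k := by
    intro k
    obtain ⟨w, h1, h2, h3, h4⟩ := exists_test_approx (ι := Unit) (u := f) (g := fun _ => g)
      (e := fun _ => ((0 : X), e)) hf (fun _ => hg) (fun _ => h) (ε := (2⁻¹ : ℝ≥0∞) ^ k)
      (pow_ne_zero _ (by norm_num))
    exact ⟨w, h1, h2, h3, h4 ()⟩
  choose w hw1 hw2 hw3 hw4 using hex
  have hw1' : ∀ k, ContDiff ℝ 1 (w k) := fun k => (hw1 k).of_le (by exact_mod_cast le_top)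
  have hwL : ∀ k, MemLp (w k) 2 := fun k =>
    (hw1 k).continuous.memLp_of_hasCompactSupport (hw2 k)
  have hdc : ∀ k, Continuous fun z => fderiv ℝ (w k) z ((0 : X), e) := fun k =>
    ((hw1' k).continuous_fderiv one_ne_zero).clm_apply continuous_const
  have hdL : ∀ k, MemLp (fun z => fderiv ℝ (w k) z ((0 : X), e)) 2 := fun k =>
    (hdc k).memLp_of_hasCompactSupport ((hw2 k).fderiv_apply ℝ _)
  have hf' : MemLp f 2 ((volume : Measure X).prod (volume : Measure Y)) := hf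
  have hg' : MemLp g 2 ((volume : Measure X).prod (volume : Measure Y)) := hg
  have hwL' : ∀ k, MemLp (w k) 2 ((volume : Measure X).prod (volume : Measure Y)) := hwL
  have hdL' : ∀ k, MemLp (fun z => fderiv ℝ (w k) z ((0 : X), e)) 2
    ((volume : Measure X).prod (volume : Measure Y)) := hdL
  have hlim1 : ∀ᵐ x : X, Tendsto (fun k => slc volume (w k) x) atTop (𝓝 (slc volume f x)) :=
    ae_tendsto_of_le_pow (fun k => slc_aestronglyMeasurable (hwL' k))
      (slc_aestronglyMeasurable hf') (fun k => by rw [slc_sub_lintegral (hwL' k) hf']; exact hw3 k)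
  have hlim2 : ∀ᵐ x : X, Tendsto (fun k => slc volume (fun z => fderiv ℝ (w k) z ((0 : X), e)) x)
      atTop (𝓝 (slc volume g x)) :=
    ae_tendsto_of_le_pow (fun k => slc_aestronglyMeasurable (hdL' k))
      (slc_aestronglyMeasurable hg') (fun k => by rw [slc_sub_lintegral (hdL' k) hg']; exact hw4 k)
  filter_upwards [hlim1, hlim2] with x hx1 hx2
  refine wdf_of_tendsto hx1 hx2 fun k => ?_
  have hc1 : ContDiff ℝ 1 fun y => w k (x, y) := (hw1' k).comp (contDiff_prodMk_right x)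
  have hs1 : HasCompactSupport fun y => w k (x, y) := hasCompactSupport_slice (hw2 k) x
  have hM1 : MemLp (fun y => w k (x, y)) 2 (volume : Measure Y) :=
    hc1.continuous.memLp_of_hasCompactSupport hs1
  have hM2 : MemLp (fun y => fderiv ℝ (w k) (x, y) ((0 : X), e)) 2 (volume : Measure Y) :=
    ((hdc k).comp (by fun_prop : Continuous fun y : Y => (x, y))).memLp_of_hasCompactSupport
      (hasCompactSupport_slice ((hw2 k).fderiv_apply ℝ ((0 : X), e)) x)
  have h3 := wdf_of_contDiff e hc1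
  simp only [fderiv_slice (hw1' k)] at h3
  have h4 := slc_ae (ν := (volume : Measure Y))
    (f := fun z => fderiv ℝ (w k) z ((0 : X), e)) (x := x) hM2
  exact wdf_congr h3 (slc_ae hM1).symm h4.symm

end weak

end Pool.Agent.H773.HK
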