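import Pool.Agent.H773.HK.Abs

/-!
# The Sobolev space of `n` particles and the form (helper773, project HK)
-/

set_option autoImplicit false

noncomputable section

namespace Pool.Agent.H773.HK

open MeasureTheory Filter Topology Set
open scoped ENNReal NNReal ComplexConjugate InnerProductSpace
open Pool.Agent.H998.HK


/-! ### Multiplication operators -/

theorem exists_mulOp {β E : Type} [MeasurableSpace β] {ν : Measure β} [NormedAddCommGroup E]
    [NormedSpace ℂ E] (L : E →L[ℂ] Lp ℂ 2 ν) {a : β → ℝ} (ha : Measurable a) {C : ℝ}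
    (hC : 0 ≤ C)
    (h : ∀ U, ∫⁻ y, ‖a y‖ₑ ^ 2 * ‖L U y‖ₑ ^ 2 ∂ν ≤ ENNReal.ofReal C ^ 2 * ‖U‖ₑ ^ 2) :
    ∃ M : E →L[ℂ] Lp ℂ 2 ν, (∀ U, (M U : β → ℂ) =ᵐ[ν] fun y => a y • L U y) ∧
      ∀ U, ‖M U‖ ≤ C * ‖U‖ := by
  have hsq : ∀ (U : E) (y : β), ‖a y • L U y‖ₑ ^ 2 = ‖a y‖ₑ ^ 2 * ‖L U y‖ₑ ^ 2 := fun U y => by
    rw [enorm_smul, mul_pow]
  have hmem : ∀ U, MemLp (fun y => a y • L U y) 2 ν := fun U => by
    refine memLp_two_iff.2 ⟨?_, ?_⟩
    · exact ha.aestronglyMeasurable.smul (Lp.aestronglyMeasurable _)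
    · simp only [hsq]
      exact ne_top_of_le_ne_top (ENNReal.mul_ne_top (ENNReal.pow_ne_top ENNReal.ofReal_ne_top)
        (ENNReal.pow_ne_top enorm_ne_top)) (h U)
  let M0 : E →ₗ[ℂ] Lp ℂ 2 ν :=
    { toFun := fun U => (hmem U).toLp
      map_add' := by
        intro U V
        rw [← MemLp.toLp_add]
        refine MemLp.toLp_congr _ _ ?_
        rw [map_add]
        filter_upwards [Lp.coeFn_add (L U) (L V)] with y hy
        rw [hy]
        simp [smul_add]
      map_smul' := by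
        intro c U
        rw [RingHom.id_apply, ← MemLp.toLp_const_smul]
        refine MemLp.toLp_congr _ _ ?_
        rw [map_smul]
        filter_upwards [Lp.coeFn_smul c (L U)] with y hy
        rw [hy]
        simp only [Pi.smul_apply]
        rw [smul_comm] }
  have hM0 : ∀ U, ‖M0 U‖ ≤ C * ‖U‖ := by
    intro U
    have h1 : ‖M0 U‖ₑ ^ 2 ≤ (ENNReal.ofReal (C * ‖U‖)) ^ 2 := by
      have h0 : ‖M0 U‖ₑ ^ 2 = ∫⁻ y, ‖a y • L U y‖ₑ ^ 2 ∂ν :=
        Lp_enorm_sq_of_ae (hmem U).coeFn_toLp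
      rw [h0, ENNReal.ofReal_mul hC, mul_pow, ofReal_norm]
      simp only [hsq]
      exact h U
    have h2 : ‖M0 U‖ₑ ≤ ENNReal.ofReal (C * ‖U‖) := by
      by_contra hc
      push Not at hc
      exact absurd h1 (not_le.2 (ENNReal.pow_lt_pow_left two_ne_zero hc))
    rw [← ofReal_norm] at h2
    exact (ENNReal.ofReal_le_ofReal_iff (by positivity)).1 h2
  exact ⟨M0.mkContinuous C hM0, fun U => (hmem U).coeFn_toLp, hM0⟩

/-! ### The Sobolev space -/

/-- index set of the components: `none` for the function, `some (j, i)` for `∂_{j,i}` -/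
abbrev Idx (n : ℕ) : Type := Option (Fin n × Fin 3)
abbrev Big (n : ℕ) : Type := PiLp 2 (fun _ : Idx n => Hn n)

/-- components -/
def cmp (n : ℕ) (p : Idx n) : Big n →L[ℂ] Hn n := PiLp.proj 2 (fun _ : Idx n => Hn n) p

/-- the functional whose vanishing is the weak derivative identity for the test function `φ` -/
def lfun (n : ℕ) (p : Fin n × Fin 3) (φ : {φ : Yn n → ℝ // Test φ}) : Big n →L[ℂ] ℂ :=
  (innerSL ℂ (vec _ (test_fderiv φ.2 (eY n p.1 p.2)))).comp (cmp n none) +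
    (innerSL ℂ (vec φ.1 φ.2)).comp (cmp n (some p))

/-- the Sobolev space `H¹` as a closed subspace -/
def sob (n : ℕ) : Submodule ℂ (Big n) :=
  ⨅ (p : Fin n × Fin 3), ⨅ (φ : {φ : Yn n → ℝ // Test φ}), (lfun n p φ).ker

lemma mem_sob {n : ℕ} {U : Big n} : U ∈ sob n ↔ ∀ p : Fin n × Fin 3,
    WDF (eY n p.1 p.2) (cmp n none U : Yn n → ℂ) (cmp n (some p) U : Yn n → ℂ) := by
  simp only [sob, Submodule.mem_iInf, wdf_iff]
  constructor
  · intro h p φ hφ
    exact h p ⟨φ, hφ⟩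
  · intro h p φ
    exact h p φ.1 φ.2

lemma sob_isClosed (n : ℕ) : IsClosed (sob n : Set (Big n)) := by
  simp only [sob, Submodule.coe_iInf]
  exact isClosed_iInter fun p => isClosed_iInter fun φ => (lfun n p φ).isClosed_ker

instance (n : ℕ) : CompleteSpace (sob n) := (sob_isClosed n).completeSpace_coe

/-- the Sobolev space -/
abbrev Gs (n : ℕ) : Type := sob n

/-- the components on the Sobolev space -/
def co (n : ℕ) (p : Idx n) : Gs n →L[ℂ] Hn n := (cmp n p).comp (sob n).subtypeL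

lemma co_apply {n : ℕ} (p : Idx n) (U : Gs n) : co n p U = cmp n p (U : Big n) := rfl

lemma norm_sq_Gs {n : ℕ} (U : Gs n) :
    ‖U‖ ^ 2 = ‖co n none U‖ ^ 2 + ∑ p : Fin n × Fin 3, ‖co n (some p) U‖ ^ 2 := by
  have h1 : ‖U‖ = ‖(U : Big n)‖ := rfl
  rw [h1, PiLp.norm_sq_eq_of_L2, Fintype.sum_option]
  rfl

lemma wdf_Gs {n : ℕ} (U : Gs n) (p : Fin n × Fin 3) :
    WDF (eY n p.1 p.2) (co n none U : Yn n → ℂ) (co n (some p) U : Yn n → ℂ) :=
  mem_sob.1 U.2 p

/-! ### The potentials -/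

/-- `∑ v(yⱼ)` -/
def vY (n : ℕ) (v : E3 → ℝ) (y : Yn n) : ℝ := ∑ j, v (y j)
/-- `∑_{j<k} 1/|yⱼ-yₖ|` -/
def cY (n : ℕ) (y : Yn n) : ℝ := ∑ j : Fin n, ∑ k : Fin n, if j < k then 1 / ‖y j - y k‖ else 0
/-- `∑ 1/|x-yⱼ|` -/
def wY (n : ℕ) (x : E3) (y : Yn n) : ℝ := ∑ j, 1 / ‖x - y j‖

lemma pot_eq (n : ℕ) (v : E3 → ℝ) (z : Xn n) :
    pot n v z = v z.1 + vY n v z.2 + wY n z.1 z.2 + cY n z.2 := rfl

lemma cY_nonneg (n : ℕ) (y : Yn n) : 0 ≤ cY n y :=
  Finset.sum_nonneg fun j _ => Finset.sum_nonneg fun k _ => by split_ifs <;> positivity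

lemma wY_nonneg (n : ℕ) (x : E3) (y : Yn n) : 0 ≤ wY n x y :=
  Finset.sum_nonneg fun j _ => by positivity

lemma vY_measurable (n : ℕ) {v : E3 → ℝ} (hvm : Measurable v) : Measurable (vY n v) :=
  Finset.measurable_sum _ fun j _ => hvm.comp (measurable_pi_apply j)

lemma cY_measurable (n : ℕ) : Measurable (cY n) := by
  refine Finset.measurable_sum _ fun j _ => Finset.measurable_sum _ fun k _ => ?_
  split_ifs
  · exact measurable_const.div ((measurable_pi_apply j).sub (measurable_pi_apply k)).norm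
  · exact measurable_const

lemma wY_measurable (n : ℕ) : Measurable fun z : Xn n => wY n z.1 z.2 := by
  refine Finset.measurable_sum _ fun j _ => ?_
  have h1 : Measurable fun z : Xn n => z.2 j := (measurable_pi_apply j).comp measurable_snd
  exact measurable_const.div (measurable_fst.sub h1).norm

lemma wY_measurable' (n : ℕ) (x : E3) : Measurable (wY n x) := by
  refine Finset.measurable_sum _ fun j _ => ?_
  have h1 : Measurable fun y : Yn n => y j := measurable_pi_apply j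
  exact measurable_const.div (h1.const_sub x).norm

lemma co_memLp {n : ℕ} (p : Idx n) (U : Gs n) : MemLp (co n p U : Yn n → ℂ) 2 := Lp.memLp _

lemma co_le {n : ℕ} (p : Idx n) (U : Gs n) : ‖co n p U‖ₑ ^ 2 ≤ ‖U‖ₑ ^ 2 := by
  have h1 : ‖co n p U‖ ^ 2 ≤ ‖U‖ ^ 2 := by
    rw [norm_sq_Gs]
    cases p with
    | none => exact le_add_of_nonneg_right (Finset.sum_nonneg fun _ _ => sq_nonneg _)
    | some p =>
      have := Finset.single_le_sum (f := fun p : Fin n × Fin 3 => ‖co n (some p) U‖ ^ 2)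
        (fun _ _ => sq_nonneg _) (Finset.mem_univ p)
      exact this.trans (le_add_of_nonneg_left (sq_nonneg _))
  have h2 := ENNReal.ofReal_le_ofReal h1
  rwa [ENNReal.ofReal_pow (norm_nonneg _), ENNReal.ofReal_pow (norm_nonneg _), ofReal_norm,
    ofReal_norm] at h2

lemma co_le' {n : ℕ} (p : Idx n) (U : Gs n) : ‖co n p U‖ₑ ≤ ‖U‖ₑ := by
  by_contra hc
  push Not at hc
  exact absurd (co_le p U) (not_le.2 (ENNReal.pow_lt_pow_left two_ne_zero hc))

lemma coul_le {n : ℕ} {j k : Fin n} (hjk : j ≠ k) (U : Gs n) :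
    ∫⁻ y, ‖1 / ‖y j - y k‖‖ₑ * ‖co n none U y‖ₑ ^ 2 ≤ 13 * ‖U‖ₑ ^ 2 := by
  have h1 := coulomb_finite (X := Yn n) (PY n j - PY n k) (fun i => eY n j i) (fun i => by
      simp [PY, eY, Pi.single_eq_of_ne hjk.symm]) 0 (co_memLp none U)
      (fun i => co_memLp (some (j, i)) U) (fun i => wdf_Gs U (j, i))
  simp only [sub_zero] at h1
  refine h1.trans ?_
  simp only [← Lp_enorm_sq]
  calc ‖co n none U‖ₑ ^ 2 + 4 * ∑ i, ‖co n (some (j, i)) U‖ₑ ^ 2
      ≤ ‖U‖ₑ ^ 2 + 4 * ∑ i : Fin 3, ‖U‖ₑ ^ 2 := by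
        gcongr
        · exact co_le' _ _
        · exact co_le' _ _
    _ = _ := by
        simp
        ring

lemma hardy_le {n : ℕ} (x : E3) (U : Gs n) :
    ∫⁻ y, ‖wY n x y‖ₑ ^ 2 * ‖co n none U y‖ₑ ^ 2 ≤ ENNReal.ofReal (2 * √n) ^ 2 * ‖U‖ₑ ^ 2 := by
  have h1 : ∀ j, ∫⁻ y, ENNReal.ofReal (1 / ‖y j - x‖ ^ 2) * ‖co n none U y‖ₑ ^ 2 ≤
      4 * ∑ i, ‖co n (some (j, i)) U‖ₑ ^ 2 := fun j => by
    have h2 : ∫⁻ y : Yn n, ENNReal.ofReal (1 / ‖y j - x‖ ^ 2) * ‖co n none U y‖ₑ ^ 2 ≤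
        4 * ∑ i, ∫⁻ y, ‖co n (some (j, i)) U y‖ₑ ^ 2 :=
      hardy (X := Yn n) (PY n j) (fun i => eY n j i) (fun i => by
        simp [PY, eY]) x (co_memLp none U)
        (fun i => co_memLp (some (j, i)) U) (fun i => wdf_Gs U (j, i))
    simp only [← Lp_enorm_sq] at h2
    exact h2
  have hsq : ∀ y, ‖wY n x y‖ₑ ^ 2 ≤ n * ∑ j, ENNReal.ofReal (1 / ‖y j - x‖ ^ 2) := by
    intro y
    have h2 : wY n x y ^ 2 ≤ n * ∑ j, 1 / ‖y j - x‖ ^ 2 := by
      have h3 := sq_sum_le_card_mul_sum_sq (s := (Finset.univ : Finset (Fin n)))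
        (f := fun j => 1 / ‖x - y j‖)
      have h4 : ∀ j, 1 / ‖y j - x‖ ^ 2 = (1 / ‖x - y j‖) ^ 2 := fun j => by
        rw [div_pow, one_pow, norm_sub_rev]
      simp only [h4]
      simpa [wY] using h3
    have h3 := ENNReal.ofReal_le_ofReal h2
    rw [ENNReal.ofReal_mul (by positivity), ENNReal.ofReal_natCast,
      ENNReal.ofReal_sum_of_nonneg (fun j _ => by positivity),
      ENNReal.ofReal_pow (wY_nonneg n x y)] at h3
    rwa [Real.enorm_of_nonneg (wY_nonneg n x y)]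
  have hm : ∀ j, AEMeasurable (fun y : Yn n =>
      ENNReal.ofReal (1 / ‖y j - x‖ ^ 2) * ‖co n none U y‖ₑ ^ 2) volume := fun j => by
    refine AEMeasurable.mul ?_ ((Lp.aestronglyMeasurable _).enorm.pow_const 2)
    exact (ENNReal.measurable_ofReal.comp (measurable_const.div
      (((measurable_pi_apply j).sub measurable_const).norm.pow_const 2))).aemeasurable
  calc ∫⁻ y, ‖wY n x y‖ₑ ^ 2 * ‖co n none U y‖ₑ ^ 2
      ≤ ∫⁻ y, n * ∑ j, ENNReal.ofReal (1 / ‖y j - x‖ ^ 2) * ‖co n none U y‖ₑ ^ 2 := by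
        refine lintegral_mono fun y => ?_
        rw [← Finset.sum_mul, ← mul_assoc]
        gcongr
        exact hsq y
    _ = n * ∑ j, ∫⁻ y, ENNReal.ofReal (1 / ‖y j - x‖ ^ 2) * ‖co n none U y‖ₑ ^ 2 := by
        rw [lintegral_const_mul' _ _ (ENNReal.natCast_ne_top n), lintegral_finsetSum' _ fun j _ => hm j]
    _ ≤ n * ∑ j, 4 * ∑ i, ‖co n (some (j, i)) U‖ₑ ^ 2 := by
        gcongr with j _
        exact h1 j
    _ = 4 * n * ∑ p : Fin n × Fin 3, ‖co n (some p) U‖ₑ ^ 2 := by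
        rw [Fintype.sum_prod_type, ← Finset.mul_sum]
        ring
    _ ≤ 4 * n * ‖U‖ₑ ^ 2 := by
        gcongr
        have h2 : ∑ p : Fin n × Fin 3, ‖co n (some p) U‖ ^ 2 ≤ ‖U‖ ^ 2 := by
          rw [norm_sq_Gs]
          exact le_add_of_nonneg_left (sq_nonneg _)
        have h3 := ENNReal.ofReal_le_ofReal h2
        rw [ENNReal.ofReal_sum_of_nonneg (fun p _ => by positivity),
          ENNReal.ofReal_pow (norm_nonneg _), ofReal_norm] at h3
        simpa only [ENNReal.ofReal_pow (norm_nonneg _), ofReal_norm] using h3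
    _ = _ := by
        congr 1
        rw [← ENNReal.ofReal_pow (by positivity), mul_pow, Real.sq_sqrt (by positivity),
          ENNReal.ofReal_mul (by norm_num), ENNReal.ofReal_natCast]
        norm_num

/-- the potential of `n` particles -/
def pY (n : ℕ) (v : E3 → ℝ) (y : Yn n) : ℝ := vY n v y + cY n y

lemma pY_measurable (n : ℕ) {v : E3 → ℝ} (hvm : Measurable v) : Measurable (pY n v) :=
  (vY_measurable n hvm).add (cY_measurable n)

lemma v_le {n : ℕ} {v v' : E3 → ℝ} (hvm : Measurable v) (hv' : Measurable v') {C ε : ℝ≥0∞}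
    (hC : C ≠ ∞) (hε : ε ≠ ∞) (h : ∀ x, ‖v x‖ₑ ≤ ‖v' x‖ₑ + C) (hN : N32 v' ≤ ε) (j : Fin n)
    (U : Gs n) : ∫⁻ y : Yn n, ‖v (y j)‖ₑ * ‖co n none U y‖ₑ ^ 2 ≤
      C * ‖co n none U‖ₑ ^ 2 + sobC * ε * ∑ i, ‖co n (some (j, i)) U‖ₑ ^ 2 := by
  have h2 : ∫⁻ y : Yn n, ‖v (y j)‖ₑ * ‖co n none U y‖ₑ ^ 2 ≤
      C * (∫⁻ y, ‖co n none U y‖ₑ ^ 2) + sobC * ε * ∑ i, ∫⁻ y, ‖co n (some (j, i)) U y‖ₑ ^ 2 :=
    split_sobolev (X := Yn n) (PY n j) (IY n j) (PY_IY n j) hvm hv' hC hε h hN (co_memLp none U)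
      (fun i => co_memLp (some (j, i)) U) (fun i => wdf_Gs U (j, i))
  simp only [← Lp_enorm_sq] at h2
  exact h2

lemma co_meas {n : ℕ} (U : Gs n) (p : Idx n) : AEMeasurable (fun y => ‖co n p U y‖ₑ ^ 2) volume :=
  (Lp.aestronglyMeasurable _).enorm.pow_const 2

lemma v_sum_le {n : ℕ} {v v' : E3 → ℝ} (hvm : Measurable v) (hv' : Measurable v') {C ε : ℝ≥0∞}
    (hC : C ≠ ∞) (hε : ε ≠ ∞) (h : ∀ x, ‖v x‖ₑ ≤ ‖v' x‖ₑ + C) (hN : N32 v' ≤ ε)
    (U : Gs n) : ∫⁻ y : Yn n, (∑ j, ‖v (y j)‖ₑ) * ‖co n none U y‖ₑ ^ 2 ≤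
      n * C * ‖co n none U‖ₑ ^ 2 + sobC * ε * ∑ p : Fin n × Fin 3, ‖co n (some p) U‖ₑ ^ 2 := by
  calc ∫⁻ y : Yn n, (∑ j, ‖v (y j)‖ₑ) * ‖co n none U y‖ₑ ^ 2
      = ∑ j, ∫⁻ y : Yn n, ‖v (y j)‖ₑ * ‖co n none U y‖ₑ ^ 2 := by
        simp only [Finset.sum_mul]
        rw [lintegral_finsetSum' _ fun j _ => ?_]
        exact ((hvm.comp (measurable_pi_apply j)).enorm.aemeasurable).mul (co_meas U none)
    _ ≤ ∑ j : Fin n, (C * ‖co n none U‖ₑ ^ 2 + sobC * ε * ∑ i, ‖co n (some (j, i)) U‖ₑ ^ 2) :=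
        Finset.sum_le_sum fun j _ => v_le hvm hv' hC hε h hN j U
    _ = _ := by
        rw [Finset.sum_add_distrib, Fintype.sum_prod_type, Finset.mul_sum]
        simp
        ring

lemma c_sum_le {n : ℕ} (U : Gs n) : ∫⁻ y : Yn n, ‖cY n y‖ₑ * ‖co n none U y‖ₑ ^ 2 ≤
      13 * n * n * ‖U‖ₑ ^ 2 := by
  have hm : ∀ j k : Fin n, AEMeasurable (fun y : Yn n =>
      ‖if j < k then 1 / ‖y j - y k‖ else 0‖ₑ * ‖co n none U y‖ₑ ^ 2) volume := fun j k => by
    refine AEMeasurable.mul (Measurable.aemeasurable (Measurable.enorm ?_)) (co_meas U none)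
    split_ifs
    · exact measurable_const.div ((measurable_pi_apply j).sub (measurable_pi_apply k)).norm
    · exact measurable_const
  calc ∫⁻ y : Yn n, ‖cY n y‖ₑ * ‖co n none U y‖ₑ ^ 2
      ≤ ∫⁻ y : Yn n, ∑ j : Fin n, ∑ k : Fin n,
          ‖if j < k then 1 / ‖y j - y k‖ else 0‖ₑ * ‖co n none U y‖ₑ ^ 2 := by
        refine lintegral_mono fun y => ?_
        simp only [← Finset.sum_mul]
        gcongr
        exact (enorm_sum_le _ _).trans (Finset.sum_le_sum fun j _ => enorm_sum_le _ _)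
    _ = ∑ j : Fin n, ∑ k : Fin n, ∫⁻ y : Yn n,
          ‖if j < k then 1 / ‖y j - y k‖ else 0‖ₑ * ‖co n none U y‖ₑ ^ 2 := by
        rw [lintegral_finsetSum' _ fun j _ => Finset.aemeasurable_fun_sum _ fun k _ => hm j k]
        exact Finset.sum_congr rfl fun j _ => lintegral_finsetSum' _ fun k _ => hm j k
    _ ≤ ∑ j : Fin n, ∑ k : Fin n, 13 * ‖U‖ₑ ^ 2 := by
        refine Finset.sum_le_sum fun j _ => Finset.sum_le_sum fun k _ => ?_
        by_cases hjk : j < k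
        · simp only [hjk, if_true]
          exact coul_le hjk.ne U
        · simp [hjk]
    _ = _ := by
        simp
        ring

lemma sum_co_le {n : ℕ} (U : Gs n) :
    ∑ p : Fin n × Fin 3, ‖co n (some p) U‖ₑ ^ 2 ≤ ‖U‖ₑ ^ 2 := by
  have h2 : ∑ p : Fin n × Fin 3, ‖co n (some p) U‖ ^ 2 ≤ ‖U‖ ^ 2 := by
    rw [norm_sq_Gs]
    exact le_add_of_nonneg_left (sq_nonneg _)
  have h3 := ENNReal.ofReal_le_ofReal h2
  rw [ENNReal.ofReal_sum_of_nonneg (fun p _ => by positivity),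
    ENNReal.ofReal_pow (norm_nonneg _), ofReal_norm] at h3
  simpa only [ENNReal.ofReal_pow (norm_nonneg _), ofReal_norm] using h3

lemma enorm_sqrt_sq (r : ℝ) (hr : 0 ≤ r) : ‖√r‖ₑ ^ 2 = ENNReal.ofReal r := by
  rw [Real.enorm_of_nonneg (Real.sqrt_nonneg _), ← ENNReal.ofReal_pow (Real.sqrt_nonneg _),
    Real.sq_sqrt hr]

theorem exists_form (n : ℕ) {v : E3 → ℝ} (hv : XStar v) (hvm : Measurable v) :
    ∃ (c : ℝ) (Q : Frm (Hn n) (Gs n)), Q.J = co n none ∧ 0 ≤ c ∧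
      (∀ U V : Gs n, Integrable fun y =>
        (pY n v y : ℂ) * (conj (co n none U y) * co n none V y)) ∧
      (∀ U V : Gs n, inner ℂ (Q.S U) V =
        ∑ p : Fin n × Fin 3, inner ℂ (co n (some p) U) (co n (some p) V) +
        2 * (∫ y, (pY n v y : ℂ) * (conj (co n none U y) * co n none V y)) +
        c * inner ℂ (co n none U) (co n none V)) := by
  set ε : ℝ := 1 / (4 * (sobC + 1)) with hε
  have hεpos : 0 < ε := by positivity
  obtain ⟨C, v', hC0, hv', hN, hle⟩ := xstar_split hv hvm hεpos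
  -- the bounds
  have hvb := fun U : Gs n => v_sum_le hvm hv' ENNReal.ofReal_ne_top ENNReal.ofReal_ne_top hle hN U
  set K1 : ℝ≥0∞ := n * ENNReal.ofReal C + sobC * ENNReal.ofReal ε with hK1
  have hK1fin : K1 ≠ ∞ := ENNReal.add_ne_top.2 ⟨ENNReal.mul_ne_top (ENNReal.natCast_ne_top n)
    ENNReal.ofReal_ne_top, ENNReal.mul_ne_top ENNReal.coe_ne_top ENNReal.ofReal_ne_top⟩
  have hvb' : ∀ U : Gs n, ∫⁻ y : Yn n, (∑ j, ‖v (y j)‖ₑ) * ‖co n none U y‖ₑ ^ 2 ≤
      K1 * ‖U‖ₑ ^ 2 := fun U => by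
    refine (hvb U).trans ?_
    rw [hK1, add_mul]
    gcongr
    · exact co_le' _ _
    · exact sum_co_le U
  set K2 : ℝ≥0∞ := K1 + 13 * n * n with hK2
  have hK2fin : K2 ≠ ∞ := ENNReal.add_ne_top.2 ⟨hK1fin, ENNReal.mul_ne_top (ENNReal.mul_ne_top
    (by norm_num) (ENNReal.natCast_ne_top n)) (ENNReal.natCast_ne_top n)⟩
  set K : ℝ := √K2.toReal with hK
  have hKK : ENNReal.ofReal K ^ 2 = K2 := by
    rw [← ENNReal.ofReal_pow (Real.sqrt_nonneg _), Real.sq_sqrt ENNReal.toReal_nonneg,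
      ENNReal.ofReal_toReal hK2fin]
  have hpY : ∀ y, ‖pY n v y‖ₑ ≤ (∑ j, ‖v (y j)‖ₑ) + ‖cY n y‖ₑ := fun y => by
    refine (enorm_add_le _ _).trans ?_
    gcongr
    exact enorm_sum_le _ _
  have hpb : ∀ U : Gs n, ∫⁻ y, ‖pY n v y‖ₑ * ‖co n none U y‖ₑ ^ 2 ≤ K2 * ‖U‖ₑ ^ 2 := fun U => by
    calc ∫⁻ y, ‖pY n v y‖ₑ * ‖co n none U y‖ₑ ^ 2
        ≤ ∫⁻ y, ((∑ j, ‖v (y j)‖ₑ) * ‖co n none U y‖ₑ ^ 2 + ‖cY n y‖ₑ * ‖co n none U y‖ₑ ^ 2) := by
          refine lintegral_mono fun y => ?_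
          rw [← add_mul]
          gcongr
          exact hpY y
      _ = (∫⁻ y, (∑ j, ‖v (y j)‖ₑ) * ‖co n none U y‖ₑ ^ 2) +
            ∫⁻ y, ‖cY n y‖ₑ * ‖co n none U y‖ₑ ^ 2 :=
          lintegral_add_right' _ ((cY_measurable n).enorm.aemeasurable.mul (co_meas U none))
      _ ≤ K1 * ‖U‖ₑ ^ 2 + 13 * n * n * ‖U‖ₑ ^ 2 := by
          gcongr
          · exact hvb' U
          · exact c_sum_le U
      _ = _ := by rw [hK2]; ring
  -- the multiplication operators
  set ap : Yn n → ℝ := fun y => √(max (pY n v y) 0) with hap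
  set am : Yn n → ℝ := fun y => √(max (-pY n v y) 0) with ham
  have hapm : Measurable ap := ((pY_measurable n hvm).max measurable_const).sqrt
  have hamm : Measurable am := ((pY_measurable n hvm).neg.max measurable_const).sqrt
  have hapsq : ∀ y, ‖ap y‖ₑ ^ 2 ≤ ‖pY n v y‖ₑ := fun y => by
    rw [hap, enorm_sqrt_sq _ (le_max_right _ _), ← ofReal_norm]
    refine ENNReal.ofReal_le_ofReal (max_le (le_abs_self _) (norm_nonneg _))
  have hamsq : ∀ y, ‖am y‖ₑ ^ 2 ≤ ∑ j, ‖v (y j)‖ₑ := fun y => by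
    rw [ham, enorm_sqrt_sq _ (le_max_right _ _)]
    have h1 : max (-pY n v y) 0 ≤ ∑ j, |v (y j)| := by
      refine max_le ?_ (Finset.sum_nonneg fun _ _ => abs_nonneg _)
      have h2 := cY_nonneg n y
      have h3 : -vY n v y ≤ ∑ j, |v (y j)| :=
        (neg_le_abs _).trans (Finset.abs_sum_le_sum_abs _ _)
      simp only [pY]
      linarith
    refine (ENNReal.ofReal_le_ofReal h1).trans ?_
    rw [ENNReal.ofReal_sum_of_nonneg (fun j _ => abs_nonneg _)]
    refine Finset.sum_le_sum fun j _ => ?_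
    rw [← ofReal_norm, Real.norm_eq_abs]
  have hamsq' : ∀ y, ‖am y‖ₑ ^ 2 ≤ ‖pY n v y‖ₑ := fun y => by
    rw [ham, enorm_sqrt_sq _ (le_max_right _ _), ← ofReal_norm]
    refine ENNReal.ofReal_le_ofReal (max_le (neg_le_abs _) (norm_nonneg _))
  obtain ⟨Mp, hMp, -⟩ := exists_mulOp (co n none) hapm (Real.sqrt_nonneg K2.toReal) (fun U => by
    rw [← hK, hKK]
    refine le_trans (lintegral_mono fun y => ?_) (hpb U)
    gcongr
    exact hapsq y)
  obtain ⟨Mm, hMm, -⟩ := exists_mulOp (co n none) hamm (Real.sqrt_nonneg K2.toReal) (fun U => by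
    rw [← hK, hKK]
    refine le_trans (lintegral_mono fun y => ?_) (hpb U)
    gcongr
    exact hamsq' y)
  have hMmb : ∀ U : Gs n, 2 * ‖Mm U‖ ^ 2 ≤
      2 * n * C * ‖co n none U‖ ^ 2 + (1 / 2) * ∑ p : Fin n × Fin 3, ‖co n (some p) U‖ ^ 2 := by
    intro U
    have h1 : ‖Mm U‖ₑ ^ 2 ≤ n * ENNReal.ofReal C * ‖co n none U‖ₑ ^ 2 +
        sobC * ENNReal.ofReal ε * ∑ p : Fin n × Fin 3, ‖co n (some p) U‖ₑ ^ 2 := by
      rw [Lp_enorm_sq_of_ae (hMm U)]
      refine le_trans (lintegral_mono fun y => ?_) (hvb U)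
      rw [enorm_smul, mul_pow]
      gcongr
      exact hamsq y
    have h2 : ‖Mm U‖ ^ 2 ≤ n * C * ‖co n none U‖ ^ 2 +
        sobC * ε * ∑ p : Fin n × Fin 3, ‖co n (some p) U‖ ^ 2 := by
      rw [← ENNReal.ofReal_le_ofReal_iff (by positivity)]
      rw [ENNReal.ofReal_add (by positivity) (by positivity),
        ENNReal.ofReal_mul (by positivity), ENNReal.ofReal_mul (by positivity),
        ENNReal.ofReal_mul (by positivity), ENNReal.ofReal_mul (by positivity),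
        ENNReal.ofReal_sum_of_nonneg (fun p _ => by positivity), ENNReal.ofReal_natCast,
        ENNReal.ofReal_coe_nnreal]
      simpa only [ENNReal.ofReal_pow (norm_nonneg _), ofReal_norm] using h1
    have h3 : (sobC : ℝ) * ε ≤ 1 / 4 := by
      rw [hε, mul_one_div, div_le_iff₀ (by positivity)]
      nlinarith [NNReal.coe_nonneg sobC]
    have h4 : (0:ℝ) ≤ ∑ p : Fin n × Fin 3, ‖co n (some p) U‖ ^ 2 :=
      Finset.sum_nonneg fun _ _ => sq_nonneg _
    nlinarith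
  -- the operator `S`
  set c : ℝ := 2 * n * C + 1 with hc
  have hc0 : 0 ≤ c := by positivity
  set S : Gs n →L[ℂ] Gs n := (∑ p : Fin n × Fin 3, (co n (some p)).adjoint ∘L (co n (some p))) +
    (2 : ℂ) • (Mp.adjoint ∘L Mp) - (2 : ℂ) • (Mm.adjoint ∘L Mm) +
    (c : ℂ) • ((co n none).adjoint ∘L (co n none)) with hS
  have hSin : ∀ U V : Gs n, inner ℂ (S U) V =
      ∑ p : Fin n × Fin 3, inner ℂ (co n (some p) U) (co n (some p) V) +
        2 * inner ℂ (Mp U) (Mp V) - 2 * inner ℂ (Mm U) (Mm V) +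
        c * inner ℂ (co n none U) (co n none V) := by
    intro U V
    have e0 : S U = (∑ p : Fin n × Fin 3, (co n (some p)).adjoint (co n (some p) U)) +
        (2 : ℂ) • (Mp.adjoint (Mp U)) - (2 : ℂ) • (Mm.adjoint (Mm U)) +
        (c : ℂ) • ((co n none).adjoint (co n none U)) := by
      simp only [hS, _root_.add_apply, _root_.sub_apply, _root_.smul_apply, _root_.sum_apply,
        ContinuousLinearMap.comp_apply]
    have e1 : ∀ (r : ℂ) (X : Gs n), inner ℂ (r • X) V = conj r * inner ℂ X V := fun r X =>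
      inner_smul_left X V r
    rw [e0, inner_add_left, inner_sub_left, inner_add_left, e1, e1, e1, sum_inner,
      Complex.conj_ofReal]
    have e2 : conj (2 : ℂ) = 2 := by
      have := Complex.conj_ofReal 2
      simpa using this
    simp only [ContinuousLinearMap.adjoint_inner_left, e2]
  have hre : ∀ U : Gs n, (inner ℂ (S U) U).re =
      ∑ p : Fin n × Fin 3, ‖co n (some p) U‖ ^ 2 + 2 * ‖Mp U‖ ^ 2 - 2 * ‖Mm U‖ ^ 2 +
        c * ‖co n none U‖ ^ 2 := by
    intro U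
    rw [hSin]
    have e3 : ∀ a : Hn n, inner ℂ a a = ((‖a‖ ^ 2 : ℝ) : ℂ) := fun a => by
      rw [inner_self_eq_norm_sq_to_K]
      push_cast
      rfl
    simp only [e3]
    have e4 : ∑ p : Fin n × Fin 3, ((‖co n (some p) U‖ ^ 2 : ℝ) : ℂ) + 2 * ((‖Mp U‖ ^ 2 : ℝ) : ℂ) -
        2 * ((‖Mm U‖ ^ 2 : ℝ) : ℂ) + c * ((‖co n none U‖ ^ 2 : ℝ) : ℂ) =
        ((∑ p : Fin n × Fin 3, ‖co n (some p) U‖ ^ 2 + 2 * ‖Mp U‖ ^ 2 - 2 * ‖Mm U‖ ^ 2 +
        c * ‖co n none U‖ ^ 2 : ℝ) : ℂ) := by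
      push_cast
      rfl
    rw [e4, Complex.ofReal_re]
  have hSsa : IsSelfAdjoint S := by
    rw [ContinuousLinearMap.isSelfAdjoint_iff_isSymmetric]
    intro U V
    show inner ℂ (S U) V = inner ℂ U (S V)
    have e2 : conj (2 : ℂ) = 2 := by
      have := Complex.conj_ofReal 2
      simpa using this
    rw [← inner_conj_symm U (S V), hSin, hSin]
    simp only [map_add, map_sub, map_sum, map_mul, inner_conj_symm, Complex.conj_ofReal, e2]
  have hcoer : ∀ U : Gs n, ‖co n none U‖ ^ 2 + (1 / 2) * ∑ p : Fin n × Fin 3,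
      ‖co n (some p) U‖ ^ 2 ≤ (inner ℂ (S U) U).re := by
    intro U
    rw [hre]
    have h1 := hMmb U
    have h2 := sq_nonneg ‖Mp U‖
    rw [hc]
    nlinarith
  let Q : Frm (Hn n) (Gs n) :=
    { J := co n none
      S := S
      sa := hSsa
      c1 := fun U => by
        have h1 := hcoer U
        rw [norm_sq_Gs]
        have h2 := sq_nonneg ‖co n none U‖
        linarith
      c2 := fun U => by
        have h1 := hcoer U
        have h4 : (0:ℝ) ≤ ∑ p : Fin n × Fin 3, ‖co n (some p) U‖ ^ 2 :=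
          Finset.sum_nonneg fun _ _ => sq_nonneg _
        linarith
      dense := fun k hk => by
        have h1 : ∀ U : Gs n, inner ℂ k (co n none U) = 0 := fun U => by
          rw [← ContinuousLinearMap.adjoint_inner_left, hk, inner_zero_left]
        have h2 : ∀ᵐ y : Yn n, k y = 0 := by
          refine ae_eq_zero_of_integral_contDiff_smul_eq_zero
            ((Lp.memLp k).locallyIntegrable (by norm_num)) fun φ hφ hφs => ?_
          have hT : Test φ := ⟨hφ, hφs⟩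
          let U0 : Big n := WithLp.toLp 2 (fun p : Idx n => match p with
            | none => vec φ hT
            | some p => vec _ (test_fderiv hT (eY n p.1 p.2)))
          have hU0 : U0 ∈ sob n := by
            rw [mem_sob]
            intro p
            have h3 : ContDiff ℝ 1 fun y => (φ y : ℂ) :=
              (Complex.ofRealCLM.contDiff.comp hφ).of_le (by exact_mod_cast le_top)
            have h4 := wdf_of_contDiff (eY n p.1 p.2) h3
            have h5 : (fun y => fderiv ℝ (fun y => (φ y : ℂ)) y (eY n p.1 p.2)) =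
                fun y => ((fderiv ℝ φ y (eY n p.1 p.2) : ℝ) : ℂ) := by
              ext y
              have h6 : HasFDerivAt (fun y => (φ y : ℂ)) (Complex.ofRealCLM.comp (fderiv ℝ φ y)) y :=
                Complex.ofRealCLM.hasFDerivAt.comp y
                  ((hφ.differentiable (by simp)) y).hasFDerivAt
              rw [h6.fderiv]
              rfl
            rw [h5] at h4
            exact wdf_congr h4 (test_memLp hT).coeFn_toLp.symm
              (test_memLp (test_fderiv hT (eY n p.1 p.2))).coeFn_toLp.symm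
          have h3 := h1 ⟨U0, hU0⟩
          have h4 : inner ℂ k (vec φ hT) = 0 := h3
          rw [integral_smul_eq_inner hT, ← inner_conj_symm, h4, map_zero]
        exact (Lp.eq_zero_iff_ae_eq_zero).2 h2 }
  -- identification of the potential
  have hint : ∀ U V : Gs n, Integrable fun y =>
      ((max (pY n v y) 0 : ℝ) : ℂ) * (conj (co n none U y) * co n none V y) := fun U V => by
    refine (L2.integrable_inner (𝕜 := ℂ) (Mp U) (Mp V)).congr ?_
    filter_upwards [hMp U, hMp V] with y h1 h2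
    rw [h1, h2]
    have h3 : ((max (pY n v y) 0 : ℝ) : ℂ) = (ap y : ℂ) * (ap y : ℂ) := by
      rw [← Complex.ofReal_mul, hap, Real.mul_self_sqrt (le_max_right _ _)]
    rw [h3]
    simp [RCLike.inner_apply]
    ring
  have hint' : ∀ U V : Gs n, Integrable fun y =>
      ((max (-pY n v y) 0 : ℝ) : ℂ) * (conj (co n none U y) * co n none V y) := fun U V => by
    refine (L2.integrable_inner (𝕜 := ℂ) (Mm U) (Mm V)).congr ?_
    filter_upwards [hMm U, hMm V] with y h1 h2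
    rw [h1, h2]
    have h3 : ((max (-pY n v y) 0 : ℝ) : ℂ) = (am y : ℂ) * (am y : ℂ) := by
      rw [← Complex.ofReal_mul, ham, Real.mul_self_sqrt (le_max_right _ _)]
    rw [h3]
    simp [RCLike.inner_apply]
    ring
  have hMpin : ∀ U V : Gs n, inner ℂ (Mp U) (Mp V) = ∫ y,
      ((max (pY n v y) 0 : ℝ) : ℂ) * (conj (co n none U y) * co n none V y) := fun U V => by
    rw [L2.inner_def]
    refine integral_congr_ae ?_
    filter_upwards [hMp U, hMp V] with y h1 h2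
    rw [h1, h2]
    have h3 : ((max (pY n v y) 0 : ℝ) : ℂ) = (ap y : ℂ) * (ap y : ℂ) := by
      rw [← Complex.ofReal_mul, hap, Real.mul_self_sqrt (le_max_right _ _)]
    rw [h3]
    simp [RCLike.inner_apply]
    ring
  have hMmin : ∀ U V : Gs n, inner ℂ (Mm U) (Mm V) = ∫ y,
      ((max (-pY n v y) 0 : ℝ) : ℂ) * (conj (co n none U y) * co n none V y) := fun U V => by
    rw [L2.inner_def]
    refine integral_congr_ae ?_
    filter_upwards [hMm U, hMm V] with y h1 h2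
    rw [h1, h2]
    have h3 : ((max (-pY n v y) 0 : ℝ) : ℂ) = (am y : ℂ) * (am y : ℂ) := by
      rw [← Complex.ofReal_mul, ham, Real.mul_self_sqrt (le_max_right _ _)]
    rw [h3]
    simp [RCLike.inner_apply]
    ring
  have hmm : ∀ y, (pY n v y : ℂ) = ((max (pY n v y) 0 : ℝ) : ℂ) - ((max (-pY n v y) 0 : ℝ) : ℂ) := by
    intro y
    rw [← Complex.ofReal_sub]
    congr 1
    rcases le_total (pY n v y) 0 with h | h
    · rw [max_eq_right h, max_eq_left (by linarith)]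
      ring
    · rw [max_eq_left h, max_eq_right (by linarith)]
      ring
  refine ⟨c, Q, rfl, hc0, fun U V => ?_, fun U V => ?_⟩
  · refine ((hint U V).sub (hint' U V)).congr (ae_of_all _ fun y => ?_)
    simp only [Pi.sub_apply]
    rw [hmm y]
    ring
  · show inner ℂ (S U) V = _
    rw [hSin, hMpin, hMmin]
    have h1 : ∫ y, (pY n v y : ℂ) * (conj (co n none U y) * co n none V y) =
        (∫ y, ((max (pY n v y) 0 : ℝ) : ℂ) * (conj (co n none U y) * co n none V y)) -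
        ∫ y, ((max (-pY n v y) 0 : ℝ) : ℂ) * (conj (co n none U y) * co n none V y) := by
      rw [← integral_sub (hint U V) (hint' U V)]
      refine integral_congr_ae (ae_of_all _ fun y => ?_)
      beta_reduce
      rw [hmm y]
      ring
    rw [h1]
    ring

end Pool.Agent.H773.HK
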