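import Pool.Agent.H773.HK.WBound

/-!
# Test functions for the weak equation (helper773, project HK)
-/

set_option autoImplicit false

noncomputable section

namespace Pool.Agent.H773.HK

open MeasureTheory Filter Topology Set
open scoped ENNReal NNReal ComplexConjugate InnerProductSpace
open Pool.Agent.H998.HK


section gen

variable {X : Type} [NormedAddCommGroup X] [NormedSpace ℝ X] [FiniteDimensional ℝ X]
  [MeasureSpace X] [BorelSpace X] [(volume : Measure X).IsAddHaarMeasure]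

lemma integrable_smul_of_compact {F : Type*} [NormedAddCommGroup F] [NormedSpace ℝ F]
    {ψ : X → ℝ} (hψ : Continuous ψ) (hs : HasCompactSupport ψ) {u : X → F} (hu : MemLp u 2) :
    Integrable fun x => ψ x • u x :=
  (hu.locallyIntegrable (by norm_num)).integrable_smul_left_of_hasCompactSupport hψ hs

lemma test_deriv_continuous {φ : X → ℝ} (hφ : Test φ) (e : X) :
    Continuous fun x => fderiv ℝ φ x e := (test_fderiv hφ e).1.continuous

lemma test_bounded {φ : X → ℝ} (hφ : Test φ) : ∃ C : ℝ, 0 ≤ C ∧ ∀ x, |φ x| ≤ C := by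
  obtain ⟨C, hC⟩ := hφ.2.exists_bound_of_continuous hφ.1.continuous
  exact ⟨C, (norm_nonneg _).trans (hC 0), hC⟩

/-- product of a Sobolev function with a smooth function -/
lemma wdf_mul {e : X} {u g : X → ℂ} (hu : MemLp u 2) (hg : MemLp g 2) (h : WDF e u g) {η : X → ℝ}
    (hη : ContDiff ℝ ((⊤ : ℕ∞) : WithTop ℕ∞) η) :
    WDF e (fun z => η z • u z) (fun z => η z • g z + fderiv ℝ η z e • u z) := by
  intro φ hφ
  have hη1 : ContDiff ℝ 1 η := hη.of_le (by exact_mod_cast le_top)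
  have hφ1 : ContDiff ℝ 1 φ := hφ.1.of_le (by exact_mod_cast le_top)
  have hT : Test fun z => φ z * η z := ⟨hφ.1.mul hη, hφ.2.mul_right⟩
  have hd : ∀ z, fderiv ℝ (fun z => φ z * η z) z e =
      fderiv ℝ φ z e * η z + φ z * fderiv ℝ η z e := by
    intro z
    have h1 := ((hφ1.differentiable one_ne_zero z).hasFDerivAt.mul
      (hη1.differentiable one_ne_zero z).hasFDerivAt).fderiv
    rw [show fderiv ℝ (fun z => φ z * η z) z = _ from h1]
    simp
    ring
  have hdη : Continuous fun z => fderiv ℝ η z e :=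
    (hη1.continuous_fderiv one_ne_zero).clm_apply continuous_const
  have hdφ : Continuous fun z => fderiv ℝ φ z e := test_deriv_continuous hφ e
  have h1 := h _ hT
  simp only [hd, add_smul] at h1
  have hI1 : Integrable fun z => (fderiv ℝ φ z e * η z) • u z :=
    integrable_smul_of_compact (hdφ.mul hη.continuous) (hφ.2.fderiv_apply ℝ e).mul_right hu
  have hI2 : Integrable fun z => (φ z * fderiv ℝ η z e) • u z :=
    integrable_smul_of_compact (hφ.1.continuous.mul hdη) hφ.2.mul_right hu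
  have hI3 : Integrable fun z => (φ z * η z) • g z :=
    integrable_smul_of_compact (hφ.1.continuous.mul hη.continuous) hφ.2.mul_right hg
  rw [integral_add hI1 hI2] at h1
  have e1 : ∫ z, fderiv ℝ φ z e • (η z • u z) = ∫ z, (fderiv ℝ φ z e * η z) • u z := by
    refine integral_congr_ae (ae_of_all _ fun z => ?_)
    simp only [smul_smul]
  have e2 : ∫ z, φ z • (η z • g z + fderiv ℝ η z e • u z) =
      (∫ z, (φ z * η z) • g z) + ∫ z, (φ z * fderiv ℝ η z e) • u z := by
    rw [← integral_add hI3 hI2]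
    refine integral_congr_ae (ae_of_all _ fun z => ?_)
    simp only [smul_add, smul_smul]
  rw [e1, e2, neg_add, ← h1]
  ring

lemma memLp_bdd_smul {F : Type*} [NormedAddCommGroup F] [NormedSpace ℝ F] {η : X → ℝ} {u : X → F}
    (hη : Continuous η) (C : ℝ) (hC : ∀ z, |η z| ≤ C) (hu : MemLp u 2) :
    MemLp (fun z => η z • u z) 2 := by
  refine MemLp.of_le_mul (c := C) hu (hη.aestronglyMeasurable.smul hu.1) (ae_of_all _ fun z => ?_)
  rw [norm_smul]
  exact mul_le_mul_of_nonneg_right (hC z) (norm_nonneg _)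

end gen

lemma wd_iff_wdf {X : Type} [NormedAddCommGroup X] [NormedSpace ℝ X] [MeasureSpace X] {e : X}
    {u g : X → ℂ} : WD e u g ↔ WDF e u g := Iff.rfl

/-- derivative of a function of the first variable -/
lemma fderiv_fst {n : ℕ} {η : E3 → ℝ} (hη : ContDiff ℝ 1 η) (z : Xn n) (e : Xn n) :
    fderiv ℝ (fun z : Xn n => η z.1) z e = fderiv ℝ η z.1 e.1 := by
  have h1 : HasFDerivAt (fun z : Xn n => z.1) (ContinuousLinearMap.fst ℝ E3 (Yn n)) z :=
    hasFDerivAt_fst
  have h2 := ((hη.differentiable one_ne_zero z.1).hasFDerivAt).comp z h1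
  rw [show fderiv ℝ (fun z : Xn n => η z.1) z = _ from h2.fderiv]
  rfl

/-- `ζ(x) f` is in `H¹` -/
lemma H1_mul {n : ℕ} {f : Xn n → ℂ} {Dx : Fin 3 → Xn n → ℂ} {Dy : Fin n → Fin 3 → Xn n → ℂ}
    (hf : H1 n f Dx Dy) {ζ : E3 → ℝ} (hζ : Test ζ) :
    H1 n (fun z => ζ z.1 • f z) (fun i z => ζ z.1 • Dx i z + pd i ζ z.1 • f z)
      (fun j i z => ζ z.1 • Dy j i z) := by
  obtain ⟨C, hC0, hC⟩ := test_bounded hζ
  have hζ1 : ContDiff ℝ 1 ζ := hζ.1.of_le (by exact_mod_cast le_top)
  have hζc : Continuous fun z : Xn n => ζ z.1 := hζ.1.continuous.comp continuous_fst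
  have hpc : ∀ i, Continuous fun z : Xn n => pd i ζ z.1 := fun i =>
    (test_deriv_continuous hζ _).comp continuous_fst
  have hpb : ∀ i, ∃ C' : ℝ, ∀ x, |pd i ζ x| ≤ C' := fun i => by
    obtain ⟨C', -, hC'⟩ := test_bounded (test_fderiv hζ (EuclideanSpace.single i (1 : ℝ)))
    exact ⟨C', hC'⟩
  have hcd : ContDiff ℝ ((⊤ : ℕ∞) : WithTop ℕ∞) fun z : Xn n => ζ z.1 := hζ.1.comp contDiff_fst
  refine ⟨memLp_bdd_smul hζc C (fun z => hC _) hf.f2, fun i => ?_, fun j i => ?_, fun i => ?_,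
    fun j i => ?_⟩
  · obtain ⟨C', hC'⟩ := hpb i
    exact (memLp_bdd_smul hζc C (fun z => hC _) (hf.x2 i)).add
      (memLp_bdd_smul (hpc i) C' (fun z => hC' _) hf.f2)
  · exact memLp_bdd_smul hζc C (fun z => hC _) (hf.y2 j i)
  · have h1 := wdf_mul hf.f2 (hf.x2 i) (hf.wx i) hcd
    simp only [fderiv_fst hζ1] at h1
    exact h1
  · have h1 := wdf_mul hf.f2 (hf.y2 j i) (hf.wy j i) hcd
    simp only [fderiv_fst hζ1] at h1
    have h2 : (ey n j i).1 = 0 := rfl
    simp only [h2, map_zero, zero_smul, add_zero] at h1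
    exact h1

lemma memLp_tensor {n : ℕ} {a : E3 → ℝ} (ha : MemLp a 2) {b : Yn n → ℂ} (hb : MemLp b 2) :
    MemLp (fun z : Xn n => a z.1 • b z.2) 2 := by
  refine memLp_two_iff.2 ⟨?_, ?_⟩
  · have h1 : AEStronglyMeasurable (fun z : Xn n => a z.1) (volume : Measure (Xn n)) :=
      ha.1.comp_fst
    have h2 : AEStronglyMeasurable (fun z : Xn n => b z.2) (volume : Measure (Xn n)) :=
      hb.1.comp_snd
    exact h1.smul h2
  · have h1 : ∫⁻ z : Xn n, ‖a z.1 • b z.2‖ₑ ^ 2 = ∫⁻ z : Xn n, ‖a z.1‖ₑ ^ 2 * ‖b z.2‖ₑ ^ 2 := by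
      refine lintegral_congr fun z => ?_
      rw [enorm_smul, mul_pow]
    rw [h1]
    have h2 : ∫⁻ z : Xn n, ‖a z.1‖ₑ ^ 2 * ‖b z.2‖ₑ ^ 2 =
        (∫⁻ x, ‖a x‖ₑ ^ 2) * ∫⁻ y, ‖b y‖ₑ ^ 2 :=
      lintegral_prod_mul (ha.1.enorm.pow_const 2) (hb.1.enorm.pow_const 2)
    rw [h2]
    exact ENNReal.mul_ne_top (memLp_two_iff.1 ha).2 (memLp_two_iff.1 hb).2

lemma test_memLp_real {φ : E3 → ℝ} (hφ : Test φ) : MemLp φ 2 :=
  hφ.1.continuous.memLp_of_hasCompactSupport hφ.2

lemma test_slice_left {n : ℕ} {Φ : Xn n → ℝ} (hΦ : Test Φ) (y : Yn n) :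
    Test fun x => Φ (x, y) := by
  refine ⟨hΦ.1.comp (contDiff_prodMk_left y), ?_⟩
  refine hΦ.2.comp_isClosedEmbedding (g := fun x : E3 => (x, y)) ?_
  refine ⟨isEmbedding_prodMkLeft y, ?_⟩
  have h1 : range (fun x : E3 => (x, y)) = Prod.snd ⁻¹' {y} := by
    ext z
    simp only [mem_range, mem_preimage, mem_singleton_iff]
    constructor
    · rintro ⟨y, rfl⟩
      rfl
    · intro h
      exact ⟨z.1, by rw [← h]⟩
  rw [h1]
  exact isClosed_singleton.preimage continuous_snd

lemma test_slice_right {n : ℕ} {Φ : Xn n → ℝ} (hΦ : Test Φ) (x : E3) :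
    Test fun y => Φ (x, y) :=
  ⟨hΦ.1.comp (contDiff_prodMk_right x), hasCompactSupport_slice hΦ.2 x⟩

lemma fderiv_slice_real {n : ℕ} {w : Xn n → ℝ} (hw : ContDiff ℝ 1 w) (x : E3) (y e : Yn n) :
    fderiv ℝ (fun y => w (x, y)) y e = fderiv ℝ w (x, y) (0, e) := by
  have h1 : HasFDerivAt (fun y : Yn n => (x, y)) (ContinuousLinearMap.inr ℝ E3 (Yn n)) y :=
    hasFDerivAt_prodMk_right x y
  have h2 := ((hw.differentiable one_ne_zero (x, y)).hasFDerivAt).comp y h1
  rw [show fderiv ℝ (fun y => w (x, y)) y = _ from h2.fderiv]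
  rfl

lemma fderiv_slice_real' {n : ℕ} {w : Xn n → ℝ} (hw : ContDiff ℝ 1 w) (x e : E3) (y : Yn n) :
    fderiv ℝ (fun x => w (x, y)) x e = fderiv ℝ w (x, y) (e, 0) := by
  have h1 : HasFDerivAt (fun x : E3 => (x, y)) (ContinuousLinearMap.inl ℝ E3 (Yn n)) x :=
    hasFDerivAt_prodMk_left x y
  have h2 := ((hw.differentiable one_ne_zero (x, y)).hasFDerivAt).comp x h1
  rw [show fderiv ℝ (fun x => w (x, y)) x = _ from h2.fderiv]
  rfl

/-- tensor products are in `H¹` -/
lemma H1_tensor {n : ℕ} {φ : E3 → ℝ} (hφ : Test φ) (U : Gs n) :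
    H1 n (fun z => φ z.1 • co n none U z.2) (fun i z => pd i φ z.1 • co n none U z.2)
      (fun j i z => φ z.1 • co n (some (j, i)) U z.2) := by
  have hpm : ∀ i, MemLp (pd i φ) 2 := fun i => test_memLp_real (test_fderiv hφ _)
  have hf2 := memLp_tensor (test_memLp_real hφ) (co_memLp none U)
  have hx2 := fun i => memLp_tensor (hpm i) (co_memLp none U)
  have hy2 := fun j i => memLp_tensor (test_memLp_real hφ) (co_memLp (some (j, i)) U)
  refine ⟨hf2, hx2, hy2, fun i => ?_, fun j i => ?_⟩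
  · intro Φ hΦ
    have hΦ1 : ContDiff ℝ 1 Φ := hΦ.1.of_le (by exact_mod_cast le_top)
    have hI1 : Integrable (fun z : Xn n => fderiv ℝ Φ z (ex n i) • (φ z.1 • co n none U z.2))
        ((volume : Measure E3).prod (volume : Measure (Yn n))) :=
      integrable_smul_of_compact (test_deriv_continuous hΦ _) (test_fderiv hΦ _).2 hf2
    have hI2 : Integrable (fun z : Xn n => Φ z • (pd i φ z.1 • co n none U z.2))
        ((volume : Measure E3).prod (volume : Measure (Yn n))) :=
      integrable_smul_of_compact hΦ.1.continuous hΦ.2 (hx2 i)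
    have e1 : ∫ z : Xn n, fderiv ℝ Φ z (ex n i) • (φ z.1 • co n none U z.2) =
        ∫ y, ∫ x, fderiv ℝ Φ (x, y) (ex n i) • (φ x • co n none U y) := integral_prod_symm _ hI1
    have e2 : ∫ z : Xn n, Φ z • (pd i φ z.1 • co n none U z.2) =
        ∫ y, ∫ x, Φ (x, y) • (pd i φ x • co n none U y) := integral_prod_symm _ hI2
    rw [e1, e2, ← integral_neg]
    refine integral_congr_ae (ae_of_all _ fun y => ?_)
    beta_reduce
    have h1 := wdf_of_contDiff (F := ℝ) (EuclideanSpace.single i (1 : ℝ))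
      (hφ.1.of_le (by exact_mod_cast le_top) : ContDiff ℝ 1 φ) _ (test_slice_left hΦ y)
    simp only [fderiv_slice_real' hΦ1] at h1
    have e3 : ∫ x, fderiv ℝ Φ (x, y) (ex n i) • (φ x • co n none U y) =
        (∫ x, fderiv ℝ Φ (x, y) (ex n i) • φ x) • co n none U y := by
      rw [← integral_smul_const]
      simp only [smul_assoc]
    have e4 : ∫ x, Φ (x, y) • (pd i φ x • co n none U y) =
        (∫ x, Φ (x, y) • pd i φ x) • co n none U y := by
      rw [← integral_smul_const]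
      simp only [smul_assoc]
    rw [e3, e4, ← neg_smul]
    congr 1
  · intro Φ hΦ
    have hΦ1 : ContDiff ℝ 1 Φ := hΦ.1.of_le (by exact_mod_cast le_top)
    have hI1 : Integrable (fun z : Xn n => fderiv ℝ Φ z (ey n j i) • (φ z.1 • co n none U z.2))
        ((volume : Measure E3).prod (volume : Measure (Yn n))) :=
      integrable_smul_of_compact (test_deriv_continuous hΦ _) (test_fderiv hΦ _).2 hf2
    have hI2 : Integrable (fun z : Xn n => Φ z • (φ z.1 • co n (some (j, i)) U z.2))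
        ((volume : Measure E3).prod (volume : Measure (Yn n))) :=
      integrable_smul_of_compact hΦ.1.continuous hΦ.2 (hy2 j i)
    have e1 : ∫ z : Xn n, fderiv ℝ Φ z (ey n j i) • (φ z.1 • co n none U z.2) =
        ∫ x, ∫ y, fderiv ℝ Φ (x, y) (ey n j i) • (φ x • co n none U y) := integral_prod _ hI1
    have e2 : ∫ z : Xn n, Φ z • (φ z.1 • co n (some (j, i)) U z.2) =
        ∫ x, ∫ y, Φ (x, y) • (φ x • co n (some (j, i)) U y) := integral_prod _ hI2
    rw [e1, e2, ← integral_neg]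
    refine integral_congr_ae (ae_of_all _ fun x => ?_)
    beta_reduce
    have h1 := wdf_Gs U (j, i) _ (test_slice_right hΦ x)
    simp only [fderiv_slice_real hΦ1] at h1
    have e3 : ∫ y, fderiv ℝ Φ (x, y) (ey n j i) • (φ x • co n none U y) =
        φ x • ∫ y, fderiv ℝ Φ (x, y) (ey n j i) • co n none U y := by
      rw [← integral_smul]
      simp only [smul_comm (φ x)]
    have e4 : ∫ y, Φ (x, y) • (φ x • co n (some (j, i)) U y) =
        φ x • ∫ y, Φ (x, y) • co n (some (j, i)) U y := by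
      rw [← integral_smul]
      simp only [smul_comm (φ x)]
    rw [e3, e4, ← smul_neg]
    congr 1

end Pool.Agent.H773.HK
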